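import Mathlib

/-!
# Dimension doubling for representations of alternating groups

Helper lemma AN-4 for MP_75608d_al.
-/

set_option autoImplicit false

namespace Pool.Agent.Helper4.DimDoubling

open Module

section

variable {n : ℕ} {V : Type} [AddCommGroup V] [Module ℂ V]

theorem perm_apply_mem {T : Finset (Fin n)} {σ : Equiv.Perm (Fin n)}
    (h : ∀ x, x ∉ T → σ x = x) (x : Fin n) : σ x ∈ T ↔ x ∈ T := by
  constructor
  · intro hx
    by_contra hxT
    rw [h x hxT] at hx
    exact hxT hx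
  · intro hx
    by_contra hxT
    have h1 := h _ hxT
    have h2 := σ.injective h1
    rw [h2] at hxT
    exact hxT hx

theorem ofSubtype_fix {T : Finset (Fin n)} (σ : Equiv.Perm T) (x : Fin n) (hx : x ∉ T) :
    Equiv.Perm.ofSubtype σ x = x :=
  Equiv.Perm.ofSubtype_apply_of_not_mem σ hx

/-- If one three-cycle acts on `W` as a scalar then everything even in `T` acts trivially. -/
theorem trivial_of_scalar (ρ : Equiv.Perm (Fin n) →* (V →ₗ[ℂ] V)) (T : Finset (Fin n))
    (hT : 5 ≤ T.card) (W : Submodule ℂ V)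
    (hinv : ∀ σ : Equiv.Perm (Fin n), Equiv.Perm.sign σ = 1 → (∀ x, x ∉ T → σ x = x) →
      ∀ w ∈ W, ρ σ w ∈ W)
    (τ : Equiv.Perm T) (hτ : τ.IsThreeCycle) (z : ℂ)
    (hz : ∀ w ∈ W, ρ (Equiv.Perm.ofSubtype τ) w = z • w)
    (σ : Equiv.Perm (Fin n)) (hσ : Equiv.Perm.sign σ = 1) (hσT : ∀ x, x ∉ T → σ x = x) :
    ∀ w ∈ W, ρ σ w = w := by
  have hcard : 5 ≤ Nat.card T := by
    rw [Nat.card_eq_fintype_card, Fintype.card_coe]; exact hT
  have hsub : ∀ g : Equiv.Perm T, Equiv.Perm.sign g = 1 → ∀ w ∈ W, ρ (Equiv.Perm.ofSubtype g) w ∈ W :=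
    fun g hg w hw => hinv _ (by rw [Equiv.Perm.sign_ofSubtype, hg]) (ofSubtype_fix g) w hw
  -- every three-cycle acts as `z`
  have h3 : ∀ g : Equiv.Perm T, g.IsThreeCycle → ∀ w ∈ W, ρ (Equiv.Perm.ofSubtype g) w = z • w := by
    intro g hg w hw
    have hc : IsConj (⟨τ, hτ.mem_alternatingGroup⟩ : alternatingGroup T)
        ⟨g, hg.mem_alternatingGroup⟩ := alternatingGroup.isThreeCycle_isConj hcard hτ hg
    obtain ⟨c, hc⟩ := isConj_iff.1 hc
    have hc' : (c : Equiv.Perm T) * τ * (c : Equiv.Perm T)⁻¹ = g := congrArg Subtype.val hc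
    have hcs : Equiv.Perm.sign (c : Equiv.Perm T) = 1 := Equiv.Perm.mem_alternatingGroup.1 c.2
    have hcs' : Equiv.Perm.sign (c : Equiv.Perm T)⁻¹ = 1 := by rw [Equiv.Perm.sign_inv, hcs]
    rw [← hc', map_mul, map_mul, map_mul, map_mul, Module.End.mul_apply, Module.End.mul_apply,
      hz _ (hsub _ hcs' w hw), map_smul, ← Module.End.mul_apply, ← map_mul, ← map_mul, mul_inv_cancel,
      map_one, map_one, Module.End.one_apply]
  -- `z = 1` unless `W = 0`
  have hact : ∀ g : Equiv.Perm T, g.IsThreeCycle → ∀ w ∈ W, ρ (Equiv.Perm.ofSubtype g) w = w := by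
    intro g hg w hw
    rw [h3 g hg w hw]
    have h1 : ρ (Equiv.Perm.ofSubtype g) (ρ (Equiv.Perm.ofSubtype (g⁻¹)) w) = w := by
      rw [← Module.End.mul_apply, ← map_mul, ← map_mul, mul_inv_cancel, map_one, map_one,
        Module.End.one_apply]
    rw [h3 _ hg.inv w hw, map_smul, h3 g hg w hw, smul_smul] at h1
    have h2 : ρ (Equiv.Perm.ofSubtype (g * g)) w = z • w := h3 _ hg.isThreeCycle_sq w hw
    rw [map_mul, map_mul, Module.End.mul_apply, h3 g hg w hw, map_smul, h3 g hg w hw, smul_smul,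
      h1] at h2
    exact h2.symm
  -- the subgroup acting trivially
  let H : Subgroup (Equiv.Perm T) :=
    { carrier := {g | Equiv.Perm.sign g = 1 ∧ ∀ w ∈ W, ρ (Equiv.Perm.ofSubtype g) w = w}
      mul_mem' := by
        rintro a b ⟨ha, ha'⟩ ⟨hb, hb'⟩
        refine ⟨by rw [map_mul, ha, hb, one_mul], fun w hw => ?_⟩
        rw [map_mul, map_mul, Module.End.mul_apply, hb' w hw, ha' w hw]
      one_mem' := ⟨map_one _, fun w _ => by rw [map_one, map_one, Module.End.one_apply]⟩
      inv_mem' := by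
        rintro a ⟨ha, ha'⟩
        refine ⟨by rw [Equiv.Perm.sign_inv, ha], fun w hw => ?_⟩
        conv_lhs => rw [← ha' w hw]
        rw [← Module.End.mul_apply, ← map_mul, ← map_mul, inv_mul_cancel, map_one, map_one,
          Module.End.one_apply] }
  have hH : alternatingGroup T ≤ H := by
    rw [← Equiv.Perm.closure_three_cycles_eq_alternating, Subgroup.closure_le]
    intro g hg
    exact ⟨Equiv.Perm.IsThreeCycle.sign hg, hact g hg⟩
  intro w hw
  let g : Equiv.Perm T := σ.subtypePerm (perm_apply_mem hσT)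
  have hg : Equiv.Perm.ofSubtype g = σ :=
    Equiv.Perm.ofSubtype_subtypePerm (perm_apply_mem hσT) (fun x hx => by
      by_contra hxT
      exact hx (hσT x hxT))
  have hgs : Equiv.Perm.sign g = 1 := by
    rw [← Equiv.Perm.sign_ofSubtype, hg, hσ]
  have := (hH (Equiv.Perm.mem_alternatingGroup.2 hgs)).2 w hw
  rwa [hg] at this

theorem dim_doubling {n : ℕ} {V : Type} [AddCommGroup V] [Module ℂ V] [FiniteDimensional ℂ V]
    (ρ : Equiv.Perm (Fin n) →* (V →ₗ[ℂ] V)) (J : ℕ) (T : Finset (Fin n))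
    (hT : 3 * J + 5 ≤ T.card) (W : Submodule ℂ V) (hW : W ≠ ⊥)
    (hinv : ∀ σ : Equiv.Perm (Fin n), Equiv.Perm.sign σ = 1 → (∀ x, x ∉ T → σ x = x) →
      ∀ w ∈ W, ρ σ w ∈ W)
    (hfree : ∀ C ⊆ T, C.card + 3 * J = T.card → ∀ w ∈ W,
      (∀ σ : Equiv.Perm (Fin n), Equiv.Perm.sign σ = 1 → (∀ x, x ∉ C → σ x = x) → ρ σ w = w) →
        w = 0) :
    2 ^ J ≤ finrank ℂ W := by
  induction J generalizing T W with
  | zero =>
    rw [pow_zero]
    exact Submodule.one_le_finrank_iff.2 hW
  | succ J ih =>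
    -- three distinct points
    obtain ⟨S, hST, hS⟩ := Finset.exists_subset_card_eq (show 3 ≤ T.card by omega)
    obtain ⟨a, b, c, hab, hac, hbc, rfl⟩ := Finset.card_eq_three.1 hS
    have ha : a ∈ T := hST (by simp)
    have hb : b ∈ T := hST (by simp)
    have hc : c ∈ T := hST (by simp)
    let τ' : Equiv.Perm T := Equiv.swap ⟨a, ha⟩ ⟨b, hb⟩ * Equiv.swap ⟨a, ha⟩ ⟨c, hc⟩
    have hτ' : τ'.IsThreeCycle := Equiv.Perm.isThreeCycle_swap_mul_swap_same
      (by simpa using hab) (by simpa using hac) (by simpa using hbc)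
    set τ : Equiv.Perm (Fin n) := Equiv.Perm.ofSubtype τ' with hτ
    have hτs : Equiv.Perm.sign τ = 1 := by rw [hτ, Equiv.Perm.sign_ofSubtype, hτ'.sign]
    have hτT : ∀ x, x ∉ T → τ x = x := ofSubtype_fix τ'
    have hτ3 : τ * τ * τ = 1 := by
      have h1 : τ' ^ 3 = 1 := by rw [← hτ'.orderOf, pow_orderOf_eq_one]
      rw [hτ, ← map_mul, ← map_mul, ← sq, ← pow_succ, h1, map_one]
    have hτfix : ∀ x, x ∉ ({a, b, c} : Finset (Fin n)) → τ x = x := by
      intro x hx
      by_cases hxT : x ∈ T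
      · rw [hτ, Equiv.Perm.ofSubtype_apply_of_mem τ' hxT]
        simp only [Finset.mem_insert, Finset.mem_singleton, not_or] at hx
        obtain ⟨h1, h2, h3⟩ := hx
        simp only [τ', Equiv.Perm.mul_apply]
        have e1 : (⟨x, hxT⟩ : T) ≠ ⟨a, ha⟩ := by simpa using h1
        have e2 : (⟨x, hxT⟩ : T) ≠ ⟨b, hb⟩ := by simpa using h2
        have e3 : (⟨x, hxT⟩ : T) ≠ ⟨c, hc⟩ := by simpa using h3
        rw [Equiv.swap_apply_of_ne_of_ne e1 e3, Equiv.swap_apply_of_ne_of_ne e1 e2]
      · exact hτT x hxT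
    set T' : Finset (Fin n) := T \ {a, b, c} with hT'
    have hT'T : T' ⊆ T := Finset.sdiff_subset
    have hT'card : T'.card + 3 = T.card := by
      have := Finset.card_sdiff_add_card_eq_card hST
      rw [hS] at this
      exact this
    have hcomm : ∀ σ : Equiv.Perm (Fin n), (∀ x, x ∉ T' → σ x = x) → σ * τ = τ * σ := by
      intro σ hσ
      have : Equiv.Perm.Disjoint σ τ := by
        intro x
        by_cases hx : x ∈ ({a, b, c} : Finset (Fin n))
        · left
          apply hσ
          rw [hT', Finset.mem_sdiff]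
          tauto
        · right
          exact hτfix x hx
      exact this.commute.eq
    -- the eigenvalue
    have hWτ : ∀ w ∈ W, ρ τ w ∈ W := hinv τ hτs hτT
    let f : W →ₗ[ℂ] W := (ρ τ).restrict hWτ
    have : Nontrivial W := Submodule.nontrivial_iff_ne_bot.2 hW
    obtain ⟨z, hz⟩ := Module.End.exists_eigenvalue f
    obtain ⟨w0, hw0⟩ := hz.exists_hasEigenvector
    have hw0z : ρ τ (w0 : V) = z • (w0 : V) := by
      have := congrArg Subtype.val hw0.apply_eq_smul
      simpa [f] using this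
    have hw00 : (w0 : V) ≠ 0 := by
      have := hw0.2
      simpa using this
    have hτ3' : ∀ v, ρ τ (ρ τ (ρ τ v)) = v := by
      intro v
      rw [← Module.End.mul_apply, ← Module.End.mul_apply, ← map_mul, ← map_mul, hτ3,
        map_one, Module.End.one_apply]
    have hz3 : z * z * z = 1 := by
      have h1 := hτ3' w0
      rw [hw0z, map_smul, hw0z, map_smul, map_smul, hw0z, smul_smul, smul_smul] at h1
      have h2 : (z * z * z - 1) • (w0 : V) = 0 := by rw [sub_smul, h1, one_smul, sub_self]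
      rcases smul_eq_zero.1 h2 with h | h
      · exact sub_eq_zero.1 h
      · exact absurd h hw00
    have hz0 : z ≠ 0 := by
      rintro rfl
      simp at hz3
    -- the two subspaces
    let D : V →ₗ[ℂ] V := ρ τ - z • LinearMap.id
    have hD : ∀ v, D v = ρ τ v - z • v := fun v => rfl
    have hDW : ∀ w ∈ W, D w ∈ W := fun w hw => W.sub_mem (hWτ w hw) (W.smul_mem z hw)
    let W1 : Submodule ℂ V := W ⊓ LinearMap.ker D
    let W2 : Submodule ℂ V := W.map D
    have hW1 : W1 ≠ ⊥ := by
      intro h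
      have : (w0 : V) ∈ W1 := ⟨w0.2, LinearMap.mem_ker.2 (by rw [hD, hw0z, sub_self])⟩
      rw [h, Submodule.mem_bot] at this
      exact hw00 this
    have hDσ : ∀ σ : Equiv.Perm (Fin n), (∀ x, x ∉ T' → σ x = x) → ∀ v, D (ρ σ v) = ρ σ (D v) := by
      intro σ hσ v
      rw [hD, hD, map_sub, map_smul, ← Module.End.mul_apply, ← Module.End.mul_apply, ← map_mul,
        ← map_mul, hcomm σ hσ]
    have hfree' : ∀ U : Submodule ℂ V, U ≤ W → ∀ C ⊆ T', C.card + 3 * J = T'.card → ∀ w ∈ U,
        (∀ σ : Equiv.Perm (Fin n), Equiv.Perm.sign σ = 1 → (∀ x, x ∉ C → σ x = x) → ρ σ w = w) →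
        w = 0 := by
      intro U hU C hC hCc w hw h
      exact hfree C (hC.trans hT'T) (by omega) w (hU hw) h
    have hsupp : ∀ σ : Equiv.Perm (Fin n), (∀ x, x ∉ T' → σ x = x) → ∀ x, x ∉ T → σ x = x :=
      fun σ hσ x hx => hσ x (fun h => hx (hT'T h))
    by_cases hW2 : W2 = ⊥
    · -- `τ` acts as a scalar
      exfalso
      have hscal : ∀ w ∈ W, ρ τ w = z • w := by
        intro w hw
        have : D w ∈ W2 := Submodule.mem_map_of_mem hw
        rw [hW2, Submodule.mem_bot, hD, sub_eq_zero] at this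
        exact this
      have htriv := trivial_of_scalar ρ T (by omega) W hinv τ' hτ' z hscal
      obtain ⟨C, hCT, hC⟩ := Finset.exists_subset_card_eq (show T.card - 3 * (J + 1) ≤ T.card by omega)
      apply hw00
      apply hfree C hCT (by omega) w0 w0.2
      intro σ hσ hσC
      exact htriv σ hσ (fun x hx => hσC x (fun h => hx (hCT h))) w0 w0.2
    · have h1 : 2 ^ J ≤ finrank ℂ W1 := by
        apply ih T' (by omega) W1 hW1
        · intro σ hσ hσT w hw
          refine ⟨hinv σ hσ (hsupp σ hσT) w hw.1, LinearMap.mem_ker.2 ?_⟩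
          rw [hDσ σ hσT, LinearMap.mem_ker.1 hw.2, map_zero]
        · exact hfree' W1 inf_le_left
      have h2 : 2 ^ J ≤ finrank ℂ W2 := by
        apply ih T' (by omega) W2 hW2
        · rintro σ hσ hσT _ ⟨w, hw, rfl⟩
          exact ⟨ρ σ w, hinv σ hσ (hsupp σ hσT) w hw, hDσ σ hσT w⟩
        · apply hfree' W2
          rintro _ ⟨w, hw, rfl⟩
          exact hDW w hw
      have hdisj : W1 ⊓ W2 = ⊥ := by
        rw [eq_bot_iff]
        rintro _ ⟨⟨_, hk⟩, ⟨u, hu, rfl⟩⟩
        rw [Submodule.mem_bot]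
        set v := D u with hv
        have hk' : ρ τ v = z • v := by
          have := LinearMap.mem_ker.1 hk
          rwa [hD, sub_eq_zero] at this
        -- (τ² + zτ + z²) v = 0
        have h5 : ρ τ (ρ τ v) + z • ρ τ v + (z * z) • v = 0 := by
          rw [hv, hD, map_sub, map_smul, map_sub, map_smul, hτ3']
          have : (z * z * z) • u = u := by rw [hz3, one_smul]
          simp only [smul_sub, smul_smul]
          rw [this]
          abel
        rw [hk', map_smul, hk', smul_smul, ← add_smul, ← add_smul] at h5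
        rcases smul_eq_zero.1 h5 with h | h
        · exfalso
          have : 3 * (z * z) = 0 := by linear_combination h
          have h3 : (3 : ℂ) ≠ 0 := by norm_num
          exact mul_ne_zero h3 (mul_ne_zero hz0 hz0) this
        · exact h
      have hle : W1 ⊔ W2 ≤ W := by
        apply sup_le inf_le_left
        rintro _ ⟨w, hw, rfl⟩
        exact hDW w hw
      have h6 := Submodule.finrank_sup_add_finrank_inf_eq W1 W2
      rw [hdisj, finrank_bot, add_zero] at h6
      have h7 := Submodule.finrank_mono hle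
      rw [pow_succ]
      omega

end

end Pool.Agent.Helper4.DimDoubling
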