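import Mathlib

/-!
# Derivations of a rational function field and Krull dimension of subalgebras

Helper lemmas for MP_807a54_ag.
-/

set_option autoImplicit false

namespace Pool.Agent.Helper4.EndoT2

open TrivSqZeroExt

section Snd

variable {k K : Type*} [Field k] [Field K] [Algebra k K]

/-- The `ε`-part of a lift of the identity to the dual numbers, as a derivation. -/
noncomputable def derivOf (f : K →ₐ[k] TrivSqZeroExt K K) (hf : ∀ x, (f x).fst = x) :
    Derivation k K K :=
  Derivation.mk'
    { toFun := fun x => (f x).snd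
      map_add' := fun x y => by simp
      map_smul' := fun c x => by simp }
    (fun x y => by
      change (f (x * y)).snd = x • (f y).snd + y • (f x).snd
      rw [map_mul, TrivSqZeroExt.snd_mul, hf, hf]
      simp [mul_comm])

theorem derivOf_apply (f : K →ₐ[k] TrivSqZeroExt K K) (hf : ∀ x, (f x).fst = x) (x : K) :
    derivOf f hf x = (f x).snd := rfl

theorem isUnit_of_fst_ne_zero (x : TrivSqZeroExt K K) (hx : x.fst ≠ 0) : IsUnit x := by
  rw [TrivSqZeroExt.isUnit_iff_isUnit_fst]
  exact isUnit_iff_ne_zero.2 hx

/-- The hom sending `X j` to `v j + c j ε`. -/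
noncomputable def dualHom {ι : Type*} (v c : ι → K) : MvPolynomial ι k →ₐ[k] TrivSqZeroExt K K :=
  MvPolynomial.aeval fun j => inl (v j) + inr (c j)

theorem dualHom_X {ι : Type*} (v c : ι → K) (j : ι) :
    dualHom (k := k) v c (MvPolynomial.X j) = inl (v j) + inr (c j) := by
  simp [dualHom]

theorem dualHom_fst {ι : Type*} (v c : ι → K) (p : MvPolynomial ι k) :
    (dualHom v c p).fst = MvPolynomial.aeval v p := by
  have h : (TrivSqZeroExt.fstHom k K K).comp (dualHom v c) = MvPolynomial.aeval v := by
    ext j
    simp [dualHom_X]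
  exact congrArg (fun g : MvPolynomial ι k →ₐ[k] K => g p) h

theorem dualHom_snd {ι : Type*} [DecidableEq ι] (v : ι → K) (s : ι) (p : MvPolynomial ι k) :
    (dualHom v (Pi.single s 1) p).snd = MvPolynomial.aeval v (MvPolynomial.pderiv s p) := by
  induction p using MvPolynomial.induction_on with
  | C a =>
    have : dualHom (k := k) v (Pi.single s 1) (MvPolynomial.C a) = inl (algebraMap k K a) := by
      rw [← MvPolynomial.algebraMap_eq, AlgHom.commutes]
      rfl
    rw [this]
    simp
  | add p q hp hq => simp [hp, hq]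
  | mul_X p j hp =>
    rw [map_mul, TrivSqZeroExt.snd_mul, dualHom_fst, dualHom_fst, hp, dualHom_X,
      Derivation.leibniz, MvPolynomial.pderiv_X]
    simp only [smul_eq_mul, map_add, map_mul, TrivSqZeroExt.snd_add, TrivSqZeroExt.snd_inl,
      TrivSqZeroExt.snd_inr, zero_add, MvPolynomial.aeval_X, Pi.single_apply]
    split_ifs <;> simp [mul_comm]

end Snd

section Exists

theorem T2_exists_D {k σ : Type*} [Field k] [Fintype σ] :
    ∃ D : σ → Derivation k (FractionRing (MvPolynomial σ k)) (FractionRing (MvPolynomial σ k)),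
      ∀ s p, D s (algebraMap (MvPolynomial σ k) _ p) = algebraMap _ _ (MvPolynomial.pderiv s p) := by
  classical
  have key : ∀ s : σ, ∃ D : Derivation k (FractionRing (MvPolynomial σ k))
      (FractionRing (MvPolynomial σ k)), ∀ p, D (algebraMap (MvPolynomial σ k) _ p) =
        algebraMap _ _ (MvPolynomial.pderiv s p) := by
    intro s
    set K := FractionRing (MvPolynomial σ k) with hK
    let v : σ → K := fun j => algebraMap (MvPolynomial σ k) K (MvPolynomial.X j)
    have hv : ∀ p : MvPolynomial σ k, MvPolynomial.aeval v p = algebraMap (MvPolynomial σ k) K p := by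
      intro p
      have : MvPolynomial.aeval v = IsScalarTower.toAlgHom k (MvPolynomial σ k) K := by
        ext j
        simp [v]
      rw [this]
      rfl
    let h : MvPolynomial σ k →ₐ[k] TrivSqZeroExt K K := dualHom v (Pi.single s 1)
    have hfst : ∀ p, (h p).fst = algebraMap (MvPolynomial σ k) K p := fun p => by
      rw [dualHom_fst, hv]
    have hsnd : ∀ p, (h p).snd = algebraMap (MvPolynomial σ k) K (MvPolynomial.pderiv s p) :=
      fun p => by rw [dualHom_snd, hv]
    have hu : ∀ y : nonZeroDivisors (MvPolynomial σ k), IsUnit (h (y : MvPolynomial σ k)) := by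
      intro y
      apply isUnit_of_fst_ne_zero
      rw [hfst]
      exact IsFractionRing.to_map_ne_zero_of_mem_nonZeroDivisors y.2
    let f : K →ₐ[k] TrivSqZeroExt K K :=
      IsLocalization.liftAlgHom (M := nonZeroDivisors (MvPolynomial σ k)) (f := h) hu
    have hf0 : ∀ p, f (algebraMap (MvPolynomial σ k) _ p) = h p := by
      intro p
      simp [f]
    have hf : ∀ x, (f x).fst = x := by
      intro x
      obtain ⟨a, b, hb, rfl⟩ := IsFractionRing.div_surjective (A := MvPolynomial σ k) x
      have hb0 : algebraMap (MvPolynomial σ k) K b ≠ 0 :=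
        IsFractionRing.to_map_ne_zero_of_mem_nonZeroDivisors hb
      have h1 : (f (algebraMap (MvPolynomial σ k) K a / algebraMap (MvPolynomial σ k) K b)).fst *
          (f (algebraMap (MvPolynomial σ k) K b)).fst = (f (algebraMap (MvPolynomial σ k) K a)).fst := by
        rw [← TrivSqZeroExt.fst_mul, ← map_mul, div_mul_cancel₀ _ hb0]
      rw [hf0 a, hf0 b, hfst, hfst] at h1
      rw [eq_div_iff hb0]
      exact h1
    refine ⟨derivOf f hf, fun p => ?_⟩
    rw [derivOf_apply, hf0, hsnd]
  choose D hD using key
  exact ⟨D, hD⟩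

end Exists

section Lift

variable {k K : Type*} [Field k] [Field K] [Algebra k K]

open scoped IntermediateField.algebraAdjoinAdjoin in
theorem formallySmooth_adjoin [CharZero k] [Algebra.EssFiniteType k K] {ι : Type*} {v : ι → K}
    : Algebra.FormallySmooth (Algebra.adjoin k (Set.range v)) K := by
  have h1 : Algebra.FormallySmooth (Algebra.adjoin k (Set.range v))
      (IntermediateField.adjoin k (Set.range v)) :=
    .of_isLocalization (nonZeroDivisors _)
  have : CharZero (IntermediateField.adjoin k (Set.range v)) := charZero_of_injective_algebraMap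
    (algebraMap k (IntermediateField.adjoin k (Set.range v))).injective
  have h2 : Algebra.EssFiniteType (IntermediateField.adjoin k (Set.range v)) K :=
    Algebra.EssFiniteType.of_comp k _ K
  have h3 : Algebra.FormallySmooth (IntermediateField.adjoin k (Set.range v)) K := inferInstance
  exact .comp _ (IntermediateField.adjoin k (Set.range v)) _

theorem exists_derivation [CharZero k] [Algebra.EssFiniteType k K] {ι : Type*}
    {v : ι → K} (hv : AlgebraicIndependent k v) (c : ι → K) :
    ∃ E : Derivation k K K, ∀ j, E (v j) = c j := by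
  let A := Algebra.adjoin k (Set.range v)
  let g : A →ₐ[k] TrivSqZeroExt K K := (dualHom v c).comp hv.aevalEquiv.symm.toAlgHom
  have hg : ∀ a : A, (g a).fst = (a : K) := by
    intro a
    obtain ⟨p, rfl⟩ := hv.aevalEquiv.surjective a
    simp [g, dualHom_fst]
  have hgv : ∀ j, g ⟨v j, Algebra.subset_adjoin ⟨j, rfl⟩⟩ = inl (v j) + inr (c j) := by
    intro j
    have : (⟨v j, Algebra.subset_adjoin ⟨j, rfl⟩⟩ : A) = hv.aevalEquiv (MvPolynomial.X j) := by
      ext
      simp
    rw [this]
    simp [g, dualHom_X]
  have hfs : Algebra.FormallySmooth A K := formallySmooth_adjoin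
  -- the dual numbers as an `A`-algebra through `g`
  obtain ⟨B, hB, hB1, hB2, e, he⟩ : ∃ (B : Type _) (_ : CommRing B) (_ : Algebra k B)
      (_ : Algebra A B) (e : B ≃ₐ[k] TrivSqZeroExt K K), ∀ a : A, e (algebraMap A B a) = g a := by
    let B := TrivSqZeroExt K K
    exact ⟨B, inferInstance, inferInstance, g.toRingHom.toAlgebra, AlgEquiv.refl, fun a => rfl⟩
  have htow : IsScalarTower k A B := IsScalarTower.of_algebraMap_eq fun x => by
    apply e.injective
    rw [he, AlgHom.commutes, AlgEquiv.commutes]
  let π : B →ₐ[A] K :=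
    { ((TrivSqZeroExt.fstHom k K K).comp e.toAlgHom).toRingHom with
      commutes' := fun a => by
        change (e (algebraMap A B a)).fst = _
        rw [he, hg]
        rfl }
  have hπ : ∀ x, π x = (e x).fst := fun x => rfl
  have hsurj : Function.Surjective π := fun x => ⟨e.symm (inl x), by rw [hπ]; simp⟩
  have hnil : IsNilpotent (RingHom.ker (π : B →+* K)) := by
    refine ⟨2, ?_⟩
    rw [sq, Submodule.zero_eq_bot, eq_bot_iff, Ideal.mul_le]
    intro x hx y hy
    rw [RingHom.mem_ker] at hx hy
    have hx' : (e x).fst = 0 := hx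
    have hy' : (e y).fst = 0 := hy
    rw [Ideal.mem_bot]
    apply e.injective
    rw [map_mul, map_zero]
    ext
    · simp [hx']
    · simp [hx', hy']
  let f : K →ₐ[A] B :=
    Algebra.FormallySmooth.liftOfSurjective (AlgHom.id A K) π hsurj hnil
  have hf : ∀ x, (e (f x)).fst = x := fun x =>
    Algebra.FormallySmooth.liftOfSurjective_apply (AlgHom.id A K) π hsurj hnil x
  let f' : K →ₐ[k] TrivSqZeroExt K K := e.toAlgHom.comp (f.restrictScalars k)
  have hf' : ∀ x, (f' x).fst = x := hf
  refine ⟨derivOf f' hf', fun j => ?_⟩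
  rw [derivOf_apply]
  have h1 : f' (v j) = g ⟨v j, Algebra.subset_adjoin ⟨j, rfl⟩⟩ := by
    have h2 := f.commutes (⟨v j, Algebra.subset_adjoin ⟨j, rfl⟩⟩ : A)
    rw [← he, ← h2]
    rfl
  rw [h1, hgv]
  simp

end Lift

section Indep

variable {k σ : Type*} [Field k]

theorem derivation_eq_sum [Fintype σ]
    (D : σ → Derivation k (FractionRing (MvPolynomial σ k)) (FractionRing (MvPolynomial σ k)))
    (hD : ∀ s p, D s (algebraMap (MvPolynomial σ k) _ p) =
      algebraMap _ _ (MvPolynomial.pderiv s p))
    (E : Derivation k (FractionRing (MvPolynomial σ k)) (FractionRing (MvPolynomial σ k)))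
    (x : FractionRing (MvPolynomial σ k)) :
    E x = ∑ s, E (algebraMap (MvPolynomial σ k) _ (MvPolynomial.X s)) * D s x := by
  classical
  let E' : Derivation k (FractionRing (MvPolynomial σ k)) (FractionRing (MvPolynomial σ k)) :=
    ∑ s, E (algebraMap (MvPolynomial σ k) _ (MvPolynomial.X s)) • D s
  have hE' : ∀ y, E' y = ∑ s, E (algebraMap (MvPolynomial σ k) _ (MvPolynomial.X s)) * D s y := by
    intro y
    have h := map_sum (Derivation.coeFnAddMonoidHom (R := k) (A := FractionRing (MvPolynomial σ k))
      (M := FractionRing (MvPolynomial σ k)))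
      (fun s => E (algebraMap (MvPolynomial σ k) _ (MvPolynomial.X s)) • D s) Finset.univ
    have h2 := congrFun h y
    rw [Finset.sum_apply] at h2
    exact h2
  rw [← hE']
  have hpoly : ∀ p : MvPolynomial σ k, E (algebraMap (MvPolynomial σ k) _ p) =
      E' (algebraMap (MvPolynomial σ k) _ p) := by
    intro p
    have h : E.compAlgebraMap (MvPolynomial σ k) = E'.compAlgebraMap (MvPolynomial σ k) := by
      apply MvPolynomial.derivation_ext
      intro j
      change E (algebraMap (MvPolynomial σ k) (FractionRing (MvPolynomial σ k)) (MvPolynomial.X j)) =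
        E' (algebraMap (MvPolynomial σ k) (FractionRing (MvPolynomial σ k)) (MvPolynomial.X j))
      rw [hE', Finset.sum_eq_single j]
      · rw [hD]; simp
      · intro s _ hs
        rw [hD, MvPolynomial.pderiv_X_of_ne hs.symm]
        simp
      · simp
    exact congrArg (fun F : Derivation k (MvPolynomial σ k) (FractionRing (MvPolynomial σ k)) => F p) h
  obtain ⟨a, b, hb, rfl⟩ := IsFractionRing.div_surjective (A := MvPolynomial σ k) x
  have hb0 : algebraMap (MvPolynomial σ k) (FractionRing (MvPolynomial σ k)) b ≠ 0 :=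
    IsFractionRing.to_map_ne_zero_of_mem_nonZeroDivisors hb
  have h1 : ∀ F : Derivation k (FractionRing (MvPolynomial σ k)) (FractionRing (MvPolynomial σ k)),
      F (algebraMap (MvPolynomial σ k) (FractionRing (MvPolynomial σ k)) a /
        algebraMap (MvPolynomial σ k) (FractionRing (MvPolynomial σ k)) b) =
      (F (algebraMap (MvPolynomial σ k) (FractionRing (MvPolynomial σ k)) a) -
        (algebraMap (MvPolynomial σ k) (FractionRing (MvPolynomial σ k)) a /
        algebraMap (MvPolynomial σ k) (FractionRing (MvPolynomial σ k)) b) *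
        F (algebraMap (MvPolynomial σ k) (FractionRing (MvPolynomial σ k)) b)) /
        algebraMap (MvPolynomial σ k) (FractionRing (MvPolynomial σ k)) b := by
    intro F
    have h2 := F.leibniz (algebraMap (MvPolynomial σ k) (FractionRing (MvPolynomial σ k)) a /
        algebraMap (MvPolynomial σ k) (FractionRing (MvPolynomial σ k)) b)
        (algebraMap (MvPolynomial σ k) (FractionRing (MvPolynomial σ k)) b)
    rw [div_mul_cancel₀ _ hb0, smul_eq_mul, smul_eq_mul] at h2
    rw [h2, eq_div_iff hb0]
    ring
  rw [h1 E, h1 E', hpoly a, hpoly b]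

theorem card_le_finrank [CharZero k] [Fintype σ]
    (D : σ → Derivation k (FractionRing (MvPolynomial σ k)) (FractionRing (MvPolynomial σ k)))
    (hD : ∀ s p, D s (algebraMap (MvPolynomial σ k) _ p) =
      algebraMap _ _ (MvPolynomial.pderiv s p))
    (N : Submodule (FractionRing (MvPolynomial σ k)) (σ → FractionRing (MvPolynomial σ k)))
    {ι : Type*} [Fintype ι] {v : ι → FractionRing (MvPolynomial σ k)}
    (hv : AlgebraicIndependent k v) (hN : ∀ j, (fun s => D s (v j)) ∈ N) :
    Fintype.card ι ≤ Module.finrank (FractionRing (MvPolynomial σ k)) N := by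
  classical
  have hess : Algebra.EssFiniteType k (FractionRing (MvPolynomial σ k)) := inferInstance
  let w : ι → N := fun j => ⟨fun s => D s (v j), hN j⟩
  have hw : LinearIndependent (FractionRing (MvPolynomial σ k)) w := by
    rw [Fintype.linearIndependent_iff]
    intro c hc i
    obtain ⟨E, hE⟩ := exists_derivation (k := k) hv (Pi.single i 1)
    have h1 : ∀ s, ∑ j, c j * D s (v j) = 0 := by
      intro s
      have h2 := congrArg (fun z : N => (z : σ → FractionRing (MvPolynomial σ k)) s) hc
      simpa [w, Finset.sum_apply] using h2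
    have h3 : ∑ j, c j * E (v j) = 0 := by
      have : ∀ j, c j * E (v j) = ∑ s, E (algebraMap (MvPolynomial σ k) _ (MvPolynomial.X s)) *
          (c j * D s (v j)) := by
        intro j
        rw [derivation_eq_sum D hD E (v j), Finset.mul_sum]
        exact Finset.sum_congr rfl fun s _ => by ring
      rw [Finset.sum_congr rfl fun j _ => this j, Finset.sum_comm]
      apply Finset.sum_eq_zero
      intro s _
      rw [← Finset.mul_sum, h1, mul_zero]
    simpa [hE, Pi.single_apply] using h3
  exact hw.fintype_card_le_finrank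

end Indep

section Chain

theorem exists_algebraicIndependent_of_chain {k R : Type*} [Field k] [CommRing R] [Algebra k R] :
    ∀ (n : ℕ) (p : LTSeries (PrimeSpectrum R)), p.length = n →
      ∃ (ι : Type) (_ : Fintype ι) (y : ι → R), Fintype.card ι = n ∧
        AlgebraicIndependent k (fun j => Ideal.Quotient.mk p.head.asIdeal (y j)) := by
  intro n
  induction n with
  | zero =>
    intro p _
    refine ⟨Empty, inferInstance, Empty.elim, rfl, ?_⟩
    rw [algebraicIndependent_empty_type_iff]
    exact (algebraMap k (R ⧸ p.head.asIdeal)).injective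
  | succ n ih =>
    intro p hp
    have hlen : p.length ≠ 0 := by omega
    obtain ⟨ι, hι, y, hcard, hy⟩ := ih (p.tail hlen) (by simp [hp])
    have hlt : p.head < (p.tail hlen).head := by
      rw [RelSeries.head_tail]
      exact p.strictMono (by
        rw [Fin.lt_def]
        simp only [Fin.val_zero, Fin.val_one']
        rw [Nat.mod_eq_of_lt (by omega)]
        exact one_pos)
    set P := p.head
    set Q := (p.tail hlen).head
    have hlt' : P.asIdeal < Q.asIdeal := hlt
    obtain ⟨z, hzQ, hzP⟩ := Set.exists_of_ssubset hlt'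
    let π : (R ⧸ P.asIdeal) →ₐ[k] (R ⧸ Q.asIdeal) := Ideal.Quotient.factorₐ k hlt'.le
    have hπ : ∀ r : R, π (Ideal.Quotient.mk P.asIdeal r) = Ideal.Quotient.mk Q.asIdeal r :=
      fun r => rfl
    have hyP : AlgebraicIndependent k (fun j => Ideal.Quotient.mk P.asIdeal (y j)) :=
      AlgebraicIndependent.of_comp π hy
    refine ⟨Option ι, inferInstance, fun o => o.elim z y, by simp [hcard], ?_⟩
    have hopt : (fun o : Option ι => Ideal.Quotient.mk P.asIdeal (o.elim z y)) =
        fun o : Option ι => o.elim (Ideal.Quotient.mk P.asIdeal z)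
          (fun j => Ideal.Quotient.mk P.asIdeal (y j)) := by
      funext o
      cases o <;> rfl
    rw [hopt, hyP.option_iff_transcendental]
    intro halg
    have hz0 : Ideal.Quotient.mk P.asIdeal z ≠ 0 := by
      rwa [Ne, Ideal.Quotient.eq_zero_iff_mem]
    obtain ⟨r, hr0, hr⟩ := halg.exists_nonzero_dvd (mem_nonZeroDivisors_of_ne_zero hz0)
    obtain ⟨F, hF⟩ := hyP.aevalEquiv.surjective r
    apply hr0
    have h1 : MvPolynomial.aeval (fun j => Ideal.Quotient.mk Q.asIdeal (y j)) F = 0 := by
      obtain ⟨t, ht⟩ := hr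
      have h2 : π (algebraMap _ _ r) = 0 := by
        rw [ht, map_mul, hπ, Ideal.Quotient.eq_zero_iff_mem.2 hzQ, zero_mul]
      rw [← hF] at h2
      have h4 : (algebraMap (Algebra.adjoin k (Set.range fun j => Ideal.Quotient.mk P.asIdeal (y j)))
          (R ⧸ P.asIdeal) (hyP.aevalEquiv F)) =
          MvPolynomial.aeval (fun j => Ideal.Quotient.mk P.asIdeal (y j)) F :=
        hyP.algebraMap_aevalEquiv F
      rw [h4, MvPolynomial.comp_aeval_apply] at h2
      exact h2
    have h3 : F = 0 := (algebraicIndependent_iff.1 hy) F h1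
    rw [← hF, h3, map_zero]

theorem ringKrullDim_le_of_bound {k R : Type*} [Field k] [CommRing R] [Algebra k R] (m : ℕ)
    (h : ∀ (ι : Type) (_ : Fintype ι) (y : ι → R), AlgebraicIndependent k y → Fintype.card ι ≤ m) :
    ringKrullDim R ≤ m := by
  refine iSup_le fun p => ?_
  obtain ⟨ι, hι, y, hcard, hy⟩ := exists_algebraicIndependent_of_chain (k := k) p.length p rfl
  have hyR : AlgebraicIndependent k y :=
    AlgebraicIndependent.of_comp (Ideal.Quotient.mkₐ k p.head.asIdeal) hy
  have h := h ι hι y hyR
  rw [hcard] at h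
  exact_mod_cast h

theorem T2_ringKrullDim_le {k σ : Type*} [Field k] [CharZero k] [Fintype σ]
    (D : σ → Derivation k (FractionRing (MvPolynomial σ k)) (FractionRing (MvPolynomial σ k)))
    (hD : ∀ s p, D s (algebraMap (MvPolynomial σ k) _ p) =
      algebraMap _ _ (MvPolynomial.pderiv s p))
    (R : Subalgebra k (FractionRing (MvPolynomial σ k)))
    (N : Submodule (FractionRing (MvPolynomial σ k)) (σ → FractionRing (MvPolynomial σ k)))
    (hN : ∀ x ∈ R, (fun s => D s x) ∈ N) :
    ringKrullDim R ≤ Module.finrank (FractionRing (MvPolynomial σ k)) N := by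
  apply ringKrullDim_le_of_bound (k := k)
  intro ι hι y hyR
  have hyK : AlgebraicIndependent k (fun j => (y j : FractionRing (MvPolynomial σ k))) :=
    (AlgHom.algebraicIndependent_iff R.val Subtype.val_injective).2 hyR
  exact card_le_finrank D hD N hyK (fun j => hN _ (y j).2)

end Chain

end Pool.Agent.Helper4.EndoT2
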