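import Pool.Agent.Helper4.LinCert

/-!
# Representations on sets in any universe

A countable lattice of commuting equivalence relations on a set in any universe can also be
represented on the natural numbers. So the dual of the lattice of normal subgroups of the group
`Gp β4` has no representation on any set.
-/

set_option autoImplicit false

namespace Pool.Agent.Helper4.Lin

universe v

/-- If two equivalence relations commute, their join is their composition. -/
theorem sup_of_comm' {X : Type v} (r s : Setoid X)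
    (h : ∀ x y : X, (∃ z, r.r x z ∧ s.r z y) ↔ (∃ z, s.r x z ∧ r.r z y)) (x y : X)
    (hxy : (r ⊔ s).r x y) : ∃ z, r.r x z ∧ s.r z y := by
  let t : Setoid X :=
    { r := fun x y => ∃ z, r.r x z ∧ s.r z y
      iseqv :=
        { refl := fun x => ⟨x, r.iseqv.refl x, s.iseqv.refl x⟩
          symm := by
            rintro a b hab
            obtain ⟨z, h1, h2⟩ := (h a b).1 hab
            exact ⟨z, r.iseqv.symm h2, s.iseqv.symm h1⟩
          trans := by
            rintro a b c ⟨z, h1, h2⟩ ⟨w, h3, h4⟩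
            obtain ⟨q, h5, h6⟩ := (h z w).2 ⟨b, h2, h3⟩
            exact ⟨q, r.iseqv.trans h1 h5, s.iseqv.trans h6 h4⟩ } }
  have hr : r ≤ t := fun a b hab => ⟨b, hab, s.iseqv.refl b⟩
  have hs : s ≤ t := fun a b hab => ⟨a, r.iseqv.refl a, hab⟩
  have hle : r ⊔ s ≤ t := sup_le hr hs
  exact hle hxy

/-- A representation of a countable lattice on a set in any universe gives one on `ℕ`. -/
theorem rep_nat {L : Type} [Lattice L] [Countable L] [Nontrivial L] (X : Type v)
    (f : LatticeHom L (Setoid X)) (hinj : Function.Injective f)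
    (hcomm : ∀ (a b : L) (x y : X),
      (∃ z, (f a).r x z ∧ (f b).r z y) ↔ (∃ z, (f b).r x z ∧ (f a).r z y)) :
    ∃ g : LatticeHom L (Setoid ℕ), Function.Injective g ∧
      ∀ (a b : L) (x y : ℕ),
        (∃ z, (g a).r x z ∧ (g b).r z y) ↔ (∃ z, (g b).r x z ∧ (g a).r z y) := by
  classical
  have hne : Nonempty X := by
    by_contra hemp
    rw [not_nonempty_iff] at hemp
    obtain ⟨a, b, hab⟩ := exists_pair_ne L
    apply hab
    apply hinj
    apply Setoid.ext
    intro x
    exact (hemp.false x).elim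
  obtain ⟨x0⟩ := hne
  have hw : ∀ (a b : L) (x y : X), ∃ z, (f (a ⊔ b)).r x y → (f a).r x z ∧ (f b).r z y := by
    intro a b x y
    by_cases h : (f (a ⊔ b)).r x y
    · have h' : (f a ⊔ f b).r x y := by rwa [map_sup] at h
      obtain ⟨z, hz⟩ := sup_of_comm' (f a) (f b) (hcomm a b) x y h'
      exact ⟨z, fun _ => hz⟩
    · exact ⟨x, fun h' => absurd h' h⟩
  choose w hw using hw
  have hsep : ∀ a b : L, ∃ x y : X, a ≠ b → ¬ ((f a).r x y ↔ (f b).r x y) := by
    intro a b
    by_cases hab : a = b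
    · exact ⟨x0, x0, fun h => absurd hab h⟩
    · by_contra hcon
      push Not at hcon
      apply hab
      apply hinj
      apply Setoid.ext
      intro x y
      exact (hcon x y).2
  choose p q hpq using hsep
  let S : ℕ → Set X := fun n => Nat.rec
    (insert x0 (Set.range (fun ab : L × L => p ab.1 ab.2) ∪
      Set.range (fun ab : L × L => q ab.1 ab.2)))
    (fun _ T => T ∪ ⋃ ab : L × L, Set.image2 (w ab.1 ab.2) T T) n
  have hS0 : S 0 = insert x0 (Set.range (fun ab : L × L => p ab.1 ab.2) ∪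
      Set.range (fun ab : L × L => q ab.1 ab.2)) := rfl
  have hS1 : ∀ n, S (n + 1) = S n ∪ ⋃ ab : L × L, Set.image2 (w ab.1 ab.2) (S n) (S n) :=
    fun _ => rfl
  have hcount : ∀ n, (S n).Countable := by
    intro n
    induction n with
    | zero =>
      rw [hS0]
      exact ((Set.countable_range _).union (Set.countable_range _)).insert _
    | succ n ih =>
      rw [hS1]
      exact ih.union (Set.countable_iUnion fun ab => ih.image2 ih _)
  have hmono : Monotone S := by
    apply monotone_nat_of_le_succ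
    intro n
    rw [hS1]
    exact Set.subset_union_left
  have hC : (⋃ n, S n).Countable := Set.countable_iUnion hcount
  have hN : (⋃ n, S n).Nonempty := ⟨x0, Set.mem_iUnion.mpr ⟨0, by rw [hS0]; exact Or.inl rfl⟩⟩
  obtain ⟨ι, hι⟩ := hC.exists_eq_range hN
  have hmem : ∀ i, ι i ∈ ⋃ n, S n := fun i => by
    rw [hι]
    exact Set.mem_range_self i
  have hex : ∀ x ∈ ⋃ n, S n, ∃ i, ι i = x := fun x hx => by
    rw [hι] at hx
    exact hx
  have hcl : ∀ (a b : L) (i j : ℕ), ∃ k, ι k = w a b (ι i) (ι j) := by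
    intro a b i j
    apply hex
    obtain ⟨n, hn⟩ := Set.mem_iUnion.mp (hmem i)
    obtain ⟨m, hm⟩ := Set.mem_iUnion.mp (hmem j)
    refine Set.mem_iUnion.mpr ⟨max n m + 1, ?_⟩
    rw [hS1]
    right
    exact Set.mem_iUnion.mpr ⟨(a, b), Set.mem_image2_of_mem (hmono (le_max_left n m) hn)
      (hmono (le_max_right n m) hm)⟩
  have hle : ∀ {a b : L}, a ≤ b → ∀ {x y : X}, (f a).r x y → (f b).r x y := by
    intro a b hab x y h
    have h1 : f a ≤ f b := OrderHomClass.mono f hab
    exact h1 h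
  -- a composition of the restrictions is a composition of the relations
  have hcomp : ∀ (a b : L) (i j : ℕ), (f (a ⊔ b)).r (ι i) (ι j) →
      ∃ k, (f a).r (ι i) (ι k) ∧ (f b).r (ι k) (ι j) := by
    intro a b i j h
    obtain ⟨k, hk⟩ := hcl a b i j
    refine ⟨k, ?_⟩
    rw [hk]
    exact hw a b _ _ h
  have hcomm' : ∀ (a b : L) (i j : ℕ), (∃ k, (f a).r (ι i) (ι k) ∧ (f b).r (ι k) (ι j)) →
      ∃ k, (f b).r (ι i) (ι k) ∧ (f a).r (ι k) (ι j) := by
    rintro a b i j ⟨k, h1, h2⟩
    apply hcomp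
    exact (f (b ⊔ a)).iseqv.trans (hle le_sup_right h1) (hle le_sup_left h2)
  let g : LatticeHom L (Setoid ℕ) :=
    { toFun := fun a => Setoid.comap ι (f a)
      map_sup' := by
        intro a b
        apply le_antisymm
        · intro i j h
          obtain ⟨k, h1, h2⟩ := hcomp a b i j h
          have e1 : (Setoid.comap ι (f a) ⊔ Setoid.comap ι (f b)).r i k :=
            (le_sup_left : Setoid.comap ι (f a) ≤ _) h1
          have e2 : (Setoid.comap ι (f a) ⊔ Setoid.comap ι (f b)).r k j :=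
            (le_sup_right : Setoid.comap ι (f b) ≤ _) h2
          exact Setoid.trans' _ e1 e2
        · apply sup_le
          · intro i j h
            exact hle (le_sup_left : a ≤ a ⊔ b) h
          · intro i j h
            exact hle (le_sup_right : b ≤ a ⊔ b) h
      map_inf' := by
        intro a b
        apply le_antisymm
        · intro i j h
          exact ⟨hle (inf_le_left : a ⊓ b ≤ a) h, hle (inf_le_right : a ⊓ b ≤ b) h⟩
        · intro i j h
          have h3 : (f a ⊓ f b).r (ι i) (ι j) := ⟨h.1, h.2⟩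
          have h4 : (f (a ⊓ b)).r (ι i) (ι j) := by
            rw [map_inf]
            exact h3
          exact h4 }
  have hg : ∀ (a : L) (i j : ℕ), (g a).r i j ↔ (f a).r (ι i) (ι j) := fun _ _ _ => Iff.rfl
  refine ⟨g, ?_, ?_⟩
  · intro a b hab
    by_contra hne
    obtain ⟨i, hi⟩ := hex (p a b) (Set.mem_iUnion.mpr ⟨0, by
      rw [hS0]
      exact Or.inr (Or.inl ⟨(a, b), rfl⟩)⟩)
    obtain ⟨j, hj⟩ := hex (q a b) (Set.mem_iUnion.mpr ⟨0, by
      rw [hS0]
      exact Or.inr (Or.inr ⟨(a, b), rfl⟩)⟩)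
    apply hpq a b hne
    rw [← hi, ← hj, ← hg, ← hg, hab]
  · intro a b i j
    exact ⟨fun h => hcomm' a b i j h, fun h => hcomm' b a i j h⟩

/-- The underlying set of the group. -/
def gpEquiv : Gp β4 ≃ V4 × Z4 where
  toFun g := (g.v, g.z)
  invFun x := ⟨x.1, x.2⟩
  left_inv _ := rfl
  right_inv _ := rfl

theorem card_G : Nat.card (Gp β4) = 2 ^ 22 := by
  rw [Nat.card_congr gpEquiv]
  simp [Nat.card_eq_fintype_card, Fintype.card_prod, ZMod.card]

theorem finite_G : Finite (Gp β4) := Nat.finite_of_card_ne_zero (by rw [card_G]; norm_num)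

theorem big_Z4 : ∀ s : Finset Z4, s.card ≤ 6 → ∃ c, c ∉ s := by
  intro s hs
  by_contra hcon
  push Not at hcon
  have h1 : (Finset.univ : Finset Z4) ⊆ s := fun c _ => hcon c
  have h2 := Finset.card_le_card h1
  have h3 : (Finset.univ : Finset Z4).card = 262144 := by
    rw [Finset.card_univ]
    simp [Fintype.card_prod, ZMod.card]
  omega

/-- The first extra coordinate. -/
def pi1 : Z4 →ₗ[ZMod 2] ZMod 2 := (LinearMap.fst (ZMod 2) (ZMod 2) (ZMod 2)).comp
  (LinearMap.snd (ZMod 2) (Fin 4 → Fin 4 → ZMod 2) (ZMod 2 × ZMod 2))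

/-- The second extra coordinate. -/
def pi2 : Z4 →ₗ[ZMod 2] ZMod 2 := (LinearMap.snd (ZMod 2) (ZMod 2) (ZMod 2)).comp
  (LinearMap.snd (ZMod 2) (Fin 4 → Fin 4 → ZMod 2) (ZMod 2 × ZMod 2))

theorem g0_ne : (⟨0, ((fun _ _ => 0), (1, 0))⟩ : Gp β4) ≠ 1 := by
  intro h
  have h1 : ((⟨0, ((fun _ _ => 0), (1, 0))⟩ : Gp β4)).z.2.1 = (1 : Gp β4).z.2.1 := by rw [h]
  have h2 : (1 : ZMod 2) = 0 := h1
  revert h2
  decide

/-- The dual of the lattice of normal subgroups has no representation by commuting equivalence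
relations, on any set. -/
theorem no_rep (X : Type v) (f : LatticeHom (NL (Gp β4))ᵒᵈ (Setoid X))
    (hinj : Function.Injective f)
    (hcomm : ∀ (a b : (NL (Gp β4))ᵒᵈ) (x y : X),
      (∃ z, (f a).r x z ∧ (f b).r z y) ↔ (∃ z, (f b).r x z ∧ (f a).r z y)) : False := by
  have := finite_G
  have hfin : Finite (Subgroup (Gp β4)) := by
    apply Finite.of_injective (fun H : Subgroup (Gp β4) => (H : Set (Gp β4)))
    exact SetLike.coe_injective
  have hc : Countable (NL (Gp β4))ᵒᵈ := by
    have : Finite (NL (Gp β4)) := Subtype.finite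
    exact Finite.to_countable (α := NL (Gp β4))
  have hnt : Nontrivial (NL (Gp β4))ᵒᵈ := by
    refine ⟨OrderDual.toDual (⟨⊥, inferInstance⟩ : NL (Gp β4)),
      OrderDual.toDual (⟨⊤, inferInstance⟩ : NL (Gp β4)), ?_⟩
    intro h
    have h1 : (⟨⊥, inferInstance⟩ : NL (Gp β4)) = ⟨⊤, inferInstance⟩ := h
    have h2 : (⊥ : Subgroup (Gp β4)) = ⊤ := congrArg Subtype.val h1
    apply g0_ne
    have h3 : (⟨0, ((fun _ _ => 0), (1, 0))⟩ : Gp β4) ∈ (⊥ : Subgroup (Gp β4)) := by
      rw [h2]
      exact Subgroup.mem_top _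
    exact Subgroup.mem_bot.mp h3
  obtain ⟨g, ginj, gcomm⟩ := rep_nat X f hinj hcomm
  obtain ⟨Y, S, x0, y0, hg⟩ := exists_AgS ℕ g ginj gcomm
    (⟨0, ((fun _ _ => 0), (1, 0))⟩ : Gp β4) g0_ne
  obtain ⟨E, inst, ε, Q, hε, hE, hQ⟩ := main_system S ((fun _ _ => 0), (1, 0))
    ((fun _ _ => 0), (0, 1)) pi1 pi2 (fun _ _ => rfl) (fun _ _ => rfl) rfl rfl rfl rfl big_Z4
    _ x0 y0 hg
  exact no_system E ε Q hε hE hQ

end Pool.Agent.Helper4.Lin
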