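import Mathlib

set_option autoImplicit false

namespace Pool.Agent.Helper4.Lin

/-- An agreement structure for an abelian group. -/
structure AgZ (Z : Type) [AddCommGroup Z] (X : Type) where
  ag : X → X → AddSubgroup Z
  refl : ∀ x, ag x x = ⊤
  symm : ∀ x y, ag x y = ag y x
  trans : ∀ x y z, ag x y ⊓ ag y z ≤ ag x z
  split : ∀ (N M : AddSubgroup Z), ∀ x y, N ⊓ M ≤ ag x y →
    ∃ t, N ≤ ag x t ∧ M ≤ ag t y

section coord

variable {Z : Type} [AddCommGroup Z] {X : Type}

theorem neg_self_of_two (h2 : ∀ a : Z, a + a = 0) (a : Z) : -a = a :=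
  neg_eq_of_add_eq_zero_left (h2 a)

/-- The subgroup generated by two elements. -/
def two (h2 : ∀ a : Z, a + a = 0) (a b : Z) : AddSubgroup Z where
  carrier := {x | x = 0 ∨ x = a ∨ x = b ∨ x = a + b}
  zero_mem' := Or.inl rfl
  add_mem' := by
    have e' : ∀ x y : Z, x + (y + x) = y := fun x y => by
      rw [add_comm y x, ← add_assoc, h2, zero_add]
    rintro x y (rfl | rfl | rfl | rfl) (rfl | rfl | rfl | rfl) <;>
      simp [h2, e', add_comm]
  neg_mem' := by
    intro x hx
    rw [neg_self_of_two h2 x]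
    exact hx

theorem mem_two (h2 : ∀ a : Z, a + a = 0) (a b x : Z) :
    x ∈ two h2 a b ↔ (x = 0 ∨ x = a ∨ x = b ∨ x = a + b) := Iff.rfl

namespace AgZ

variable (S : AgZ Z X)

theorem rfl' (x : X) (a : Z) : a ∈ S.ag x x := by rw [S.refl]; trivial

theorem symm' {x y : X} {a : Z} (h : a ∈ S.ag x y) : a ∈ S.ag y x := by
  rw [S.symm]; exact h

theorem trans' {x y z : X} {a : Z} (h : a ∈ S.ag x y) (h' : a ∈ S.ag y z) : a ∈ S.ag x z :=
  S.trans x y z ⟨h, h'⟩

theorem interp (h2 : ∀ a : Z, a + a = 0) (a b c : Z) (x y : X)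
    (h : (c = 0 ∨ c = a ∨ c = b ∨ c = a + b) → c ∈ S.ag x y) :
    ∃ p, a ∈ S.ag x p ∧ b ∈ S.ag x p ∧ c ∈ S.ag p y := by
  obtain ⟨p, hp1, hp2⟩ := S.split (two h2 a b) (two h2 c 0) x y (by
    rintro g ⟨hg1, hg2⟩
    have hg1' := (mem_two h2 a b g).1 hg1
    have hg2' := (mem_two h2 c 0 g).1 hg2
    have hg3 : g = 0 ∨ g = c := by
      rcases hg2' with h | h | h | h
      · exact Or.inl h
      · exact Or.inr h
      · exact Or.inl h
      · right; rw [h, add_zero]
    rcases hg3 with rfl | rfl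
    · exact AddSubgroup.zero_mem _
    · exact h hg1')
  refine ⟨p, hp1 ?_, hp1 ?_, hp2 ?_⟩
  · exact Or.inr (Or.inl rfl)
  · exact Or.inr (Or.inr (Or.inl rfl))
  · exact Or.inr (Or.inl rfl)

/-- Coordinatization: the values of points at elements lie in an elementary abelian 2-group. -/
theorem coordinatize (h2 : ∀ a : Z, a + a = 0)
    (hbig : ∀ s : Finset Z, s.card ≤ 6 → ∃ c, c ∉ s) (x0 : X) :
    ∃ (E : Type) (_ : AddCommGroup E) (φ : X → Z → E),
      (∀ e : E, e + e = 0) ∧
      (∀ x a b, φ x (a + b) = φ x a + φ x b) ∧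
      (∀ x y a, a ∈ S.ag x y ↔ φ x a = φ y a) ∧
      (∀ a, φ x0 a = 0) ∧
      (∀ a, a ≠ 0 → ∀ e, ∃ x, φ x a = e) := by
  classical
  have e1 : ∀ x y : Z, x + (x + y) = y := fun x y => by rw [← add_assoc, h2, zero_add]
  have e2 : ∀ x y : Z, x + y + y = x := fun x y => by rw [add_assoc, h2, add_zero]
  have e3 : ∀ x y : Z, x + y = 0 → x = y := fun x y h => by
    have := e2 x y
    rw [h, zero_add] at this
    exact this.symm
  have e4 : ∀ x y : Z, x + y = x → y = 0 := fun x y h => by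
    have := e1 x y
    rw [h, h2] at this
    exact this.symm
  have e5 : ∀ x y : Z, x + y = y → x = 0 := fun x y h => by
    rw [add_comm] at h; exact e4 y x h
  obtain ⟨z1, hz1⟩ := hbig {0} (by simp)
  have hz1 : z1 ≠ 0 := by simpa using hz1
  obtain ⟨z2, hz2⟩ := hbig {0, z1} (Finset.card_le_two.trans (by norm_num))
  have hz2 : z2 ≠ 0 ∧ z2 ≠ z1 := by simpa using hz2
  obtain ⟨z3, hz3⟩ := hbig {0, z1, z2, z1 + z2} (Finset.card_le_four.trans (by norm_num))
  have hz3 : z3 ≠ 0 ∧ z3 ≠ z1 ∧ z3 ≠ z2 ∧ z3 ≠ z1 + z2 := by simpa using hz3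
  have hw : ∀ (a : Z) (x : X), ∃ p, a ∈ S.ag x p ∧ a + z1 ∈ S.ag p x0 := by
    intro a x
    obtain ⟨p, h1, _, h3⟩ := S.interp h2 a 0 (a + z1) x x0 (by
      rintro (h | h | h | h)
      · rw [h]; exact AddSubgroup.zero_mem _
      · exact absurd (e4 _ _ h) hz1
      · rw [h]; exact AddSubgroup.zero_mem _
      · rw [add_zero] at h; exact absurd (e4 _ _ h) hz1)
    exact ⟨p, h1, h3⟩
  choose w hw1 hw2 using hw
  let st : Setoid X :=
    { r := fun x y => z1 ∈ S.ag x y
      iseqv := ⟨fun x => S.rfl' x z1, fun h => S.symm' h, fun h h' => S.trans' h h'⟩ }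
  let E : Type := Quotient st
  let c : Z → X → E := fun a x => Quotient.mk st (w a x)
  have hE : ∀ p q : X, (Quotient.mk st p : E) = Quotient.mk st q ↔ z1 ∈ S.ag p q := by
    intro p q
    exact Quotient.eq
  -- F0
  have F0 : ∀ a x p, a ∈ S.ag x p → a + z1 ∈ S.ag p x0 → c a x = Quotient.mk st p := by
    intro a x p h1 h2'
    rw [hE]
    have h3 : a ∈ S.ag (w a x) p := S.trans' (S.symm' (hw1 a x)) h1
    have h4 : a + z1 ∈ S.ag (w a x) p := S.trans' (hw2 a x) (S.symm' h2')
    have h5 := AddSubgroup.add_mem _ h3 h4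
    rwa [e1] at h5
  have F1 : ∀ a x y, c a x = c a y ↔ a ∈ S.ag x y := by
    intro a x y
    constructor
    · intro h
      rw [hE] at h
      have h4 : a + z1 ∈ S.ag (w a x) (w a y) := S.trans' (hw2 a x) (S.symm' (hw2 a y))
      have h5 := AddSubgroup.add_mem _ h4 h
      rw [e2] at h5
      exact S.trans' (hw1 a x) (S.trans' h5 (S.symm' (hw1 a y)))
    · intro h
      exact F0 a x (w a y) (S.trans' h (hw1 a y)) (hw2 a y)
  -- F2, first direction, main case
  have F2a : ∀ a b x, a + b ≠ z1 → a + b ∈ S.ag x x0 → c a x = c b x := by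
    intro a b x hab h
    obtain ⟨p, h1, h2', h3⟩ := S.interp h2 a b (a + z1) x x0 (by
      rintro (h' | h' | h' | h')
      · rw [h']; exact AddSubgroup.zero_mem _
      · exact absurd (e4 _ _ h') hz1
      · exfalso; apply hab
        rw [← h', e1]
      · rw [h']; exact h)
    rw [F0 a x p h1 h3]
    symm
    apply F0 b x p h2'
    have h4 : a + b ∈ S.ag p x0 := by
      have : a + b ∈ S.ag x p := AddSubgroup.add_mem _ h1 h2'
      exact S.trans' (S.symm' this) h
    have h5 := AddSubgroup.add_mem _ h4 h3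
    have : a + b + (a + z1) = b + z1 := by
      rw [add_comm a b, add_assoc, e1]
    rwa [this] at h5
  have F2b : ∀ a b x, a + b ∈ S.ag x x0 → c a x = c b x := by
    intro a b x h
    by_cases hab : a + b = z1
    · -- use a third element
      obtain ⟨d, hd⟩ := hbig {0, a, z1, a + z1} (Finset.card_le_four.trans (by norm_num))
      have hd : d ≠ 0 ∧ d ≠ a ∧ d ≠ z1 ∧ d ≠ a + z1 := by simpa using hd
      have hb : b = a + z1 := by rw [← hab, e1]
      obtain ⟨p, h1, h2', h3⟩ := S.interp h2 a z1 (a + d) x x0 (by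
        rintro (h' | h' | h' | h')
        · exact absurd (e3 _ _ h').symm hd.2.1
        · exact absurd (e4 _ _ h') hd.1
        · exfalso; apply hd.2.2.2
          rw [← h', e1]
        · exfalso; apply hd.2.2.1
          exact add_left_cancel h')
      have hz : z1 ∈ S.ag p x0 := S.trans' (S.symm' h2') (hab ▸ h)
      have hbp : b ∈ S.ag x p := by
        rw [hb]; exact AddSubgroup.add_mem _ h1 h2'
      have k1 : c a p = c d p := by
        apply F2a a d p _ h3
        intro h'
        apply hd.2.2.2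
        rw [← h', e1]
      have k2 : c b p = c d p := by
        apply F2a b d p
        · intro h'
          apply hd.2.1
          have : d = b + z1 := by rw [← h', e1]
          rw [this, hb, e2]
        · have : b + d = (a + d) + z1 := by rw [hb]; abel
          rw [this]
          exact AddSubgroup.add_mem _ h3 hz
      rw [(F1 a x p).2 h1, (F1 b x p).2 hbp, k1, k2]
    · exact F2a a b x hab h
  have F2 : ∀ a b x, a + b ∈ S.ag x x0 ↔ c a x = c b x := by
    intro a b x
    constructor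
    · exact F2b a b x
    · intro h
      by_cases hb : b = 0
      · have h0 : c b x = c b x0 := by
          rw [F1, hb]; exact AddSubgroup.zero_mem _
        have h1 : c a x0 = c b x0 := F2b a b x0 (S.rfl' _ _)
        rw [hb, add_zero, ← F1, h, h0, h1]
      · obtain ⟨y, h1, _, h3⟩ := S.interp h2 a 0 (a + b) x x0 (by
          rintro (h' | h' | h' | h')
          · rw [h']; exact AddSubgroup.zero_mem _
          · exact absurd (e4 _ _ h') hb
          · rw [h']; exact AddSubgroup.zero_mem _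
          · rw [add_zero] at h'; exact absurd (e4 _ _ h') hb)
        have k1 : c b y = c b x := by
          rw [← F2b a b y h3, ← h]
          exact ((F1 a x y).2 h1).symm
        have k2 : b ∈ S.ag x y := S.symm' ((F1 b y x).1 k1)
        exact S.trans' (AddSubgroup.add_mem _ h1 k2) h3
  -- surjectivity
  have Sj : ∀ a, a ≠ 0 → ∀ e : E, ∃ x, c a x = e := by
    intro a ha e
    obtain ⟨y, rfl⟩ := Quotient.exists_rep e
    obtain ⟨x, h1, _, h3⟩ := S.interp h2 z1 0 (a + z1) y x0 (by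
      rintro (h' | h' | h' | h')
      · rw [h']; exact AddSubgroup.zero_mem _
      · exact absurd (e5 _ _ h') ha
      · rw [h']; exact AddSubgroup.zero_mem _
      · rw [add_zero] at h'; exact absurd (e5 _ _ h') ha)
    refine ⟨x, ?_⟩
    rw [F0 a x x (S.rfl' _ _) h3, hE]
    exact S.symm' h1
  have P2 : ∀ a b, a ≠ 0 → b ≠ 0 → b ≠ a → ∀ e f : E, ∃ x, c a x = e ∧ c b x = f := by
    intro a b ha hb hab e f
    obtain ⟨p, hp⟩ := Sj a ha e
    obtain ⟨q, hq⟩ := Sj b hb f
    obtain ⟨x, h1, _, h3⟩ := S.interp h2 a 0 b p q (by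
      rintro (h' | h' | h' | h')
      · exact absurd h' hb
      · exact absurd h' hab
      · exact absurd h' hb
      · rw [add_zero] at h'; exact absurd h' hab)
    refine ⟨x, ?_, ?_⟩
    · rw [← hp]; exact ((F1 a p x).2 h1).symm
    · rw [← hq]; exact (F1 b x q).2 h3
  have P3 : ∀ a b d, a ≠ 0 → b ≠ 0 → b ≠ a → d ≠ 0 → d ≠ a → d ≠ b → d ≠ a + b →
      ∀ e f g : E, ∃ x, c a x = e ∧ c b x = f ∧ c d x = g := by
    intro a b d ha hb hab hd1 hd2 hd3 hd4 e f g
    obtain ⟨p, hp1, hp2⟩ := P2 a b ha hb hab e f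
    obtain ⟨q, hq⟩ := Sj d hd1 g
    obtain ⟨x, h1, h2', h3⟩ := S.interp h2 a b d p q (by
      rintro (h' | h' | h' | h')
      · exact absurd h' hd1
      · exact absurd h' hd2
      · exact absurd h' hd3
      · exact absurd h' hd4)
    refine ⟨x, ?_, ?_, ?_⟩
    · rw [← hp1]; exact ((F1 a p x).2 h1).symm
    · rw [← hp2]; exact ((F1 b p x).2 h2').symm
    · rw [← hq]; exact (F1 d x q).2 h3
  -- the addition
  have hpt : ∀ e f : E, ∃ x, c z1 x = e ∧ c z2 x = f := P2 z1 z2 hz1 hz2.1 hz2.2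
  choose pt hpt1 hpt2 using hpt
  let ad : E → E → E := fun e f => c (z1 + z2) (pt e f)
  have T0 : ∀ x, c (z1 + z2) x = ad (c z1 x) (c z2 x) := by
    intro x
    rw [F1]
    apply AddSubgroup.add_mem
    · rw [← F1]; exact (hpt1 _ _).symm
    · rw [← F1]; exact (hpt2 _ _).symm
  have st2 : ∀ a b b', (∀ x, c (a + b) x = ad (c a x) (c b x)) → b ≠ 0 → b ≠ a → b' ≠ a + b →
      (∀ x, c (a + b') x = ad (c a x) (c b' x)) := by
    intro a b b' hT h1 h2' h3 x
    obtain ⟨y, k1, k2, k3⟩ := S.interp h2 a b' (b + b') x x0 (by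
      rintro (h' | h' | h' | h')
      · rw [h']; exact AddSubgroup.zero_mem _
      · exfalso; apply h3
        rw [← h', add_assoc, add_comm b', ← add_assoc, h2, zero_add]
      · exact absurd (e5 _ _ h') h1
      · exact absurd (add_right_cancel h') h2')
    have m1 : c b y = c b' y := (F2 b b' y).1 k3
    have m2 : c (a + b) y = c (a + b') y := by
      apply (F2 (a + b) (a + b') y).1
      have : a + b + (a + b') = b + b' := by
        rw [add_comm a b, add_assoc, e1]
      rwa [this]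
    have m3 : c a x = c a y := (F1 a x y).2 k1
    have m4 : c b' x = c b' y := (F1 b' x y).2 k2
    have m5 : c (a + b') x = c (a + b') y := (F1 _ x y).2 (AddSubgroup.add_mem _ k1 k2)
    rw [m5, ← m2, hT y, m3, m4, m1]
  have st1 : ∀ a b a', (∀ x, c (a + b) x = ad (c a x) (c b x)) → a ≠ 0 → a ≠ b → a' ≠ a + b →
      (∀ x, c (a' + b) x = ad (c a' x) (c b x)) := by
    intro a b a' hT h1 h2' h3 x
    obtain ⟨y, k1, k2, k3⟩ := S.interp h2 a' b (a + a') x x0 (by
      rintro (h' | h' | h' | h')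
      · rw [h']; exact AddSubgroup.zero_mem _
      · exact absurd (e5 _ _ h') h1
      · exfalso; apply h3
        rw [← h', e1]
      · exfalso; apply h2'
        rw [add_comm a' b] at h'
        exact add_right_cancel h')
    have m1 : c a y = c a' y := (F2 a a' y).1 k3
    have m2 : c (a + b) y = c (a' + b) y := by
      apply (F2 (a + b) (a' + b) y).1
      have : a + b + (a' + b) = a + a' := by
        rw [add_comm a' b, add_assoc, e1]
      rwa [this]
    have m3 : c a' x = c a' y := (F1 a' x y).2 k1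
    have m4 : c b x = c b y := (F1 b x y).2 k2
    have m5 : c (a' + b) x = c (a' + b) y := (F1 _ x y).2 (AddSubgroup.add_mem _ k1 k2)
    rw [m5, ← m2, hT y, m3, m4, m1]
  have T : ∀ a b x, c (a + b) x = ad (c a x) (c b x) := by
    intro a b
    obtain ⟨b1, hb1⟩ := hbig {z1 + z2, z1, z1 + a, 0, a, a + b} (Finset.card_le_six)
    have hb1 : b1 ≠ z1 + z2 ∧ b1 ≠ z1 ∧ b1 ≠ z1 + a ∧ b1 ≠ 0 ∧ b1 ≠ a ∧ b1 ≠ a + b := by
      simpa using hb1
    obtain ⟨g1, g2, g3, g4, g5, g6⟩ := hb1
    have t1 := st2 z1 z2 b1 T0 hz2.1 hz2.2 g1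
    have t2 := st1 z1 b1 a t1 hz1 (fun h => g2 h.symm) (by
      intro h
      apply g3
      rw [h, e1])
    exact st2 a b1 b t2 g4 g5 (by
      intro h
      apply g6
      rw [h, e1])
  let zr : E := c 0 x0
  have c0 : ∀ x, c 0 x = zr := fun x => (F1 0 x x0).2 (AddSubgroup.zero_mem _)
  have ad_comm : ∀ e f, ad e f = ad f e := by
    intro e f
    obtain ⟨x, rfl, rfl⟩ := P2 z1 z2 hz1 hz2.1 hz2.2 e f
    rw [← T, ← T, add_comm]
  have ad_assoc : ∀ e f g, ad (ad e f) g = ad e (ad f g) := by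
    intro e f g
    obtain ⟨x, rfl, rfl, rfl⟩ := P3 z1 z2 z3 hz1 hz2.1 hz2.2 hz3.1 hz3.2.1 hz3.2.2.1 hz3.2.2.2 e f g
    rw [← T, ← T, ← T, ← T, add_assoc]
  have zr_ad : ∀ e, ad zr e = e := by
    intro e
    obtain ⟨x, rfl⟩ := Sj z1 hz1 e
    rw [← c0 x, ← T, zero_add]
  have ad_self : ∀ e, ad e e = zr := by
    intro e
    obtain ⟨x, rfl⟩ := Sj z1 hz1 e
    rw [← T, h2, c0]
  let inst : AddCommGroup E :=
    { add := ad
      add_assoc := ad_assoc
      zero := zr
      zero_add := zr_ad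
      add_zero := fun e => by
        change ad e zr = e
        rw [ad_comm]; exact zr_ad e
      nsmul := @nsmulRec E ⟨zr⟩ ⟨ad⟩
      neg := id
      zsmul := @zsmulRec E ⟨zr⟩ ⟨ad⟩ ⟨id⟩ (@nsmulRec E ⟨zr⟩ ⟨ad⟩)
      neg_add_cancel := ad_self
      add_comm := ad_comm }
  refine ⟨E, inst, fun x a => c a x, ad_self, fun x a b => T a b x, fun x y a => (F1 a x y).symm,
    ?_, Sj⟩
  intro a
  have h1 : c a x0 = c 0 x0 := (F2 a 0 x0).1 (S.rfl' _ _)
  exact h1

end AgZ

end coord

end Pool.Agent.Helper4.Lin
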