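import Mathlib

set_option autoImplicit false

namespace Pool.Agent.Helper4.Lin

/-- If two equivalence relations commute, their join is their composition. -/
theorem sup_of_comm {X : Type} (r s : Setoid X)
    (h : ∀ x y : X, (∃ z, r.r x z ∧ s.r z y) ↔ (∃ z, s.r x z ∧ r.r z y)) (x y : X)
    (hxy : (r ⊔ s).r x y) : ∃ z, r.r x z ∧ s.r z y := by
  let t : Setoid X :=
    { r := fun x y => ∃ z, r.r x z ∧ s.r z y
      iseqv :=
        { refl := fun x => ⟨x, r.iseqv.refl x, s.iseqv.refl x⟩
          symm := by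
            rintro a b hab
            obtain ⟨z, h1, h2⟩ := (h a b).1 hab
            exact ⟨z, r.iseqv.symm h2, s.iseqv.symm h1⟩
          trans := by
            rintro a b c ⟨z, h1, h2⟩ ⟨w, h3, h4⟩
            obtain ⟨q, h5, h6⟩ := (h z w).2 ⟨b, h2, h3⟩
            exact ⟨q, r.iseqv.trans h1 h5, s.iseqv.trans h6 h4⟩ } }
  have hr : r ≤ t := fun a b hab => ⟨b, hab, s.iseqv.refl b⟩
  have hs : s ≤ t := fun a b hab => ⟨a, r.iseqv.refl a, hab⟩
  have hle : r ⊔ s ≤ t := sup_le hr hs
  exact hle hxy

/-- The lattice of normal subgroups. -/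
abbrev NL (G : Type) [Group G] : Type := {N : Subgroup G // N.Normal}

instance instLatticeNL (G : Type) [Group G] : Lattice (NL G) :=
  Subtype.lattice
    (fun _ _ hx hy => by
      have := hx
      have := hy
      infer_instance)
    (fun _ _ hx hy => by
      have := hx
      have := hy
      infer_instance)

/-- An agreement structure. -/
structure AgS (G : Type) [Group G] (X : Type) where
  ag : X → X → Subgroup G
  normal : ∀ x y, (ag x y).Normal
  refl : ∀ x, ag x x = ⊤
  symm : ∀ x y, ag x y = ag y x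
  trans : ∀ x y z, ag x y ⊓ ag y z ≤ ag x z
  split : ∀ (N M : Subgroup G), N.Normal → M.Normal → ∀ x y, N ⊓ M ≤ ag x y →
    ∃ t, N ≤ ag x t ∧ M ≤ ag t y

section rep

variable {G : Type} [Group G] 

/-- The join of two normal subgroups, relationwise. -/
theorem leftRel_comp (N M : Subgroup G) (hN : N.Normal) (hM : M.Normal) (x y : G) :
    (∃ z, (QuotientGroup.leftRel N).r x z ∧ (QuotientGroup.leftRel M).r z y) ↔
      x⁻¹ * y ∈ N ⊔ M := by
  constructor
  · rintro ⟨z, h1, h2⟩
    have h1' : x⁻¹ * z ∈ N := QuotientGroup.leftRel_apply.1 h1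
    have h2' : z⁻¹ * y ∈ M := QuotientGroup.leftRel_apply.1 h2
    have : x⁻¹ * y = (x⁻¹ * z) * (z⁻¹ * y) := by group
    rw [this]
    exact Subgroup.mul_mem_sup h1' h2'
  · intro h
    have := hN
    have := hM
    rw [← SetLike.mem_coe, Subgroup.mul_normal] at h
    obtain ⟨n, hn, m, hm, hnm⟩ := h
    refine ⟨x * n, ?_, ?_⟩
    · apply QuotientGroup.leftRel_apply.2
      simpa using hn
    · apply QuotientGroup.leftRel_apply.2
      have : (x * n)⁻¹ * y = m := by
        have : y = x * (n * m) := by
          rw [show n * m = x⁻¹ * y from hnm]; group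
        rw [this]; group
      rw [this]
      exact hm

/-- The lattice of normal subgroups is linear. -/
theorem linear_NL : ∃ (X : Type) (f : LatticeHom (NL G) (Setoid X)), Function.Injective f ∧
        ∀ (a b : NL G) (x y : X),
          (∃ z, (f a).r x z ∧ (f b).r z y) ↔ (∃ z, (f b).r x z ∧ (f a).r z y) := by
  let f : LatticeHom (NL G) (Setoid G) :=
    { toFun := fun N => QuotientGroup.leftRel N.1
      map_sup' := by
        intro a b
        apply le_antisymm
        · intro x y h
          have h' : x⁻¹ * y ∈ a.1 ⊔ b.1 := QuotientGroup.leftRel_apply.1 h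
          obtain ⟨z, h1, h2⟩ := (leftRel_comp a.1 b.1 a.2 b.2 x y).2 h'
          have e1 : (QuotientGroup.leftRel a.1 ⊔ QuotientGroup.leftRel b.1).r x z :=
            (le_sup_left : QuotientGroup.leftRel a.1 ≤ _) h1
          have e2 : (QuotientGroup.leftRel a.1 ⊔ QuotientGroup.leftRel b.1).r z y :=
            (le_sup_right : QuotientGroup.leftRel b.1 ≤ _) h2
          exact Setoid.trans' _ e1 e2
        · apply sup_le
          · intro x y h
            apply QuotientGroup.leftRel_apply.2
            have : x⁻¹ * y ∈ a.1 := QuotientGroup.leftRel_apply.1 h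
            exact Subgroup.mem_sup_left this
          · intro x y h
            apply QuotientGroup.leftRel_apply.2
            have : x⁻¹ * y ∈ b.1 := QuotientGroup.leftRel_apply.1 h
            exact Subgroup.mem_sup_right this
      map_inf' := by
        intro a b
        apply le_antisymm
        · intro x y h
          have h' : x⁻¹ * y ∈ a.1 ⊓ b.1 := QuotientGroup.leftRel_apply.1 h
          exact ⟨QuotientGroup.leftRel_apply.2 h'.1, QuotientGroup.leftRel_apply.2 h'.2⟩
        · intro x y h
          apply QuotientGroup.leftRel_apply.2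
          exact ⟨QuotientGroup.leftRel_apply.1 h.1, QuotientGroup.leftRel_apply.1 h.2⟩ }
  have hf : ∀ N : NL G, f N = QuotientGroup.leftRel N.1 := fun N => rfl
  refine ⟨G, f, ?_, ?_⟩
  · intro a b hab
    rw [hf, hf] at hab
    apply Subtype.ext
    ext g
    have h1 : (QuotientGroup.leftRel a.1).r 1 g ↔ g ∈ a.1 := by
      have := @QuotientGroup.leftRel_apply G _ a.1 1 g
      simpa using this
    have h2 : (QuotientGroup.leftRel b.1).r 1 g ↔ g ∈ b.1 := by
      have := @QuotientGroup.leftRel_apply G _ b.1 1 g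
      simpa using this
    rw [← h1, ← h2, hab]
  · intro a b x y
    rw [hf, hf, leftRel_comp a.1 b.1 a.2 b.2, leftRel_comp b.1 a.1 b.2 a.2, sup_comm]

/-- The normal subgroup generated by an element, as a point of the lattice. -/
def nc (g : G) : NL G := ⟨Subgroup.normalClosure {g}, Subgroup.normalClosure_normal⟩

theorem mem_nc (g : G) : g ∈ (nc g).1 := Subgroup.subset_normalClosure rfl

theorem nc_le {g : G} {N : NL G} (h : g ∈ N.1) : nc g ≤ N := by
  have := N.2
  have h1 : Subgroup.normalClosure {g} ≤ N.1 := by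
    apply Subgroup.normalClosure_le_normal
    simpa using h
  exact h1

/-- From an injective representation of the dual of the lattice of normal subgroups of a
finite group by commuting equivalence relations to an agreement structure. -/
theorem exists_AgS [Finite G] (X : Type) (f : LatticeHom (NL G)ᵒᵈ (Setoid X))
    (hinj : Function.Injective f)
    (hcomm : ∀ (a b : (NL G)ᵒᵈ) (x y : X),
          (∃ z, (f a).r x z ∧ (f b).r z y) ↔ (∃ z, (f b).r x z ∧ (f a).r z y))
    (g₀ : G) (hg₀ : g₀ ≠ 1) :
    ∃ (Y : Type) (S : AgS G Y) (x y : Y), g₀ ∉ S.ag x y := by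
  let R : NL G → Setoid X := fun N => f (OrderDual.toDual N)
  have R_sup : ∀ N M : NL G, R (N ⊔ M) = R N ⊓ R M := fun N M =>
    map_inf f (OrderDual.toDual N) (OrderDual.toDual M)
  have R_inf : ∀ N M : NL G, R (N ⊓ M) = R N ⊔ R M := fun N M =>
    map_sup f (OrderDual.toDual N) (OrderDual.toDual M)
  have R_mono : ∀ N M : NL G, N ≤ M → ∀ x y, (R M).r x y → (R N).r x y := by
    intro N M hNM x y h
    have e : N ⊔ M = M := sup_eq_right.2 hNM
    have h1 : (R (N ⊔ M)).r x y := by rw [e]; exact h
    rw [R_sup] at h1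
    exact h1.1
  have R_and : ∀ (N M P : NL G), P ≤ N ⊔ M → ∀ x y, (R N).r x y → (R M).r x y → (R P).r x y := by
    intro N M P hP x y h1 h2
    apply R_mono P (N ⊔ M) hP
    rw [R_sup]
    exact ⟨h1, h2⟩
  have R_split : ∀ (N M K : NL G), N ⊓ M ≤ K → ∀ x y, (R K).r x y →
      ∃ t, (R N).r x t ∧ (R M).r t y := by
    intro N M K hK x y h
    have h1 : (R (N ⊓ M)).r x y := R_mono _ _ hK x y h
    rw [R_inf] at h1
    exact sup_of_comm (R N) (R M) (hcomm _ _) x y h1
  let bt : NL G := ⟨⊥, inferInstance⟩
  have bt_le : ∀ N : NL G, bt ≤ N := fun N => (bot_le : (⊥ : Subgroup G) ≤ N.1)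
  -- nondegenerate pair
  have hne : ∃ x y, (R bt).r x y ∧ ¬ (R (nc g₀)).r x y := by
    by_contra hcon
    push Not at hcon
    have h1 : R bt = R (nc g₀) := by
      apply le_antisymm
      · intro x y h
        exact hcon x y h
      · intro x y h
        exact R_mono _ _ (bt_le _) x y h
    have h2 : OrderDual.toDual bt = OrderDual.toDual (nc g₀) := hinj h1
    have h3 : bt = nc g₀ := OrderDual.toDual.injective h2
    have h4 : g₀ ∈ bt.1 := by rw [h3]; exact mem_nc g₀
    exact hg₀ (Subgroup.mem_bot.1 h4)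
  obtain ⟨x0, y0, h0, h0'⟩ := hne
  let Y : Type := {x : X // (R bt).r x0 x}
  have hY : ∀ x y : Y, (R bt).r x.1 y.1 := fun x y =>
    (R bt).iseqv.trans ((R bt).iseqv.symm x.2) y.2
  let ag : Y → Y → Subgroup G := fun x y =>
    { carrier := {g | (R (nc g)).r x.1 y.1}
      mul_mem' := by
        intro a b ha hb
        apply R_and (nc a) (nc b) (nc (a * b)) _ _ _ ha hb
        apply nc_le
        exact Subgroup.mul_mem_sup (mem_nc a) (mem_nc b)
      one_mem' := by
        apply R_mono (nc 1) bt _ _ _ (hY x y)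
        apply nc_le
        exact Subgroup.one_mem _
      inv_mem' := by
        intro a ha
        apply R_mono _ (nc a) _ _ _ ha
        apply nc_le
        exact Subgroup.inv_mem _ (mem_nc a) }
  have mem_ag : ∀ (x y : Y) (g : G), g ∈ ag x y ↔ (R (nc g)).r x.1 y.1 := fun x y g => Iff.rfl
  have fin_ag : ∀ (x y : Y) (s : Finset G), (∀ g ∈ s, g ∈ ag x y) →
      ∃ M : NL G, (R M).r x.1 y.1 ∧ ∀ g ∈ s, g ∈ M.1 := by
    intro x y s
    classical
    induction s using Finset.induction with
    | empty => intro _; exact ⟨bt, hY x y, by simp⟩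
    | insert a s ha ih =>
      intro h
      obtain ⟨M, hM, hM'⟩ := ih (fun g hg => h g (Finset.mem_insert_of_mem hg))
      refine ⟨nc a ⊔ M, ?_, ?_⟩
      · rw [R_sup]
        exact ⟨(mem_ag x y a).1 (h a (Finset.mem_insert_self a s)), hM⟩
      · intro g hg
        rcases Finset.mem_insert.1 hg with rfl | hg
        · exact (Subgroup.mem_sup_left (mem_nc g) : g ∈ (nc g).1 ⊔ M.1)
        · exact (Subgroup.mem_sup_right (hM' g hg) : g ∈ (nc a).1 ⊔ M.1)
  have le_ag : ∀ (x y : Y) (N : NL G), N.1 ≤ ag x y ↔ (R N).r x.1 y.1 := by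
    intro x y N
    constructor
    · intro h
      obtain ⟨M, hM, hM'⟩ := fin_ag x y (Set.toFinite (N.1 : Set G)).toFinset (by
        intro g hg
        apply h
        simpa using hg)
      apply R_mono N M _ _ _ hM
      have : N.1 ≤ M.1 := by
        intro g hg
        apply hM'
        simpa using hg
      exact this
    · intro h g hg
      rw [mem_ag]
      exact R_mono _ _ (nc_le hg) _ _ h
  have hnormal : ∀ x y : Y, (ag x y).Normal := by
    intro x y
    constructor
    intro n hn g
    rw [mem_ag] at hn ⊢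
    apply R_mono _ (nc n) _ _ _ hn
    apply nc_le
    have := (nc n).2
    exact this.conj_mem n (mem_nc n) g
  let S : AgS G Y :=
    { ag := ag
      normal := hnormal
      refl := by
        intro x
        rw [eq_top_iff]
        intro g _
        exact (mem_ag x x g).2 ((R (nc g)).iseqv.refl _)
      symm := by
        intro x y
        ext g
        rw [mem_ag, mem_ag]
        exact ⟨fun h => (R (nc g)).iseqv.symm h, fun h => (R (nc g)).iseqv.symm h⟩
      trans := by
        intro x y z g hg
        rw [mem_ag]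
        exact (R (nc g)).iseqv.trans ((mem_ag x y g).1 hg.1) ((mem_ag y z g).1 hg.2)
      split := by
        intro N M hN hM x y h
        have h1 : (R (⟨N, hN⟩ ⊓ ⟨M, hM⟩ : NL G)).r x.1 y.1 := (le_ag x y _).1 h
        obtain ⟨t, ht1, ht2⟩ := R_split ⟨N, hN⟩ ⟨M, hM⟩ _ le_rfl x.1 y.1 h1
        have ht : (R bt).r x0 t :=
          (R bt).iseqv.trans x.2 (R_mono _ _ (bt_le _) _ _ ht1)
        refine ⟨⟨t, ht⟩, ?_, ?_⟩
        · exact (le_ag x ⟨t, ht⟩ ⟨N, hN⟩).2 ht1
        · exact (le_ag ⟨t, ht⟩ y ⟨M, hM⟩).2 ht2 }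
  exact ⟨Y, S, ⟨x0, (R bt).iseqv.refl _⟩, ⟨y0, h0⟩, fun h => h0' ((mem_ag _ _ _).1 h)⟩

end rep

end Pool.Agent.Helper4.Lin
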