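import Mathlib
import Pool.Agent.Helper4.LinRep
import Pool.Agent.Helper4.LinCoord

set_option autoImplicit false

namespace Pool.Agent.Helper4.Lin

section gp

variable {V Z : Type} [AddCommGroup V] [AddCommGroup Z] [Module (ZMod 2) V] [Module (ZMod 2) Z]

/-- The class 2 group with underlying set `V × Z` and cocycle `β`. -/
@[ext] structure Gp (β : V →ₗ[ZMod 2] V →ₗ[ZMod 2] Z) : Type where
  v : V
  z : Z

variable (β : V →ₗ[ZMod 2] V →ₗ[ZMod 2] Z)

namespace Gp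

instance : Mul (Gp β) := ⟨fun g h => ⟨g.v + h.v, g.z + h.z + β g.v h.v⟩⟩
instance : One (Gp β) := ⟨⟨0, 0⟩⟩
instance : Inv (Gp β) := ⟨fun g => ⟨-g.v, -g.z + β g.v g.v⟩⟩

@[simp] theorem mul_v (g h : Gp β) : (g * h).v = g.v + h.v := rfl
@[simp] theorem mul_z (g h : Gp β) : (g * h).z = g.z + h.z + β g.v h.v := rfl
@[simp] theorem one_v : (1 : Gp β).v = 0 := rfl
@[simp] theorem one_z : (1 : Gp β).z = 0 := rfl
@[simp] theorem inv_v (g : Gp β) : (g⁻¹).v = -g.v := rfl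
@[simp] theorem inv_z (g : Gp β) : (g⁻¹).z = -g.z + β g.v g.v := rfl

instance : Group (Gp β) :=
  Group.ofLeftAxioms
    (by
      intro a b c
      ext
      · simp [add_assoc]
      · simp only [mul_z, mul_v, map_add, LinearMap.add_apply]
        abel)
    (by
      intro a
      ext
      · simp
      · simp)
    (by
      intro a
      ext
      · simp
      · simp)

end Gp

/-- The span of the squares and commutators of lifts of `u`. -/
def Ku (u : V) : Submodule (ZMod 2) Z :=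
  Submodule.span (ZMod 2) ({β u u} ∪ Set.range (fun v => β u v - β v u))

theorem sq_mem_Ku (u : V) : β u u ∈ Ku β u :=
  Submodule.subset_span (Or.inl rfl)

theorem comm_mem_Ku (u v : V) : β u v - β v u ∈ Ku β u :=
  Submodule.subset_span (Or.inr ⟨v, rfl⟩)

/-- The normal subgroup generated by `K`, `(u,a)` and `(u',b)`. -/
def Nsub (K : Submodule (ZMod 2) Z) (u : V) (a : Z) (u' : V) (b : Z) (hu : Ku β u ≤ K) (hu' : Ku β u' ≤ K) :
    Subgroup (Gp β) where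
  carrier := {g | ∃ i j : ZMod 2, ∃ k ∈ K, g.v = i • u + j • u' ∧
    g.z = i • a + j • b + (i * j) • β u u' + k}
  one_mem' := ⟨0, 0, 0, K.zero_mem, by simp, by simp⟩
  mul_mem' := by
    rintro g h ⟨i, j, k, hk, h1, h2⟩ ⟨i', j', k', hk', h1', h2'⟩
    refine ⟨i + i', j + j', k + k' + (i * i') • β u u + (j * j') • β u' u' +
      (j * i') • (β u' u - β u u'), ?_, ?_, ?_⟩
    · refine K.add_mem (K.add_mem (K.add_mem (K.add_mem hk hk') ?_) ?_) ?_
      · exact K.smul_mem _ (hu (sq_mem_Ku β u))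
      · exact K.smul_mem _ (hu' (sq_mem_Ku β u'))
      · exact K.smul_mem _ (hu' (comm_mem_Ku β u' u))
    · rw [Gp.mul_v, h1, h1']
      module
    · rw [Gp.mul_z, h1, h1', h2, h2']
      simp only [map_add, map_smul, LinearMap.add_apply, LinearMap.smul_apply]
      module
  inv_mem' := by
    rintro g ⟨i, j, k, hk, h1, h2⟩
    refine ⟨-i, -j, - k + (i * i) • β u u + (j * j) • β u' u' +
      (i * j) • (β u' u - β u u'), ?_, ?_, ?_⟩
    · refine K.add_mem (K.add_mem (K.add_mem (K.neg_mem hk) ?_) ?_) ?_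
      · exact K.smul_mem _ (hu (sq_mem_Ku β u))
      · exact K.smul_mem _ (hu' (sq_mem_Ku β u'))
      · exact K.smul_mem _ (hu' (comm_mem_Ku β u' u))
    · rw [Gp.inv_v, h1]
      module
    · rw [Gp.inv_z, h1, h2]
      simp only [map_add, map_smul, LinearMap.add_apply, LinearMap.smul_apply]
      module

theorem Nsub_normal (K : Submodule (ZMod 2) Z) (u : V) (a : Z) (u' : V) (b : Z) (hu : Ku β u ≤ K) (hu' : Ku β u' ≤ K) :
    (Nsub β K u a u' b hu hu').Normal := by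
  constructor
  rintro n ⟨i, j, k, hk, h1, h2⟩ g
  refine ⟨i, j, k - i • (β u g.v - β g.v u) - j • (β u' g.v - β g.v u'), ?_, ?_, ?_⟩
  · refine K.sub_mem (K.sub_mem hk ?_) ?_
    · exact K.smul_mem _ (hu (comm_mem_Ku β u g.v))
    · exact K.smul_mem _ (hu' (comm_mem_Ku β u' g.v))
  · rw [Gp.mul_v, Gp.mul_v, Gp.inv_v, h1]
    module
  · rw [Gp.mul_z, Gp.mul_z, Gp.inv_v, Gp.inv_z, Gp.mul_v, h1, h2]
    simp only [map_add, map_smul, map_neg, LinearMap.add_apply, LinearMap.smul_apply]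
    module

/-- The central subgroup given by an additive subgroup of `Z`. -/
def Zsub (N : AddSubgroup Z) : Subgroup (Gp β) where
  carrier := {g | g.v = 0 ∧ g.z ∈ N}
  one_mem' := ⟨rfl, N.zero_mem⟩
  mul_mem' := by
    rintro g h ⟨h1, h2⟩ ⟨h3, h4⟩
    refine ⟨?_, ?_⟩
    · rw [Gp.mul_v, h1, h3, add_zero]
    · rw [Gp.mul_z, h1, h3]
      simpa using N.add_mem h2 h4
  inv_mem' := by
    rintro g ⟨h1, h2⟩
    refine ⟨?_, ?_⟩
    · rw [Gp.inv_v, h1, neg_zero]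
    · rw [Gp.inv_z, h1]
      simpa using h2

theorem Zsub_normal (N : AddSubgroup Z) : (Zsub β N).Normal := by
  constructor
  rintro n ⟨h1, h2⟩ g
  refine ⟨?_, ?_⟩
  · simp [h1]
  · rw [Gp.mul_z, Gp.mul_z, Gp.inv_v, Gp.inv_z, Gp.mul_v, h1]
    have : g.z + n.z + (β g.v) 0 + (-g.z + (β g.v) g.v) + (β (g.v + 0)) (-g.v) = n.z := by
      simp only [map_neg, add_zero, map_zero]
      abel
    rw [this]
    exact h2

variable {X : Type}

/-- The agreement structure on the centre. -/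
def AgS.toZ {β : V →ₗ[ZMod 2] V →ₗ[ZMod 2] Z} (S : AgS (Gp β) X) : AgZ Z X where
  ag := fun x y =>
    { carrier := {a | (⟨0, a⟩ : Gp β) ∈ S.ag x y}
      zero_mem' := (S.ag x y).one_mem
      add_mem' := by
        intro a b ha hb
        have := (S.ag x y).mul_mem ha hb
        have e : (⟨0, a⟩ : Gp β) * ⟨0, b⟩ = ⟨0, a + b⟩ := by ext <;> simp
        rw [e] at this
        exact this
      neg_mem' := by
        intro a ha
        have := (S.ag x y).inv_mem ha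
        have e : (⟨0, a⟩ : Gp β)⁻¹ = ⟨0, -a⟩ := by ext <;> simp
        rw [e] at this
        exact this }
  refl := by
    intro x
    rw [eq_top_iff]
    intro a _
    change (⟨0, a⟩ : Gp β) ∈ S.ag x x
    rw [S.refl]
    trivial
  symm := by
    intro x y
    ext a
    change (⟨0, a⟩ : Gp β) ∈ S.ag x y ↔ (⟨0, a⟩ : Gp β) ∈ S.ag y x
    rw [S.symm]
  trans := by
    intro x y z a ha
    exact S.trans x y z ⟨ha.1, ha.2⟩
  split := by
    intro N M x y h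
    obtain ⟨t, h1, h2⟩ := S.split (Zsub β N) (Zsub β M) (Zsub_normal β N) (Zsub_normal β M) x y (by
      rintro ⟨v, a⟩ ⟨⟨h1, h2⟩, ⟨h3, h4⟩⟩
      have hv : v = 0 := h1
      subst hv
      exact h ⟨h2, h4⟩)
    refine ⟨t, ?_, ?_⟩
    · intro a ha
      exact h1 (⟨rfl, ha⟩ : (⟨0, a⟩ : Gp β) ∈ Zsub β N)
    · intro a ha
      exact h2 (⟨rfl, ha⟩ : (⟨0, a⟩ : Gp β) ∈ Zsub β M)

theorem mem_toZ {β : V →ₗ[ZMod 2] V →ₗ[ZMod 2] Z} (S : AgS (Gp β) X) (x y : X) (a : Z) :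
    a ∈ S.toZ.ag x y ↔ (⟨0, a⟩ : Gp β) ∈ S.ag x y := Iff.rfl

theorem zmod2_cases (i : ZMod 2) : i = 0 ∨ i = 1 := by
  revert i; decide

theorem inf_lem (K : Submodule (ZMod 2) Z) (a c : Z) (h : c + a ∉ K) (x : Z)
    (h1 : x ∈ K ⊔ Submodule.span (ZMod 2) {a}) (h2 : x ∈ K ⊔ Submodule.span (ZMod 2) {c}) :
    x ∈ K := by
  obtain ⟨k1, hk1, y1, hy1, rfl⟩ := Submodule.mem_sup.1 h1
  obtain ⟨k2, hk2, y2, hy2, h3⟩ := Submodule.mem_sup.1 h2
  obtain ⟨i, rfl⟩ := Submodule.mem_span_singleton.1 hy1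
  obtain ⟨j, rfl⟩ := Submodule.mem_span_singleton.1 hy2
  rcases zmod2_cases i with rfl | rfl
  · simpa using hk1
  · rcases zmod2_cases j with rfl | rfl
    · rw [← h3]; simpa using hk2
    · exfalso
      apply h
      have e : c + a = k1 - k2 + (a + a) := by
        have e2 : c = k1 + a - k2 := by
          rw [one_smul, one_smul] at h3
          rw [← h3]; abel
        rw [e2]; abel
      rw [e, ZModModule.add_self, add_zero]
      exact K.sub_mem hk1 hk2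

section ext

variable {β}
variable {E : Type} [AddCommGroup E] (S : AgS (Gp β) X) (φ : X → Z → E)
  (hφ : ∀ x y a, (⟨0, a⟩ : Gp β) ∈ S.ag x y ↔ φ x a = φ y a)
  (hadd : ∀ x a b, φ x (a + b) = φ x a + φ x b)
  (z1 z2 : Z) (π1 π2 : Z →ₗ[ZMod 2] ZMod 2)
  (hπ1 : ∀ v w, π1 (β v w) = 0) (hπ2 : ∀ v w, π2 (β v w) = 0)
  (h11 : π1 z1 = 1) (h12 : π1 z2 = 0) (h21 : π2 z1 = 0) (h22 : π2 z2 = 1)

theorem pi_Ku (π : Z →ₗ[ZMod 2] ZMod 2) (hπ : ∀ v w, π (β v w) = 0) (u : V) (k : Z)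
    (hk : k ∈ Ku β u) : π k = 0 := by
  have : Ku β u ≤ LinearMap.ker π := by
    apply Submodule.span_le.2
    rintro x (hx | ⟨v, rfl⟩)
    · have hx' : x = β u u := hx
      rw [hx']
      exact hπ u u
    · change π (β u v - β v u) = 0
      rw [map_sub, hπ, hπ, sub_zero]
  exact this hk

include hφ in
theorem ag_Ku (u : V) (a : Z) (x y : X) (h : (⟨u, a⟩ : Gp β) ∈ S.ag x y) (k : Z)
    (hk : k ∈ Ku β u) : φ x k = φ y k := by
  have hn := S.normal x y
  let A : Submodule (ZMod 2) Z :=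
    { carrier := {k | (⟨0, k⟩ : Gp β) ∈ S.ag x y}
      zero_mem' := (S.ag x y).one_mem
      add_mem' := by
        intro a b ha hb
        exact (S.toZ.ag x y).add_mem ha hb
      smul_mem' := by
        intro c a ha
        rcases zmod2_cases c with rfl | rfl
        · rw [zero_smul]
          exact (S.ag x y).one_mem
        · rw [one_smul]
          exact ha }
  have : Ku β u ≤ A := by
    apply Submodule.span_le.2
    rintro q (hq | ⟨v, rfl⟩)
    · have hq' : q = β u u := hq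
      have e : (⟨u, a⟩ : Gp β) * ⟨u, a⟩ = ⟨0, β u u⟩ := by
        ext
        · simp [ZModModule.add_self]
        · simp [ZModModule.add_self]
      rw [hq']
      change (⟨0, β u u⟩ : Gp β) ∈ S.ag x y
      rw [← e]
      exact (S.ag x y).mul_mem h h
    · change (⟨0, β u v - β v u⟩ : Gp β) ∈ S.ag x y
      have h1 := hn.conj_mem _ h ⟨v, 0⟩
      have h2 := (S.ag x y).mul_mem h ((S.ag x y).inv_mem h1)
      have e : (⟨u, a⟩ : Gp β) * ((⟨v, 0⟩ : Gp β) * ⟨u, a⟩ * (⟨v, 0⟩ : Gp β)⁻¹)⁻¹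
          = ⟨0, β u v - β v u⟩ := by
        ext
        · simp
        · simp only [Gp.mul_v, Gp.mul_z, Gp.inv_v, Gp.inv_z, map_add, map_neg,
            LinearMap.add_apply, LinearMap.neg_apply]
          abel
      rw [e] at h2
      exact h2
  exact (hφ x y k).1 (this hk)

theorem S_trans {x y z : X} {g : Gp β} (h : g ∈ S.ag x y) (h' : g ∈ S.ag y z) : g ∈ S.ag x z :=
  S.trans x y z ⟨h, h'⟩

theorem S_symm {x y : X} {g : Gp β} (h : g ∈ S.ag x y) : g ∈ S.ag y x := by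
  rw [S.symm]; exact h

include hφ in
/-- moving along the centre -/
theorem s_add (u : V) (a b : Z) (x y : X) (h : (⟨u, a⟩ : Gp β) ∈ S.ag x y)
    (hb : φ x b = φ y b) : (⟨u, a + b⟩ : Gp β) ∈ S.ag x y := by
  have h1 := (S.ag x y).mul_mem h ((hφ x y b).2 hb)
  have e : (⟨u, a⟩ : Gp β) * ⟨0, b⟩ = ⟨u, a + b⟩ := by ext <;> simp
  rwa [e] at h1

include hφ hadd in
theorem s_both (u : V) (a b : Z) (x y : X) (h : (⟨u, a⟩ : Gp β) ∈ S.ag x y)
    (h' : (⟨u, b⟩ : Gp β) ∈ S.ag x y) : φ x (a + b) = φ y (a + b) := by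
  have h1 := (S.ag x y).mul_mem h h'
  have e : (⟨u, a⟩ : Gp β) * ⟨u, b⟩ = ⟨0, (a + b) + β u u⟩ := by
    ext
    · simp [ZModModule.add_self]
    · simp
  rw [e] at h1
  have h2 := (hφ x y _).1 h1
  rw [hadd x, hadd y, ag_Ku S φ hφ u a x y h (β u u) (sq_mem_Ku β u)] at h2
  exact add_right_cancel h2

include hφ in
theorem split1 (u : V) (a c : Z) (hc : c + a ∉ Ku β u) (x y : X)
    (hxy : ∀ k ∈ Ku β u, φ x k = φ y k) :
    ∃ p, (⟨u, 0⟩ : Gp β) ∈ S.ag x p ∧ φ x a = φ p a ∧ φ p c = φ y c := by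
  obtain ⟨p, h1, h2⟩ := S.split
    (Nsub β (Ku β u ⊔ Submodule.span (ZMod 2) {a}) u 0 u 0 le_sup_left le_sup_left)
    (Zsub β (Ku β u ⊔ Submodule.span (ZMod 2) {c}).toAddSubgroup)
    (Nsub_normal β _ _ _ _ _ _ _) (Zsub_normal β _) x y (by
      rintro ⟨v, z⟩ ⟨⟨i, j, k, hk, h1, h2⟩, ⟨h3, h4⟩⟩
      have hv : v = 0 := h3
      subst hv
      have h4' : z ∈ Ku β u ⊔ Submodule.span (ZMod 2) {c} := h4
      have h2' : z = i • (0 : Z) + j • (0 : Z) + (i * j) • β u u + k := h2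
      have h5 : z ∈ Ku β u ⊔ Submodule.span (ZMod 2) {a} := by
        rw [h2', smul_zero, smul_zero, add_zero, zero_add]
        apply Submodule.add_mem _ _ hk
        apply Submodule.smul_mem
        exact (le_sup_left : Ku β u ≤ _) (sq_mem_Ku β u)
      exact (hφ x y z).2 (hxy z (inf_lem (Ku β u) a c hc z h5 h4')))
  refine ⟨p, h1 ?_, ?_, ?_⟩
  · exact ⟨1, 0, 0, Submodule.zero_mem _, by simp, by simp⟩
  · apply (hφ x p a).1
    apply h1
    refine ⟨0, 0, a, ?_, by simp, by simp⟩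
    exact (le_sup_right : _ ≤ Ku β u ⊔ Submodule.span (ZMod 2) {a})
      (Submodule.mem_span_singleton_self a)
  · apply (hφ p y c).1
    apply h2
    refine ⟨rfl, ?_⟩
    exact (le_sup_right : _ ≤ Ku β u ⊔ Submodule.span (ZMod 2) {c})
      (Submodule.mem_span_singleton_self c)

include hφ hπ1 h11 in
theorem split0 (u : V) (x y : X) (hxy : ∀ k ∈ Ku β u, φ x k = φ y k) :
    ∃ p, (⟨u, 0⟩ : Gp β) ∈ S.ag x p ∧ (⟨u, z1⟩ : Gp β) ∈ S.ag p y := by
  obtain ⟨p, h1, h2⟩ := S.split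
    (Nsub β (Ku β u) u 0 0 0 le_rfl (by
      apply Submodule.span_le.2
      rintro q (hq | ⟨v, rfl⟩)
      · have hq' : q = β 0 0 := hq
        rw [hq']; simp
      · simp))
    (Nsub β (Ku β u) u z1 0 0 le_rfl (by
      apply Submodule.span_le.2
      rintro q (hq | ⟨v, rfl⟩)
      · have hq' : q = β 0 0 := hq
        rw [hq']; simp
      · simp))
    (Nsub_normal β _ _ _ _ _ _ _) (Nsub_normal β _ _ _ _ _ _ _) x y (by
      rintro ⟨v, z⟩ ⟨⟨i, j, k, hk, h1, h2⟩, ⟨i', j', k', hk', h3, h4⟩⟩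
      simp only [smul_zero, add_zero, map_zero, zero_add] at h1 h2 h3 h4
      have e := congrArg π1 (h2.symm.trans h4)
      rw [map_add, map_smul, h11, pi_Ku π1 hπ1 u k hk, pi_Ku π1 hπ1 u k' hk'] at e
      have hi : i' = 0 := by simpa using e.symm
      subst hi
      rw [zero_smul] at h3
      subst h3
      rw [h2]
      exact (hφ x y k).2 (hxy k hk))
  refine ⟨p, h1 ?_, h2 ?_⟩
  · exact ⟨1, 0, 0, Submodule.zero_mem _, by simp, by simp⟩
  · exact ⟨1, 0, 0, Submodule.zero_mem _, by simp, by simp⟩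

include hφ hadd in
theorem s_iff0 (u : V) (a : Z) (x y : X) (h : (⟨u, 0⟩ : Gp β) ∈ S.ag x y)
    (ha : φ x a = φ y a) : (⟨u, a⟩ : Gp β) ∈ S.ag x y := by
  have := s_add S φ hφ u 0 a x y h ha
  rwa [zero_add] at this

include hφ hadd hπ1 h11 hπ2 h22 h12 h21 in
/-- The parallelogram lemma. -/
theorem keyK (u : V) (x x' y y' : X) (h1 : (⟨u, 0⟩ : Gp β) ∈ S.ag x x')
    (h2 : (⟨u, 0⟩ : Gp β) ∈ S.ag y y') (h3 : (⟨u, z1⟩ : Gp β) ∈ S.ag x y)
    (h4 : (⟨u, z1⟩ : Gp β) ∈ S.ag x' y') :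
    φ x z1 - φ x' z1 = φ y z1 - φ y' z1 := by
  have kxx' : ∀ k ∈ Ku β u, φ x k = φ x' k := ag_Ku S φ hφ u _ x x' h1
  have kyy' : ∀ k ∈ Ku β u, φ y k = φ y' k := ag_Ku S φ hφ u _ y y' h2
  have kxy : ∀ k ∈ Ku β u, φ x k = φ y k := ag_Ku S φ hφ u _ x y h3
  have n1 : z2 + z1 ∉ Ku β u := by
    intro h
    have := pi_Ku π1 hπ1 u _ h
    rw [map_add, h11, h12] at this
    revert this; decide
  have n2 : (z1 + z2) + z1 ∉ Ku β u := by
    intro h
    have := pi_Ku π2 hπ2 u _ h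
    rw [map_add, map_add, h21, h22] at this
    revert this; decide
  -- the point `p1`
  obtain ⟨p1, a1, a2, a3⟩ := split1 S φ hφ u z1 z2 n1 x' x (fun k hk => (kxx' k hk).symm)
  obtain ⟨q, b1, b2, b3⟩ := split1 S φ hφ u z1 (z1 + z2) n2 y x (fun k hk => (kxy k hk).symm)
  have kyq : ∀ k ∈ Ku β u, φ y k = φ q k := ag_Ku S φ hφ u _ y q b1
  obtain ⟨q1, c1, c2, c3⟩ := split1 S φ hφ u z1 z2 n1 y' q
    (fun k hk => (kyy' k hk).symm.trans (kyq k hk))
  -- x and q agree on (u,z1), z1+z2, hence on (u, z2)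
  have e1 : (⟨u, z1⟩ : Gp β) ∈ S.ag x q := S_trans S h3 (s_iff0 S φ hφ hadd u z1 y q b1 b2)
  have e2 : (⟨u, z2⟩ : Gp β) ∈ S.ag x q := by
    have := s_add S φ hφ u z1 (z1 + z2) x q e1 b3.symm
    rwa [← add_assoc, ZModModule.add_self, zero_add] at this
  have e3 : (⟨u, z2⟩ : Gp β) ∈ S.ag x p1 :=
    s_iff0 S φ hφ hadd u z2 x p1 (S_trans S h1 a1) a3.symm
  have e4 : (⟨u, z2⟩ : Gp β) ∈ S.ag q q1 :=
    s_iff0 S φ hφ hadd u z2 q q1 (S_trans S (S_trans S (S_symm S b1) h2) c1) c3.symm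
  have e5 : (⟨u, z2⟩ : Gp β) ∈ S.ag p1 q1 := S_trans S (S_trans S (S_symm S e3) e2) e4
  have e6 : (⟨u, z1⟩ : Gp β) ∈ S.ag p1 q1 := by
    have f1 : (⟨u, z1⟩ : Gp β) ∈ S.ag p1 x' :=
      S_symm S (s_iff0 S φ hφ hadd u z1 x' p1 a1 a2)
    have f2 : (⟨u, z1⟩ : Gp β) ∈ S.ag y' q1 := s_iff0 S φ hφ hadd u z1 y' q1 c1 c2
    exact S_trans S (S_trans S f1 h4) f2
  have e7 := s_both S φ hφ hadd u z1 z2 p1 q1 e6 e5
  rw [hadd, hadd, ← a2, a3, ← c2, c3] at e7
  -- φ x' z1 + φ x z2 = φ y' z1 + φ q z2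
  rw [hadd, hadd, ← b2] at b3
  -- φ y z1 + φ q z2 = φ x z1 + φ x z2
  have e8 : φ q z2 = φ x z1 + φ x z2 - φ y z1 := by
    rw [← b3]; abel
  rw [e8] at e7
  have e9 : φ x' z1 = φ y' z1 + φ x z1 - φ y z1 := by
    have : φ x' z1 = (φ x' z1 + φ x z2) - φ x z2 := by abel
    rw [this, e7]; abel
  rw [e9]; abel

include hφ hadd hπ1 h11 hπ2 h22 h12 h21 in
/-- Extension of the coordinates to a lift of `u`. -/
theorem extend (u : V) : ∃ P : X → E, ∀ x y a, (⟨u, a⟩ : Gp β) ∈ S.ag x y →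
    P x + φ x a = P y + φ y a := by
  classical
  let st : Setoid X :=
    { r := fun x y => ∀ k ∈ Ku β u, φ x k = φ y k
      iseqv := ⟨fun x k _ => rfl, fun h k hk => (h k hk).symm,
        fun h h' k hk => (h k hk).trans (h' k hk)⟩ }
  let o : X → X := fun x => (Quotient.mk st x).out
  have ho : ∀ x, ∀ k ∈ Ku β u, φ x k = φ (o x) k := by
    intro x
    have : st.r (o x) x := Quotient.exact (Quotient.out_eq (Quotient.mk st x))
    exact fun k hk => (this k hk).symm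
  have hoo : ∀ x y, (∀ k ∈ Ku β u, φ x k = φ y k) → o x = o y := by
    intro x y h
    have : Quotient.mk st x = Quotient.mk st y := Quotient.sound h
    change (Quotient.mk st x).out = (Quotient.mk st y).out
    rw [this]
  have hw := fun x => split0 S φ hφ z1 π1 hπ1 h11 u x (o x) (ho x)
  choose w hw1 hw2 using hw
  refine ⟨fun x => φ (w x) z1 - φ (o x) z1, ?_⟩
  intro x y a h
  have kxy : ∀ k ∈ Ku β u, φ x k = φ y k := ag_Ku S φ hφ u _ x y h
  have n1 : (a + z1) + a ∉ Ku β u := by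
    intro h
    have := pi_Ku π1 hπ1 u _ h
    rw [map_add, map_add, h11] at this
    revert this
    generalize π1 a = i
    revert i; decide
  obtain ⟨p, a1, a2, a3⟩ := split1 S φ hφ u a (a + z1) n1 x y kxy
  have e1 : (⟨u, a⟩ : Gp β) ∈ S.ag p y :=
    S_trans S (S_symm S (s_iff0 S φ hφ hadd u a x p a1 a2)) h
  have e2 : (⟨u, z1⟩ : Gp β) ∈ S.ag p y := by
    have := s_add S φ hφ u a (a + z1) p y e1 a3
    rwa [← add_assoc, ZModModule.add_self, zero_add] at this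
  have e3 : φ p z1 - φ y z1 = φ y a - φ x a := by
    rw [hadd, hadd, ← a2] at a3
    have : φ p z1 = (φ x a + φ p z1) - φ x a := by abel
    rw [this, a3]; abel
  have hoxy : o x = o y := hoo x y kxy
  have e4 : (⟨u, z1⟩ : Gp β) ∈ S.ag (w x) (w y) := by
    have := hw2 y
    rw [← hoxy] at this
    exact S_trans S (hw2 x) (S_symm S this)
  have e5 := keyK S φ hφ hadd z1 z2 π1 π2 hπ1 hπ2 h11 h12 h21 h22 u p (w x) y (w y)
    (S_trans S (S_symm S a1) (hw1 x)) (hw1 y) e2 e4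
  change φ (w x) z1 - φ (o x) z1 + φ x a = φ (w y) z1 - φ (o y) z1 + φ y a
  rw [hoxy]
  have e6 : φ (w x) z1 = φ p z1 - φ y z1 + φ (w y) z1 := by
    have : φ (w x) z1 = φ p z1 - (φ p z1 - φ (w x) z1) := by abel
    rw [this, e5]; abel
  rw [e6, e3]; abel

include hφ hadd hπ1 h11 hπ2 h22 h12 h21 in
/-- The homomorphism property of differences. -/
theorem hom_prop (u u' : V) (P1 P2 P3 : X → E)
    (hP1 : ∀ x y a, (⟨u, a⟩ : Gp β) ∈ S.ag x y → P1 x + φ x a = P1 y + φ y a)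
    (hP2 : ∀ x y a, (⟨u', a⟩ : Gp β) ∈ S.ag x y → P2 x + φ x a = P2 y + φ y a)
    (hP3 : ∀ x y a, (⟨u + u', a⟩ : Gp β) ∈ S.ag x y → P3 x + φ x a = P3 y + φ y a)
    (x y : X) (hu : ∀ k ∈ Ku β u, φ x k = φ y k) (hu' : ∀ k ∈ Ku β u', φ x k = φ y k) :
    P3 x + φ x (β u u') - P1 x - P2 x = P3 y + φ y (β u u') - P1 y - P2 y := by
  have hK : ∀ (π : Z →ₗ[ZMod 2] ZMod 2), (∀ v w, π (β v w) = 0) → ∀ k ∈ Ku β u ⊔ Ku β u',
      π k = 0 := by
    intro π hπ k hk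
    obtain ⟨k1, hk1, k2, hk2, rfl⟩ := Submodule.mem_sup.1 hk
    rw [map_add, pi_Ku π hπ u k1 hk1, pi_Ku π hπ u' k2 hk2, add_zero]
  obtain ⟨t, h1, h2⟩ := S.split
    (Nsub β (Ku β u ⊔ Ku β u') u 0 u' 0 le_sup_left le_sup_right)
    (Nsub β (Ku β u ⊔ Ku β u') u z1 u' z2 le_sup_left le_sup_right)
    (Nsub_normal β _ _ _ _ _ _ _) (Nsub_normal β _ _ _ _ _ _ _) x y (by
      rintro ⟨v, z⟩ ⟨⟨i, j, k, hk, h1, h2⟩, ⟨i', j', k', hk', h3, h4⟩⟩
      have h24 := h2.symm.trans h4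
      have e1 := congrArg π1 h24
      have e2 := congrArg π2 h24
      simp only [map_add, map_smul, smul_zero, hπ1, hπ2, h11, h12, h21, h22, map_zero,
        hK π1 hπ1 k hk, hK π2 hπ2 k hk, hK π1 hπ1 k' hk', hK π2 hπ2 k' hk', add_zero,
        zero_add, smul_eq_mul, mul_one, mul_zero] at e1 e2
      have hi : i' = 0 := e1.symm
      have hj : j' = 0 := e2.symm
      subst hi
      subst hj
      simp only [zero_smul, add_zero, zero_add, mul_zero] at h3 h4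
      subst h3
      have h4' : z = k' := h4
      subst h4'
      apply (hφ x y z).2
      obtain ⟨k1, hk1, k2, hk2, rfl⟩ := Submodule.mem_sup.1 hk'
      rw [hadd, hadd, hu k1 hk1, hu' k2 hk2])
  -- agreements between x and t
  have m1 : (⟨u, 0⟩ : Gp β) ∈ S.ag x t :=
    h1 ⟨1, 0, 0, Submodule.zero_mem _, by simp, by simp⟩
  have m2 : (⟨u', 0⟩ : Gp β) ∈ S.ag x t :=
    h1 ⟨0, 1, 0, Submodule.zero_mem _, by simp, by simp⟩
  have m3 : (⟨u + u', β u u'⟩ : Gp β) ∈ S.ag x t :=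
    h1 ⟨1, 1, 0, Submodule.zero_mem _, by simp, by simp⟩
  have n1 : (⟨u, z1⟩ : Gp β) ∈ S.ag t y :=
    h2 ⟨1, 0, 0, Submodule.zero_mem _, by simp, by simp⟩
  have n2 : (⟨u', z2⟩ : Gp β) ∈ S.ag t y :=
    h2 ⟨0, 1, 0, Submodule.zero_mem _, by simp, by simp⟩
  have n3 : (⟨u + u', z1 + z2 + β u u'⟩ : Gp β) ∈ S.ag t y :=
    h2 ⟨1, 1, 0, Submodule.zero_mem _, by simp, by simp⟩
  have φ0 : ∀ q, φ q 0 = 0 := by
    intro q
    have := hadd q 0 0
    rw [add_zero] at this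
    exact (add_eq_left.1 this.symm)
  have q1 := hP1 x t 0 m1
  have q2 := hP2 x t 0 m2
  have q3 := hP3 x t _ m3
  have r1 := hP1 t y _ n1
  have r2 := hP2 t y _ n2
  have r3 := hP3 t y _ n3
  rw [φ0, φ0, add_zero, add_zero] at q1 q2
  rw [hadd, hadd, hadd, hadd] at r3
  rw [q1, q2, q3]
  have s1 : P1 t = P1 y + φ y z1 - φ t z1 := by rw [← r1]; abel
  have s2 : P2 t = P2 y + φ y z2 - φ t z2 := by rw [← r2]; abel
  have s3 : P3 t + φ t (β u u') = P3 y + (φ y z1 + φ y z2 + φ y (β u u')) - φ t z1 - φ t z2 := by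
    rw [← r3]; abel
  rw [s3, s1, s2]; abel

end ext

end gp

end Pool.Agent.Helper4.Lin
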