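import Mathlib
import Pool.Agent.Helper4.LinGroup

set_option autoImplicit false

namespace Pool.Agent.Helper4.Lin

section main

variable {V Z : Type} [AddCommGroup V] [AddCommGroup Z] [Module (ZMod 2) V] [Module (ZMod 2) Z]
variable {β : V →ₗ[ZMod 2] V →ₗ[ZMod 2] Z} {X : Type}

/-- The element `i ε`. -/
def sm {E : Type} [AddCommGroup E] (i : ZMod 2) (ε : E) : E := if i = 0 then 0 else ε

theorem main_system (S : AgS (Gp β) X) (z1 z2 : Z) (π1 π2 : Z →ₗ[ZMod 2] ZMod 2)
    (hπ1 : ∀ v w, π1 (β v w) = 0) (hπ2 : ∀ v w, π2 (β v w) = 0)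
    (h11 : π1 z1 = 1) (h12 : π1 z2 = 0) (h21 : π2 z1 = 0) (h22 : π2 z2 = 1)
    (hbig : ∀ s : Finset Z, s.card ≤ 6 → ∃ c, c ∉ s)
    (g : Z) (x0 y0 : X) (hg : (⟨0, g⟩ : Gp β) ∉ S.ag x0 y0) :
    ∃ (E : Type) (_ : AddCommGroup E) (ε : E) (Q : (Z →ₗ[ZMod 2] ZMod 2) → V → E),
      ε ≠ 0 ∧ (∀ e : E, e + e = 0) ∧
      ∀ (b b' : Z →ₗ[ZMod 2] ZMod 2) (u u' : V),
        (∀ k ∈ Ku β u, b k = b' k) → (∀ k ∈ Ku β u', b k = b' k) →
        Q b (u + u') + Q b u + Q b u' + sm (b (β u u')) ε =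
        Q b' (u + u') + Q b' u + Q b' u' + sm (b' (β u u')) ε := by
  obtain ⟨E, inst, φ, hE, hadd, hφ', hφ0, hsurj⟩ :=
    S.toZ.coordinatize (fun a => ZModModule.add_self a) hbig x0
  have hφ : ∀ x y a, (⟨0, a⟩ : Gp β) ∈ S.ag x y ↔ φ x a = φ y a := fun x y a => hφ' x y a
  have hneg : ∀ a b : E, a - b = a + b := fun a b => by
    rw [sub_eq_add_neg, neg_self_of_two hE]
  set ε : E := φ y0 g with hε
  have hε0 : ε ≠ 0 := by
    intro h
    apply hg
    rw [hφ, hφ0, ← hε, h]
  -- the points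
  have hpt : ∀ b : Z →ₗ[ZMod 2] ZMod 2, ∃ x, ∀ a, φ x a = sm (b a) ε := by
    intro b
    by_cases hb : ∀ a, b a = 0
    · refine ⟨x0, fun a => ?_⟩
      rw [hφ0, hb a]
      simp [sm]
    · push Not at hb
      obtain ⟨z, hz⟩ := hb
      have hz1 : b z = 1 := by
        rcases zmod2_cases (b z) with h | h
        · exact absurd h hz
        · exact h
      have hz0 : z ≠ 0 := by
        rintro rfl
        exact hz (map_zero b)
      obtain ⟨p, hp⟩ := hsurj z hz0 ε
      obtain ⟨t, h1, h2⟩ := S.toZ.split (LinearMap.ker b).toAddSubgroup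
        (two (fun a => ZModModule.add_self a) z 0) x0 p (by
          rintro a ⟨ha1, ha2⟩
          have ha1' : b a = 0 := ha1
          rcases ha2 with h | h | h | h
          · rw [h]; exact AddSubgroup.zero_mem _
          · rw [h] at ha1'; exact absurd ha1' hz
          · rw [h]; exact AddSubgroup.zero_mem _
          · rw [h, add_zero] at ha1'; exact absurd ha1' hz)
      have k1 : ∀ a, b a = 0 → φ t a = 0 := by
        intro a ha
        have : a ∈ S.toZ.ag x0 t := h1 ha
        rw [← (hφ' x0 t a).1 this, hφ0]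
      have k2 : φ t z = ε := by
        have : z ∈ S.toZ.ag t p := h2 (Or.inr (Or.inl rfl))
        rw [(hφ' t p z).1 this, hp]
      refine ⟨t, fun a => ?_⟩
      rcases zmod2_cases (b a) with h | h
      · rw [k1 a h, h]; simp [sm]
      · have e : a = (a + z) + z := by rw [add_assoc, ZModModule.add_self, add_zero]
        rw [e, hadd, k2, k1 (a + z) (by rw [map_add, h, hz1]; decide), zero_add, ← e, h]
        simp [sm]
  choose pt hpt using hpt
  have hP := fun u => extend S φ hφ hadd z1 z2 π1 π2 hπ1 hπ2 h11 h12 h21 h22 u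
  choose P hP using hP
  refine ⟨E, inst, ε, fun b u => P u (pt b), hε0, hE, ?_⟩
  intro b b' u u' h1 h2
  have := hom_prop S φ hφ hadd z1 z2 π1 π2 hπ1 hπ2 h11 h12 h21 h22 u u' (P u) (P u') (P (u + u'))
    (hP u) (hP u') (hP (u + u')) (pt b) (pt b')
    (fun k hk => by rw [hpt, hpt, h1 k hk]) (fun k hk => by rw [hpt, hpt, h2 k hk])
  rw [hpt, hpt] at this
  simp only [hneg] at this
  have e1 : ∀ A B C D : E, A + B + C + D = A + D + B + C := by intro A B C D; abel
  rw [e1, e1 (P (u + u') (pt b'))]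
  exact this

/-- A sum over a list in which every element occurs an even number of times. -/
theorem even_sum {E : Type} [AddCommGroup E] (hE : ∀ e : E, e + e = 0) (F : ℕ → E) (l : List ℕ)
    (h : ∀ a ∈ l, l.count a % 2 = 0) : (l.map F).sum = 0 := by
  rw [Finset.sum_list_map_count]
  apply Finset.sum_eq_zero
  intro a ha
  have h1 := h a (List.mem_toFinset.1 ha)
  obtain ⟨k, hk⟩ : ∃ k, l.count a = k + k := by
    have : Even (l.count a) := Nat.even_iff.2 h1
    exact this
  rw [hk, add_smul, hE]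

end main

end Pool.Agent.Helper4.Lin
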