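import Mathlib
import Pool.Agent.Helper4.LinMain

set_option autoImplicit false

namespace Pool.Agent.Helper4.Lin

/-- The vector space `F_2^4`. -/
abbrev V4 : Type := Fin 4 → ZMod 2

/-- The tensor square of `V4` plus two extra coordinates. -/
abbrev Z4 : Type := (Fin 4 → Fin 4 → ZMod 2) × (ZMod 2 × ZMod 2)

/-- The cocycle `u, v ↦ u ⊗ v`. -/
def β4 : V4 →ₗ[ZMod 2] V4 →ₗ[ZMod 2] Z4 :=
  LinearMap.mk₂ (ZMod 2) (fun u v => ((fun i j => u i * v j : Fin 4 → Fin 4 → ZMod 2), (0, 0)))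
    (by
      intro u u' v
      refine Prod.ext ?_ (by simp)
      funext i j
      simp [add_mul])
    (by
      intro c u v
      refine Prod.ext ?_ (by simp)
      funext i j
      simp [mul_assoc])
    (by
      intro u v v'
      refine Prod.ext ?_ (by simp)
      funext i j
      simp [mul_add])
    (by
      intro c u v
      refine Prod.ext ?_ (by simp)
      funext i j
      simp [mul_left_comm])

theorem β4_apply (u v : V4) :
    β4 u v = ((fun i j => u i * v j : Fin 4 → Fin 4 → ZMod 2), (0, 0)) := rfl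

/-- The bilinear form with matrix `m`. -/
def bil (m : Fin 4 → Fin 4 → ZMod 2) (u v : V4) : ZMod 2 := ∑ i, ∑ j, m i j * (u i * v j)

/-- The functional on `Z4` with matrix `m`. -/
def fm (m : Fin 4 → Fin 4 → ZMod 2) : Z4 →ₗ[ZMod 2] ZMod 2 where
  toFun := fun x => ∑ i, ∑ j, m i j * x.1 i j
  map_add' := by
    intro x y
    simp only [Prod.fst_add, Pi.add_apply, mul_add, Finset.sum_add_distrib]
  map_smul' := by
    intro c x
    simp only [Prod.smul_fst, Pi.smul_apply, smul_eq_mul, RingHom.id_apply, Finset.mul_sum]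
    refine Finset.sum_congr rfl fun i _ => Finset.sum_congr rfl fun j _ => ?_
    ring

theorem fm_β4 (m : Fin 4 → Fin 4 → ZMod 2) (u v : V4) : fm m (β4 u v) = bil m u v := rfl

/-- The commutator form. -/
def com (m : Fin 4 → Fin 4 → ZMod 2) (u : V4) (i : Fin 4) : ZMod 2 :=
  ∑ j, (m j i - m i j) * u j

theorem bil_com (m : Fin 4 → Fin 4 → ZMod 2) (u v : V4) :
    bil m u v - bil m v u = ∑ i, v i * com m u i := by
  simp only [bil, com, Fin.sum_univ_four]
  ring

theorem fm_Ku (m m' : Fin 4 → Fin 4 → ZMod 2) (u : V4) (h1 : bil m u u = bil m' u u)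
    (h2 : ∀ i, com m u i = com m' u i) : ∀ k ∈ Ku β4 u, fm m k = fm m' k := by
  have : Ku β4 u ≤ LinearMap.ker (fm m - fm m') := by
    apply Submodule.span_le.2
    rintro q (hq | ⟨v, rfl⟩)
    · have hq' : q = β4 u u := hq
      rw [hq']
      change (fm m - fm m') (β4 u u) = 0
      rw [LinearMap.sub_apply, fm_β4, fm_β4, h1, sub_self]
    · change (fm m - fm m') (β4 u v - β4 v u) = 0
      rw [LinearMap.sub_apply, map_sub, map_sub, fm_β4, fm_β4, fm_β4, fm_β4, bil_com, bil_com]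
      rw [sub_eq_zero]
      exact Finset.sum_congr rfl fun i _ => by rw [h2]
  intro k hk
  have h3 := this hk
  rw [LinearMap.mem_ker, LinearMap.sub_apply, sub_eq_zero] at h3
  exact h3

/-- The vector with binary code `k`. -/
def vec (k : ℕ) : V4 := fun i => if k.testBit i then 1 else 0

/-- The matrix with binary code `n`. -/
def mt (n : ℕ) : Fin 4 → Fin 4 → ZMod 2 := fun i j => if n.testBit (4 * i + j) then 1 else 0

theorem vec_xor (k k' : ℕ) : vec (k ^^^ k') = vec k + vec k' := by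
  funext i
  simp only [vec, Nat.testBit_xor, Pi.add_apply]
  cases k.testBit i <;> cases k'.testBit i <;> decide

/-- The certificate: quadruples `(b, b', u, u')`. -/
def cells : List (ℕ × ℕ × ℕ × ℕ) :=
  [(227, 35043, 1, 2), (2122, 35050, 1, 4), (1153, 3073, 1, 6), (34947, 35043, 1, 8),
   (227, 34947, 1, 10), (1153, 35041, 1, 10), (2122, 33834, 1, 10), (3073, 35041, 1, 12),
   (33834, 35050, 1, 14), (33927, 33935, 2, 4), (1255, 3311, 2, 5), (227, 1255, 2, 8),
   (33927, 34947, 2, 9), (3311, 35043, 2, 12), (33935, 34947, 2, 13), (2122, 35043, 3, 4),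
   (33834, 34947, 3, 5), (167, 227, 3, 8), (33991, 34947, 3, 9), (33834, 33991, 3, 12),
   (167, 2122, 3, 13), (35041, 35043, 4, 8), (33829, 33927, 4, 9), (35041, 35050, 4, 10),
   (33829, 33935, 4, 11), (34947, 35041, 5, 8), (33829, 33991, 5, 9), (1255, 33991, 5, 10),
   (1153, 35050, 5, 10), (1153, 2122, 5, 11), (33834, 35041, 5, 11), (3311, 33829, 5, 11),
   (167, 1153, 6, 8), (33829, 34947, 6, 9), (33829, 33834, 6, 10), (167, 33927, 6, 11),
   (3073, 33935, 6, 11), (1153, 1255, 7, 8), (33829, 35043, 7, 9), (2122, 33829, 7, 10),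
   (3073, 3311, 7, 11)]

/-- The side conditions of a cell. -/
def cellOK (c : ℕ × ℕ × ℕ × ℕ) : Prop :=
  bil (mt c.1) (vec c.2.2.1) (vec c.2.2.1) = bil (mt c.2.1) (vec c.2.2.1) (vec c.2.2.1) ∧
  bil (mt c.1) (vec c.2.2.2) (vec c.2.2.2) = bil (mt c.2.1) (vec c.2.2.2) (vec c.2.2.2) ∧
  (∀ i, com (mt c.1) (vec c.2.2.1) i = com (mt c.2.1) (vec c.2.2.1) i) ∧
  (∀ i, com (mt c.1) (vec c.2.2.2) i = com (mt c.2.1) (vec c.2.2.2) i) ∧
  c.2.2.1 < 16 ∧ c.2.2.2 < 16

instance (c : ℕ × ℕ × ℕ × ℕ) : Decidable (cellOK c) := by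
  unfold cellOK; infer_instance

/-- The right-hand side of a cell. -/
def rc (c : ℕ × ℕ × ℕ × ℕ) : ZMod 2 :=
  bil (mt c.1) (vec c.2.2.1) (vec c.2.2.2) + bil (mt c.2.1) (vec c.2.2.1) (vec c.2.2.2)

/-- The unknowns of a cell. -/
def keys (c : ℕ × ℕ × ℕ × ℕ) : List ℕ :=
  [16 * c.1 + (c.2.2.1 ^^^ c.2.2.2), 16 * c.1 + c.2.2.1, 16 * c.1 + c.2.2.2,
   16 * c.2.1 + (c.2.2.1 ^^^ c.2.2.2), 16 * c.2.1 + c.2.2.1, 16 * c.2.1 + c.2.2.2]

theorem cells_ok : ∀ c ∈ cells, cellOK c := by decide +kernel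

theorem cells_even : ∀ a ∈ cells.flatMap keys, (cells.flatMap keys).count a % 2 = 0 := by
  decide +kernel

theorem cells_sum : (cells.map rc).sum = 1 := by decide +kernel

theorem sm_add {E : Type} [AddCommGroup E] (hE : ∀ e : E, e + e = 0) (ε : E) (i j : ZMod 2) :
    sm i ε + sm j ε = sm (i + j) ε := by
  rcases zmod2_cases i with rfl | rfl <;> rcases zmod2_cases j with rfl | rfl
  · simp [sm]
  · simp [sm]
  · simp [sm]
  · have : (1 : ZMod 2) + 1 = 0 := by decide
    simp [sm, hE, this]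

theorem no_system (E : Type) [AddCommGroup E] (ε : E) (Q : (Z4 →ₗ[ZMod 2] ZMod 2) → V4 → E)
    (hε : ε ≠ 0) (hE : ∀ e : E, e + e = 0)
    (hQ : ∀ (b b' : Z4 →ₗ[ZMod 2] ZMod 2) (u u' : V4),
        (∀ k ∈ Ku β4 u, b k = b' k) → (∀ k ∈ Ku β4 u', b k = b' k) →
        Q b (u + u') + Q b u + Q b u' + sm (b (β4 u u')) ε =
        Q b' (u + u') + Q b' u + Q b' u' + sm (b' (β4 u u')) ε) : False := by
  let F : ℕ → E := fun k => Q (fm (mt (k / 16))) (vec (k % 16))
  have hF : ∀ n k, k < 16 → F (16 * n + k) = Q (fm (mt n)) (vec k) := by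
    intro n k hk
    have h1 : (16 * n + k) / 16 = n := by omega
    have h2 : (16 * n + k) % 16 = k := by omega
    change Q (fm (mt ((16 * n + k) / 16))) (vec ((16 * n + k) % 16)) = _
    rw [h1, h2]
  have hcell : ∀ c ∈ cells, ((keys c).map F).sum = sm (rc c) ε := by
    intro c hc
    obtain ⟨h1, h2, h3, h4, h5, h6⟩ := cells_ok c hc
    obtain ⟨n, n', k, k'⟩ := c
    dsimp only at h1 h2 h3 h4 h5 h6
    have e := hQ (fm (mt n)) (fm (mt n')) (vec k) (vec k')
      (fm_Ku _ _ _ h1 h3) (fm_Ku _ _ _ h2 h4)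
    have h7 : k ^^^ k' < 16 := Nat.xor_lt_two_pow (n := 4) h5 h6
    simp only [keys, List.map_cons, List.map_nil, List.sum_cons, List.sum_nil]
    rw [hF n _ h7, hF n k h5, hF n k' h6, hF n' _ h7, hF n' k h5, hF n' k' h6, vec_xor]
    rw [fm_β4, fm_β4] at e
    rw [← vec_xor] at e ⊢
    change _ = sm (bil (mt n) (vec k) (vec k') + bil (mt n') (vec k) (vec k')) ε
    rw [← sm_add hE]
    generalize sm (bil (mt n) (vec k) (vec k')) ε = s at e ⊢
    generalize sm (bil (mt n') (vec k) (vec k')) ε = s' at e ⊢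
    generalize Q (fm (mt n)) (vec (k ^^^ k')) = A at e ⊢
    generalize Q (fm (mt n)) (vec k) = B at e ⊢
    generalize Q (fm (mt n)) (vec k') = C at e ⊢
    generalize Q (fm (mt n')) (vec (k ^^^ k')) = A' at e ⊢
    generalize Q (fm (mt n')) (vec k) = B' at e ⊢
    generalize Q (fm (mt n')) (vec k') = C' at e ⊢
    have f1 : A + (B + (C + (A' + (B' + (C' + 0))))) = (A + B + C + s) + (A' + B' + C' + s')
        - (s + s') := by abel
    rw [f1, e, hE, zero_sub, neg_self_of_two hE]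
  have hsum : ∀ l : List (ℕ × ℕ × ℕ × ℕ), (∀ c ∈ l, ((keys c).map F).sum = sm (rc c) ε) →
      ((l.flatMap keys).map F).sum = sm ((l.map rc).sum) ε := by
    intro l
    induction l with
    | nil => intro _; simp [sm]
    | cons c l ih =>
      intro h
      rw [List.flatMap_cons, List.map_append, List.sum_append, List.map_cons, List.sum_cons,
        ih (fun c hc => h c (List.mem_cons_of_mem _ hc)), h c List.mem_cons_self, sm_add hE]
  have h1 := hsum cells hcell
  rw [even_sum hE F _ cells_even, cells_sum] at h1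
  apply hε
  rw [h1]
  simp [sm]

end Pool.Agent.Helper4.Lin
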