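import Mathlib

set_option autoImplicit false

open MvPolynomial

namespace Pool.Agent.Helper4.RittAnomaly

/-- The ring of differential polynomials in two differential variables over `ℚ`:
`X (false, n)` is the `n`-th derivative of `b`, `X (true, n)` the `n`-th derivative of `c`. -/
abbrev R := MvPolynomial (Bool × ℕ) ℚ

noncomputable def DQ : Derivation ℚ R R :=
  MvPolynomial.mkDerivation ℚ (fun i => (X (i.1, i.2 + 1) : R))

noncomputable def b (n : ℕ) : R := X (false, n)
noncomputable def c (n : ℕ) : R := X (true, n)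

lemma DQ_X (i : Bool × ℕ) : DQ (X i : R) = X (i.1, i.2 + 1) := by
  simp [DQ, mkDerivation_X]

@[simp] lemma DQ_b (n : ℕ) : DQ (b n) = b (n + 1) := DQ_X _
@[simp] lemma DQ_c (n : ℕ) : DQ (c n) = c (n + 1) := DQ_X _

noncomputable def gx : R := c 0 * b 1
noncomputable def gy : R := b 0 * (c 0 * b 1)
noncomputable def gz : R := c 0 ^ 2 * (b 0 ^ 6 - 1)

lemma DQ_gx : DQ gx = c 1 * b 1 + c 0 * b 2 := by
  simp only [gx, Derivation.leibniz, DQ_b, DQ_c, smul_eq_mul]; ring

lemma DQ_gy : DQ gy = b 1 * (c 0 * b 1) + b 0 * (c 1 * b 1 + c 0 * b 2) := by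
  simp only [gy, Derivation.leibniz, DQ_b, DQ_c, smul_eq_mul]; ring

lemma DQ_gz : DQ gz = 2 * c 0 * c 1 * (b 0 ^ 6 - 1) + c 0 ^ 2 * (6 * b 0 ^ 5 * b 1) := by
  simp only [gz, Derivation.leibniz, Derivation.leibniz_pow, map_sub, DQ_b, DQ_c, smul_eq_mul,
    Derivation.map_one_eq_zero, nsmul_eq_mul]
  push_cast
  ring

lemma DQ_DQ_gx : DQ (DQ gx) = c 2 * b 1 + 2 * c 1 * b 2 + c 0 * b 3 := by
  rw [DQ_gx]
  simp only [map_add, Derivation.leibniz, DQ_b, DQ_c, smul_eq_mul]; ring

lemma DQ_DQ_gy : DQ (DQ gy) = b 2 * (c 0 * b 1) + 2 * b 1 * (c 1 * b 1 + c 0 * b 2)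
    + b 0 * (c 2 * b 1 + 2 * c 1 * b 2 + c 0 * b 3) := by
  rw [DQ_gy]
  simp only [map_add, Derivation.leibniz, DQ_b, DQ_c, smul_eq_mul]; ring

lemma key_y : 6 * gy ^ 5 = (gx * (gx * DQ gy - DQ gx * gy)) * DQ gz +
    (2 * gx * (gx * DQ (DQ gy) - DQ (DQ gx) * gy) - 6 * (gx * DQ gy - DQ gx * gy) * DQ gx) * gz := by
  rw [DQ_DQ_gx, DQ_DQ_gy, DQ_gx, DQ_gy, DQ_gz]
  simp only [gx, gy, gz]
  ring

lemma key_x : 6 * gx ^ 5 = (gy * (gx * DQ gy - DQ gx * gy)) * DQ gz +
    (2 * gy * (gx * DQ (DQ gy) - DQ (DQ gx) * gy) - 6 * (gx * DQ gy - DQ gx * gy) * DQ gy) * gz := by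
  rw [DQ_DQ_gx, DQ_DQ_gy, DQ_gx, DQ_gy, DQ_gz]
  simp only [gx, gy, gz]
  ring

/-! ### The differential subalgebra generated by `x, y, z` -/

noncomputable def gen : Fin 3 → R := ![gx, gy, gz]

def genset : Set R := {p | ∃ (i : Fin 3) (n : ℕ), p = (⇑DQ)^[n] (gen i)}

noncomputable def A : Subalgebra ℚ R := Algebra.adjoin ℚ genset

lemma gen_mem (i : Fin 3) (n : ℕ) : (⇑DQ)^[n] (gen i) ∈ A :=
  Algebra.subset_adjoin ⟨i, n, rfl⟩

lemma DQ_mem {p : R} (hp : p ∈ A) : DQ p ∈ A := by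
  induction hp using Algebra.adjoin_induction with
  | mem x hx =>
    obtain ⟨i, n, rfl⟩ := hx
    rw [← Function.iterate_succ_apply' (⇑DQ)]
    exact gen_mem i (n + 1)
  | algebraMap r => simp
  | add x y _ _ hx hy => rw [map_add]; exact A.add_mem hx hy
  | mul x y hx' hy' hx hy =>
    rw [Derivation.leibniz, smul_eq_mul, smul_eq_mul]
    exact A.add_mem (A.mul_mem hx' hy) (A.mul_mem hy' hx)

noncomputable instance instDiffA : Differential A where
  deriv := Derivation.mk'
    (AddMonoidHom.toIntLinearMap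
      { toFun := fun p => (⟨DQ p.1, DQ_mem p.2⟩ : A)
        map_zero' := by ext; simp
        map_add' := by intro p q; ext; simp })
    (by
      intro p q
      apply Subtype.ext
      simp)

lemma coe_deriv (p : A) : (((Differential.deriv : Derivation ℤ A A) p : A) : R) = DQ (p : R) := rfl

lemma coe_deriv_iter (p : A) (n : ℕ) :
    (((⇑(Differential.deriv : Derivation ℤ A A))^[n] p : A) : R) = (⇑DQ)^[n] (p : R) := by
  induction n with
  | zero => rfl
  | succ n ih => rw [Function.iterate_succ_apply', Function.iterate_succ_apply', coe_deriv, ih]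

noncomputable def a (i : Fin 3) : A := ⟨gen i, gen_mem i 0⟩

/-! ### The radical of a differential ideal is differential -/

lemma radical_aux {B : Type} [CommRing B] [Algebra ℚ B] (δ : Derivation ℤ B B) (I : Ideal B)
    (hI : ∀ x ∈ I, δ x ∈ I) (u : B) :
    ∀ (k m : ℕ), u ^ k * (δ u) ^ m ∈ I → (δ u) ^ (m + 2 * k) ∈ I := by
  intro k
  induction k with
  | zero => intro m h; simpa using h
  | succ k ih =>
    intro m h
    have h1 : δ (u ^ (k + 1) * (δ u) ^ m) * δ u ∈ I := I.mul_mem_right _ (hI _ h)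
    have h2 : u ^ k * (δ u) ^ (m + 2) ∈ I := by
      have e : δ (u ^ (k + 1) * (δ u) ^ m) * δ u
          = ((k : B) + 1) * (u ^ k * (δ u) ^ (m + 2))
            + (u ^ (k + 1) * (δ u) ^ m) * (m * δ (δ u)) := by
        rw [Derivation.leibniz, Derivation.leibniz_pow, Derivation.leibniz_pow]
        simp only [smul_eq_mul, nsmul_eq_mul, Nat.add_sub_cancel]
        cases m with
        | zero => simp; ring
        | succ m => simp only [Nat.add_sub_cancel]; push_cast; ring
      rw [e] at h1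
      have h3 : ((k : B) + 1) * (u ^ k * (δ u) ^ (m + 2)) ∈ I := by
        have h4 := I.mul_mem_right (m * δ (δ u)) h
        have := I.sub_mem h1 h4
        simpa using this
      have h5 := I.mul_mem_left (algebraMap ℚ B ((k + 1 : ℚ)⁻¹)) h3
      have e2 : algebraMap ℚ B ((k + 1 : ℚ)⁻¹) * (((k : B) + 1) * (u ^ k * (δ u) ^ (m + 2)))
          = u ^ k * (δ u) ^ (m + 2) := by
        have : ((k : B) + 1) = algebraMap ℚ B (k + 1 : ℚ) := by simp
        rw [this, ← mul_assoc, ← map_mul, inv_mul_cancel₀ (by positivity), map_one, one_mul]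
      rwa [e2] at h5
    have h6 := ih (m + 2) h2
    have e3 : m + 2 + 2 * k = m + 2 * (k + 1) := by ring
    rwa [e3] at h6

lemma deriv_mem_radical {B : Type} [CommRing B] [Algebra ℚ B] (δ : Derivation ℤ B B) (I : Ideal B)
    (hI : ∀ x ∈ I, δ x ∈ I) {u : B} (hu : u ∈ I.radical) : δ u ∈ I.radical := by
  obtain ⟨n, hn⟩ := hu
  refine ⟨0 + 2 * n, radical_aux δ I hI u n 0 ?_⟩
  simpa using hn

lemma iter_mem_radical {B : Type} [CommRing B] [Algebra ℚ B] (δ : Derivation ℤ B B) (I : Ideal B)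
    (hI : ∀ x ∈ I, δ x ∈ I) {u : B} (hu : u ∈ I.radical) (n : ℕ) : (⇑δ)^[n] u ∈ I.radical := by
  induction n with
  | zero => exact hu
  | succ n ih => rw [Function.iterate_succ_apply']; exact deriv_mem_radical δ I hI ih

/-- The ideal spanned by the iterated derivatives of one element is differential. -/
lemma span_iter_diff {B : Type} [CommRing B] (δ : Derivation ℤ B B) (f : B) :
    ∀ x ∈ Ideal.span (Set.range (fun n : ℕ => (⇑δ)^[n] f)),
      δ x ∈ Ideal.span (Set.range (fun n : ℕ => (⇑δ)^[n] f)) := by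
  intro x hx
  induction hx using Submodule.span_induction with
  | mem x hx =>
    obtain ⟨n, rfl⟩ := hx
    apply Ideal.subset_span
    exact ⟨n + 1, by simp only [Function.iterate_succ_apply']⟩
  | zero => simp
  | add x y _ _ hx hy => rw [map_add]; exact Ideal.add_mem _ hx hy
  | smul r x hx' hx =>
    rw [smul_eq_mul, Derivation.leibniz, smul_eq_mul, smul_eq_mul]
    exact Ideal.add_mem _ (Ideal.mul_mem_left _ _ hx) (Ideal.mul_mem_right _ _ hx')

/-! ### The minimal prime -/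

noncomputable def I : Ideal A :=
  Ideal.span (Set.range (fun n : ℕ => (⇑(Differential.deriv : Derivation ℤ A A))^[n] (a 2)))

lemma mem_I (n : ℕ) : (⇑(Differential.deriv : Derivation ℤ A A))^[n] (a 2) ∈ I :=
  Ideal.subset_span ⟨n, rfl⟩

lemma a2_mem : a 2 ∈ I := mem_I 0
lemma da2_mem : (Differential.deriv : Derivation ℤ A A) (a 2) ∈ I := mem_I 1

lemma key_y' : (6 : A) * (a 1) ^ 5 ∈ I := by
  set d := (Differential.deriv : Derivation ℤ A A) with hd
  have h : (6 : A) * (a 1) ^ 5 = (a 0 * (a 0 * d (a 1) - d (a 0) * a 1)) * d (a 2) +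
    (2 * a 0 * (a 0 * d (d (a 1)) - d (d (a 0)) * a 1)
      - 6 * (a 0 * d (a 1) - d (a 0) * a 1) * d (a 0)) * a 2 := by
    apply Subtype.ext
    exact key_y
  rw [h]
  exact I.add_mem (I.mul_mem_left _ da2_mem) (I.mul_mem_left _ a2_mem)

lemma key_x' : (6 : A) * (a 0) ^ 5 ∈ I := by
  set d := (Differential.deriv : Derivation ℤ A A) with hd
  have h : (6 : A) * (a 0) ^ 5 = (a 1 * (a 0 * d (a 1) - d (a 0) * a 1)) * d (a 2) +
    (2 * a 1 * (a 0 * d (d (a 1)) - d (d (a 0)) * a 1)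
      - 6 * (a 0 * d (a 1) - d (a 0) * a 1) * d (a 1)) * a 2 := by
    apply Subtype.ext
    exact key_x
  rw [h]
  exact I.add_mem (I.mul_mem_left _ da2_mem) (I.mul_mem_left _ a2_mem)

lemma pow_mem_of_six {u : A} (h : (6 : A) * u ^ 5 ∈ I) : u ∈ I.radical := by
  refine ⟨5, ?_⟩
  have h5 := I.mul_mem_left (algebraMap ℚ A ((6 : ℚ)⁻¹)) h
  have : algebraMap ℚ A ((6 : ℚ)⁻¹) * ((6 : A) * u ^ 5) = u ^ 5 := by
    have e : (6 : A) = algebraMap ℚ A (6 : ℚ) := (map_ofNat (algebraMap ℚ A) 6).symm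
    rw [e, ← mul_assoc, ← map_mul, inv_mul_cancel₀ (by norm_num), map_one, one_mul]
  rwa [this] at h5

lemma a_mem_radical (i : Fin 3) : a i ∈ I.radical := by
  fin_cases i
  · exact pow_mem_of_six key_x'
  · exact pow_mem_of_six key_y'
  · exact Ideal.le_radical a2_mem

lemma a_iter_mem_radical (i : Fin 3) (n : ℕ) :
    (⇑(Differential.deriv : Derivation ℤ A A))^[n] (a i) ∈ I.radical :=
  iter_mem_radical _ I (span_iter_diff _ _) (a_mem_radical i) n

/-- Augmentation `R → ℚ`. -/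
noncomputable def ε : R →ₐ[ℚ] ℚ := MvPolynomial.aeval (fun _ => (0 : ℚ))

noncomputable def εA : A →ₐ[ℚ] ℚ := ε.comp A.val

/-- If `p` is in the augmentation ideal then so are all its derivatives. -/
lemma ε_iter_zero {p : R} (hp : p ∈ Ideal.span (Set.range (X : Bool × ℕ → R))) (n : ℕ) :
    ε ((⇑DQ)^[n] p) = 0 := by
  have h1 : ∀ q ∈ Ideal.span (Set.range (X : Bool × ℕ → R)),
      DQ q ∈ Ideal.span (Set.range (X : Bool × ℕ → R)) := by
    intro q hq
    induction hq using Submodule.span_induction with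
    | mem x hx =>
      obtain ⟨i, rfl⟩ := hx
      rw [DQ_X]
      exact Ideal.subset_span ⟨_, rfl⟩
    | zero => simp
    | add x y _ _ hx hy => rw [map_add]; exact Ideal.add_mem _ hx hy
    | smul r x hx' hx =>
      rw [smul_eq_mul, Derivation.leibniz, smul_eq_mul, smul_eq_mul]
      exact Ideal.add_mem _ (Ideal.mul_mem_left _ _ hx) (Ideal.mul_mem_right _ _ hx')
  have h2 : ∀ n, (⇑DQ)^[n] p ∈ Ideal.span (Set.range (X : Bool × ℕ → R)) := by
    intro n
    induction n with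
    | zero => exact hp
    | succ n ih => rw [Function.iterate_succ_apply']; exact h1 _ ih
  have h3 : ∀ q ∈ Ideal.span (Set.range (X : Bool × ℕ → R)), ε q = 0 := by
    intro q hq
    induction hq using Submodule.span_induction with
    | mem x hx =>
      obtain ⟨i, rfl⟩ := hx
      simp [ε]
    | zero => simp
    | add x y _ _ hx hy => rw [map_add, hx, hy, add_zero]
    | smul r x hx' hx => rw [smul_eq_mul, map_mul, hx, mul_zero]
  exact h3 _ (h2 n)

lemma gen_mem_span (i : Fin 3) : gen i ∈ Ideal.span (Set.range (X : Bool × ℕ → R)) := by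
  have hX : ∀ j, (X j : R) ∈ Ideal.span (Set.range (X : Bool × ℕ → R)) :=
    fun j => Ideal.subset_span ⟨j, rfl⟩
  fin_cases i
  · exact Ideal.mul_mem_left _ _ (hX _)
  · exact Ideal.mul_mem_left _ _ (Ideal.mul_mem_left _ _ (hX _))
  · change c 0 ^ 2 * (b 0 ^ 6 - 1) ∈ _
    rw [pow_two, mul_assoc]
    exact Ideal.mul_mem_right _ _ (hX _)

lemma ε_gen (i : Fin 3) (n : ℕ) : ε ((⇑DQ)^[n] (gen i)) = 0 :=
  ε_iter_zero (gen_mem_span i) n

noncomputable def M : Ideal A := RingHom.ker εA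

instance : M.IsPrime := RingHom.ker_isPrime εA

lemma I_le_M : I ≤ M := by
  rw [I, Ideal.span_le]
  rintro _ ⟨n, rfl⟩
  change εA _ = 0
  change ε (((⇑(Differential.deriv : Derivation ℤ A A))^[n] (a 2) : A) : R) = 0
  rw [coe_deriv_iter]
  exact ε_gen 2 n

lemma sub_mem_radical (p : R) (hp : p ∈ A) :
    (⟨p, hp⟩ : A) - algebraMap ℚ A (ε p) ∈ I.radical := by
  induction hp using Algebra.adjoin_induction with
  | mem x hx =>
    obtain ⟨i, n, rfl⟩ := hx
    rw [ε_gen, map_zero, sub_zero]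
    have h1 := a_iter_mem_radical i n
    have h2 : (⟨(⇑DQ)^[n] (gen i), gen_mem i n⟩ : A)
        = (⇑(Differential.deriv : Derivation ℤ A A))^[n] (a i) :=
      Subtype.ext (coe_deriv_iter (a i) n).symm
    exact h2 ▸ h1
  | algebraMap r =>
    have : (⟨(algebraMap ℚ R) r, A.algebraMap_mem r⟩ : A) - algebraMap ℚ A (ε ((algebraMap ℚ R) r)) = 0 := by
      rw [AlgHom.commutes]
      apply Subtype.ext
      simp
    exact this ▸ Ideal.zero_mem _
  | add x y hx' hy' hx hy =>
    have := Ideal.add_mem _ hx hy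
    convert this using 1
    rw [map_add, map_add]
    apply Subtype.ext
    simp only [AddSubgroupClass.coe_sub, AddMemClass.coe_add]
    ring
  | mul x y hx' hy' hx hy =>
    have e : (⟨x * y, A.mul_mem hx' hy'⟩ : A) - algebraMap ℚ A (ε (x * y))
      = (⟨x, hx'⟩ : A) * ((⟨y, hy'⟩ : A) - algebraMap ℚ A (ε y))
        + algebraMap ℚ A (ε y) * ((⟨x, hx'⟩ : A) - algebraMap ℚ A (ε x)) := by
      rw [map_mul, map_mul]
      apply Subtype.ext
      simp only [AddSubgroupClass.coe_sub, AddMemClass.coe_add, MulMemClass.coe_mul]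
      ring
    rw [e]
    exact Ideal.add_mem _ (Ideal.mul_mem_left _ _ hy) (Ideal.mul_mem_left _ _ hx)

lemma M_le_radical : M ≤ I.radical := by
  rintro ⟨p, hp⟩ hM
  have h : ε p = 0 := hM
  have := sub_mem_radical p hp
  rwa [h, map_zero, sub_zero] at this

lemma M_mem_minimalPrimes : M ∈ I.minimalPrimes := by
  refine ⟨⟨inferInstance, I_le_M⟩, ?_⟩
  rintro q ⟨hq, hIq⟩ _
  exact M_le_radical.trans ((Ideal.IsPrime.radical_le_iff hq).2 hIq)

end Pool.Agent.Helper4.RittAnomaly
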