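import Mathlib
import Pool.Agent.Helper4.RittAnomaly

set_option autoImplicit false

open MvPolynomial

namespace Pool.Agent.Helper4.RittAnomaly

/-! ### Differential independence of `x` and `y` -/

/-- a big field -/
abbrev κ := FractionRing R

abbrev T := PowerSeries κ

noncomputable def d : Derivation κ T T := PowerSeries.derivative κ

noncomputable def ξ (i : Bool) (n : ℕ) : κ := algebraMap R κ (X (i, n))

noncomputable def ser (i : Bool) : T := PowerSeries.mk (fun n => ξ i n / (n.factorial : κ))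

lemma cc_iter_ser (i : Bool) (n : ℕ) :
    PowerSeries.constantCoeff ((⇑d)^[n] (ser i)) = ξ i n := by
  rw [d, PowerSeries.constantCoeff_iterate_derivative, ser, PowerSeries.coeff_mk]
  have : ((n.factorial : ℕ) : κ) ≠ 0 := by exact_mod_cast n.factorial_ne_zero
  field_simp

lemma ξ_ne_zero (i : Bool) (n : ℕ) : ξ i n ≠ 0 := by
  rw [ξ, Ne, FaithfulSMul.algebraMap_eq_zero_iff]
  exact MvPolynomial.X_ne_zero _

lemma cross_ne : ξ false 1 * ξ true 0 ≠ ξ true 1 * ξ false 0 := by
  intro h
  simp only [ξ, ← map_mul] at h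
  have h2 := (FaithfulSMul.algebraMap_injective R κ) h
  have h3 := congrArg (MvPolynomial.eval (fun i : Bool × ℕ =>
    if i = (false, 1) ∨ i = (true, 0) then (1 : ℚ) else 0)) h2
  simp at h3

noncomputable def β : T := ser true * (ser false)⁻¹

lemma cc_ser (i : Bool) : PowerSeries.constantCoeff (ser i) = ξ i 0 := cc_iter_ser i 0
lemma cc_dser (i : Bool) : PowerSeries.constantCoeff (d (ser i)) = ξ i 1 := cc_iter_ser i 1

lemma β_mul : β * ser false = ser true := by
  rw [β, mul_assoc, PowerSeries.inv_mul_cancel, mul_one]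
  rw [cc_ser]; exact ξ_ne_zero _ _

lemma cc_dβ : PowerSeries.constantCoeff (d β) ≠ 0 := by
  intro h
  have h1 := congrArg d β_mul
  rw [Derivation.leibniz, smul_eq_mul, smul_eq_mul] at h1
  have h2 := congrArg PowerSeries.constantCoeff h1
  rw [map_add, map_mul, map_mul, h, mul_zero, add_zero, cc_dser, cc_dser] at h2
  have h3 := congrArg PowerSeries.constantCoeff β_mul
  rw [map_mul, cc_ser, cc_ser] at h3
  apply cross_ne
  rw [← h2, ← h3]; ring

noncomputable def γ : T := ser false * (d β)⁻¹

lemma γ_mul : γ * d β = ser false := by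
  rw [γ, mul_assoc, PowerSeries.inv_mul_cancel _ cc_dβ, mul_one]

noncomputable def Φ : R →ₐ[ℚ] T :=
  MvPolynomial.aeval (fun i => (⇑d)^[i.2] (if i.1 then γ else β))

lemma Φ_b (n : ℕ) : Φ (b n) = (⇑d)^[n] β := by simp [Φ, b]
lemma Φ_c (n : ℕ) : Φ (c n) = (⇑d)^[n] γ := by simp [Φ, c]

lemma Φ_DQ (p : R) : Φ (DQ p) = d (Φ p) := by
  induction p using MvPolynomial.induction_on with
  | C q =>
    have h1 : DQ (C q : R) = 0 := by
      rw [← MvPolynomial.algebraMap_eq]; exact Derivation.map_algebraMap _ _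
    have h2 : Φ (C q : R) = algebraMap ℚ T q := by
      rw [← MvPolynomial.algebraMap_eq]; exact Φ.commutes q
    rw [h1, h2, map_zero, IsScalarTower.algebraMap_apply ℚ κ T, Derivation.map_algebraMap]
  | add p q hp hq => simp only [map_add, hp, hq]
  | mul_X p i hp =>
    rw [Derivation.leibniz, DQ_X, map_mul, Derivation.leibniz]
    simp only [smul_eq_mul, map_add, map_mul, hp]
    congr 1
    congr 1
    simp only [Φ, aeval_X]
    rw [Function.iterate_succ_apply']

lemma Φ_iter (p : R) (n : ℕ) : Φ ((⇑DQ)^[n] p) = (⇑d)^[n] (Φ p) := by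
  induction n with
  | zero => rfl
  | succ n ih => rw [Function.iterate_succ_apply', Function.iterate_succ_apply', Φ_DQ, ih]

lemma Φ_gx : Φ gx = ser false := by
  rw [gx, map_mul, Φ_b, Φ_c]; exact γ_mul

lemma Φ_gy : Φ gy = ser true := by
  rw [gy, map_mul, ← gx, Φ_gx, Φ_b]; exact β_mul

/-- all the derivatives of `x` and `y`. -/
noncomputable def u (i : Bool × ℕ) : R := (⇑DQ)^[i.2] (if i.1 then gy else gx)

lemma cc_Φ_u (i : Bool × ℕ) :
    PowerSeries.constantCoeff (Φ (u i)) = algebraMap R κ (X i) := by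
  obtain ⟨i, n⟩ := i
  cases i
  · simp only [u, Φ_iter]
    simp only [Bool.false_eq_true, if_false, Φ_gx, cc_iter_ser, ξ]
  · simp only [u, Φ_iter]
    simp only [if_true, Φ_gy, cc_iter_ser, ξ]

lemma u_indep : AlgebraicIndependent ℚ u := by
  rw [algebraicIndependent_iff_injective_aeval]
  have h : ∀ p : R, PowerSeries.constantCoeff (Φ (MvPolynomial.aeval u p)) = algebraMap R κ p := by
    intro p
    induction p using MvPolynomial.induction_on with
    | C q =>
      rw [← MvPolynomial.algebraMap_eq, AlgHom.commutes, AlgHom.commutes,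
        IsScalarTower.algebraMap_apply ℚ κ T, ← IsScalarTower.algebraMap_apply ℚ R κ]
      exact PowerSeries.constantCoeff_C _
    | add p q hp hq => simp only [map_add, hp, hq]
    | mul_X p i hp => simp only [map_mul, hp, aeval_X, cc_Φ_u]
  intro p q hpq
  apply FaithfulSMul.algebraMap_injective R κ
  rw [← h p, ← h q]
  rw [hpq]

lemma gx_ne_gy : gx ≠ gy := by
  intro h
  have := congrArg Φ h
  rw [Φ_gx, Φ_gy] at this
  have h2 := congrArg PowerSeries.constantCoeff this
  rw [cc_ser, cc_ser, ξ, ξ] at h2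
  have h3 := (FaithfulSMul.algebraMap_injective R κ) h2
  have h4 := MvPolynomial.X_injective (R := ℚ) h3
  simp at h4

lemma a0_ne_a1 : a 0 ≠ a 1 := fun h => gx_ne_gy (congrArg Subtype.val h)

open Classical in
/-- The two differentially independent elements. -/
noncomputable def S2 : Finset A := {a 0, a 1}

lemma S2_card : S2.card = 2 := Finset.card_pair a0_ne_a1

open Classical in
lemma S2_indep : AlgebraicIndependent ℚ (fun p : S2 × ℕ =>
    (⇑(Differential.deriv : Derivation ℤ A A))^[p.2] (p.1 : A)) := by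
  apply AlgebraicIndependent.of_comp A.val
  let f : S2 × ℕ → Bool × ℕ := fun p => (decide ((p.1 : A) = a 1), p.2)
  have hf : Function.Injective f := by
    rintro ⟨⟨s, hs⟩, n⟩ ⟨⟨t, ht⟩, m⟩ h
    simp only [f, Prod.mk.injEq] at h
    obtain ⟨h1, h2⟩ := h
    simp only [S2, Finset.mem_insert, Finset.mem_singleton] at hs ht
    have h3 : (s = a 1) ↔ (t = a 1) := by simpa using h1
    have : s = t := by
      rcases hs with rfl | rfl
      · rcases ht with rfl | rfl
        · rfl
        · exact h3.2 rfl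
      · exact (h3.1 rfl).symm
    subst this
    subst h2
    rfl
  have := u_indep.comp f hf
  convert this using 1
  funext p
  obtain ⟨⟨s, hs⟩, n⟩ := p
  simp only [S2, Finset.mem_insert, Finset.mem_singleton] at hs
  simp only [Function.comp_apply, f, u]
  change (((⇑(Differential.deriv : Derivation ℤ A A))^[n] s : A) : R) = _
  rw [coe_deriv_iter]
  congr 1
  rcases hs with rfl | rfl
  · rw [decide_eq_false a0_ne_a1]; rfl
  · rw [decide_eq_true rfl]; rfl

/-! ### Finite generation -/

open Classical in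
noncomputable def S3 : Finset A := {a 0, a 1, a 2}

lemma a_mem_S3 (i : Fin 3) : a i ∈ S3 := by
  classical
  fin_cases i <;> simp [S3]

lemma adjoin_S3 : Algebra.adjoin ℚ
    (Set.range (fun p : S3 × ℕ =>
      (⇑(Differential.deriv : Derivation ℤ A A))^[p.2] (p.1 : A))) = ⊤ := by
  rw [eq_top_iff]
  rintro ⟨p, hp⟩ -
  have : ∀ p (hp : p ∈ A), (⟨p, hp⟩ : A) ∈ Algebra.adjoin ℚ
    (Set.range (fun p : S3 × ℕ =>
      (⇑(Differential.deriv : Derivation ℤ A A))^[p.2] (p.1 : A))) := by
    intro p hp
    induction hp using Algebra.adjoin_induction with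
    | mem x hx =>
      obtain ⟨i, n, rfl⟩ := hx
      apply Algebra.subset_adjoin
      refine ⟨⟨⟨a i, a_mem_S3 i⟩, n⟩, ?_⟩
      exact Subtype.ext (coe_deriv_iter (a i) n)
    | algebraMap r => exact Subalgebra.algebraMap_mem _ r
    | add x y hx' hy' hx hy =>
      have e : (⟨x + y, A.add_mem hx' hy'⟩ : A) = (⟨x, hx'⟩ : A) + (⟨y, hy'⟩ : A) :=
        Subtype.ext (by rw [AddMemClass.coe_add])
      rw [e]; exact Subalgebra.add_mem _ hx hy
    | mul x y hx' hy' hx hy =>
      have e : (⟨x * y, A.mul_mem hx' hy'⟩ : A) = (⟨x, hx'⟩ : A) * (⟨y, hy'⟩ : A) :=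
        Subtype.ext (by rw [MulMemClass.coe_mul])
      rw [e]; exact Subalgebra.mul_mem _ hx hy
  exact this p hp

/-! ### Non-unit -/

lemma a2_not_unit : ¬ IsUnit (a 2) := by
  intro h
  have h2 : a 2 ∈ M := I_le_M a2_mem
  exact (inferInstance : M.IsPrime).ne_top (Ideal.eq_top_of_isUnit_mem _ h2 h)

/-! ### Every element of `A` is algebraic modulo `M` -/

lemma mk_eq (p : A) : Ideal.Quotient.mk M p = algebraMap ℚ (A ⧸ M) (ε (p : R)) := by
  have h : Ideal.Quotient.mk M p = Ideal.Quotient.mk M (algebraMap ℚ A (ε (p : R))) := by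
    rw [Ideal.Quotient.eq]
    change εA (p - algebraMap ℚ A (ε (p : R))) = 0
    rw [map_sub, AlgHom.commutes]
    change ε (p : R) - ε (p : R) = 0
    ring
  rw [h]; rfl

lemma not_indep (T : Finset A) (hT : 2 ≤ T.card + 1) :
    ¬ AlgebraicIndependent ℚ (fun p : T × ℕ =>
            Ideal.Quotient.mk M
              ((⇑(Differential.deriv : Derivation ℤ A A))^[p.2] (p.1 : A))) := by
  intro h
  have hne : T.Nonempty := by
    rw [← Finset.card_pos]; omega
  obtain ⟨t, ht⟩ := hne
  have h2 := h.transcendental (⟨t, ht⟩, 0)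
  apply h2
  rw [mk_eq]
  exact isAlgebraic_algebraMap _

/-- `ℚ` with the trivial derivation. -/
noncomputable instance instDiffQ : Differential ℚ := ⟨0⟩

lemma compat (k : ℚ) : (Differential.deriv : Derivation ℤ A A) (algebraMap ℚ A k)
          = algebraMap ℚ A ((Differential.deriv : Derivation ℤ ℚ ℚ) k) := by
  have h : (Differential.deriv : Derivation ℤ ℚ ℚ) k = 0 := rfl
  rw [h, map_zero]
  apply Subtype.ext
  rw [coe_deriv]
  exact Derivation.map_algebraMap DQ k

end Pool.Agent.Helper4.RittAnomaly
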