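import Mathlib

/-! Definitions for the approximation order of the `C^1` cubic splines on mixed three-direction
meshes. -/

namespace Helper4.MixedMesh

open scoped ENNReal NNReal

/-- The closed grid square `[ih,(i+1)h] × [jh,(j+1)h]`. -/
def square (h : ℝ) (i j : ℤ) : Set (ℝ × ℝ) :=
  {z | i * h ≤ z.1 ∧ z.1 ≤ (i + 1) * h ∧ j * h ≤ z.2 ∧ z.2 ≤ (j + 1) * h}

/-- `τ` is a triangle of the mixed three-direction mesh of spacing `h` with pattern `σ`.
Here `σ i j = true` means that the square `(i,j)` is an NE-square (cut by its diagonal of positive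
slope) and `σ i j = false` that it is an NW-square. -/
def IsTriangle (σ : ℤ → ℤ → Bool) (h : ℝ) (τ : Set (ℝ × ℝ)) : Prop :=
  ∃ i j : ℤ,
    (σ i j = true ∧
      (τ = {z | z ∈ square h i j ∧ z.2 - j * h ≤ z.1 - i * h} ∨
        τ = {z | z ∈ square h i j ∧ z.1 - i * h ≤ z.2 - j * h})) ∨
    (σ i j = false ∧
      (τ = {z | z ∈ square h i j ∧ (z.1 - i * h) + (z.2 - j * h) ≤ h} ∨
        τ = {z | z ∈ square h i j ∧ h ≤ (z.1 - i * h) + (z.2 - j * h)}))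

/-- The space `S_3^1(Δ_h)`: functions of class `C^1` on the plane which coincide on each triangle of
the mesh with a polynomial of total degree at most `3`. -/
def splineSpace (σ : ℤ → ℤ → Bool) (h : ℝ) : Set (ℝ × ℝ → ℝ) :=
  {s | ContDiff ℝ 1 s ∧ ∀ τ : Set (ℝ × ℝ), IsTriangle σ h τ →
    ∃ p : MvPolynomial (Fin 2) ℝ, p.totalDegree ≤ 3 ∧
      ∀ z ∈ τ, s z = MvPolynomial.eval ![z.1, z.2] p}

/-- Distance of `f` to `S` in the maximum norm on the plane (possibly infinite). -/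
noncomputable def supDist (f : ℝ × ℝ → ℝ) (S : Set (ℝ × ℝ → ℝ)) : ℝ≥0∞ :=
  ⨅ s ∈ S, ⨆ z : ℝ × ℝ, ENNReal.ofReal |f z - s z|

/-- The maximum norm on the plane of the fourth derivative (possibly infinite). -/
noncomputable def supNormD4 (f : ℝ × ℝ → ℝ) : ℝ≥0∞ :=
  ⨆ z : ℝ × ℝ, ENNReal.ofReal ‖iteratedFDeriv ℝ 4 f z‖

/-- `dist(f, S_3^1(Δ_h)) ≤ C ‖D⁴ f‖ |Δ_h|^ρ` for all functions `f` of class `C^n` and all small
`h`, with `C` independent of `h` and `f`; here `|Δ_h| = √2 h`. -/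
def HasApproxOrder (σ : ℤ → ℤ → Bool) (n : WithTop ℕ∞) (ρ : ℝ) : Prop :=
  ∃ (C : ℝ≥0) (h₀ : ℝ), 0 < h₀ ∧ ∀ h : ℝ, 0 < h → h < h₀ →
    ∀ f : ℝ × ℝ → ℝ, ContDiff ℝ n f →
      supDist f (splineSpace σ h) ≤ C * supNormD4 f * ENNReal.ofReal ((√2 * h) ^ ρ)

end Helper4.MixedMesh
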