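import Mathlib

/-! The C^1 cubic macro element on a diamond (square cut by its two diagonals), in coordinates
`X, Y` along the diagonals. -/

namespace Helper4.Spline

/-- 16 data: values and gradients at the four corners `(1,0),(0,1),(-1,0),(0,-1)` and normal
derivatives at the midpoints of the four edges. -/
structure Dat where
  v0 : ℝ
  x0 : ℝ
  y0 : ℝ
  v1 : ℝ
  x1 : ℝ
  y1 : ℝ
  v2 : ℝ
  x2 : ℝ
  y2 : ℝ
  v3 : ℝ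
  x3 : ℝ
  y3 : ℝ
  n0 : ℝ
  n1 : ℝ
  n2 : ℝ
  n3 : ℝ

namespace Dat

noncomputable def k1 (d : Dat) : ℝ :=
  (1/4) * d.v0 + (-1/24) * d.x0 + (1/4) * d.v1 + (-1/24) * d.y1 + (1/4) * d.v2 + (1/24) * d.x2 + (1/4) * d.v3 + (1/24) * d.y3 + (-1/12) * d.n0 + (-1/12) * d.n1 + (-1/12) * d.n2 + (-1/12) * d.n3

noncomputable def kX (d : Dat) : ℝ :=
  (3/4) * d.v0 + (-1/8) * d.x0 + (3/8) * d.x1 + (-3/4) * d.v2 + (-1/8) * d.x2 + (3/8) * d.x3 + (-1/4) * d.n0 + (1/4) * d.n1 + (1/4) * d.n2 + (-1/4) * d.n3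

noncomputable def kY (d : Dat) : ℝ :=
  (3/8) * d.y0 + (3/4) * d.v1 + (-1/8) * d.y1 + (3/8) * d.y2 + (-3/4) * d.v3 + (-1/8) * d.y3 + (-1/4) * d.n0 + (-1/4) * d.n1 + (1/4) * d.n2 + (1/4) * d.n3

noncomputable def kXX (d : Dat) : ℝ :=
  (3/4) * d.v0 + (-1/8) * d.x0 + (-3/4) * d.v1 + (3/4) * d.x1 + (1/8) * d.y1 + (3/4) * d.v2 + (5/8) * d.x2 + (-3/4) * d.v3 + (3/4) * d.x3 + (-1/8) * d.y3 + (-1/4) * d.n0 + (3/4) * d.n1 + (3/4) * d.n2 + (-1/4) * d.n3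

noncomputable def kXY (d : Dat) : ℝ :=
  (3/4) * d.y0 + (3/4) * d.x1 + (-3/4) * d.y2 + (-3/4) * d.x3 + (-1/2) * d.n0 + (1/2) * d.n1 + (-1/2) * d.n2 + (1/2) * d.n3

noncomputable def kYY (d : Dat) : ℝ :=
  (-3/4) * d.v0 + (1/8) * d.x0 + (3/4) * d.y0 + (3/4) * d.v1 + (-1/8) * d.y1 + (-3/4) * d.v2 + (-1/8) * d.x2 + (3/4) * d.y2 + (3/4) * d.v3 + (5/8) * d.y3 + (-1/4) * d.n0 + (-1/4) * d.n1 + (3/4) * d.n2 + (3/4) * d.n3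

noncomputable def kXXX (d : Dat) : ℝ :=
  (1/4) * d.v0 + (-1/24) * d.x0 + (-1/2) * d.v1 + (3/8) * d.x1 + (1/12) * d.y1 + (3/4) * d.v2 + (19/24) * d.x2 + (-1/2) * d.v3 + (3/8) * d.x3 + (-1/12) * d.y3 + (-1/12) * d.n0 + (5/12) * d.n1 + (5/12) * d.n2 + (-1/12) * d.n3

noncomputable def kXXY (d : Dat) : ℝ :=
  (3/8) * d.y0 + (-3/4) * d.v1 + (3/4) * d.x1 + (1/8) * d.y1 + (-1/8) * d.y2 + (3/4) * d.v3 + (-3/4) * d.x3 + (1/8) * d.y3 + (-1/4) * d.n0 + (3/4) * d.n1 + (-3/4) * d.n2 + (1/4) * d.n3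

noncomputable def kXYY (d : Dat) : ℝ :=
  (-3/4) * d.v0 + (1/8) * d.x0 + (3/4) * d.y0 + (3/8) * d.x1 + (3/4) * d.v2 + (1/8) * d.x2 + (-3/4) * d.y2 + (-1/8) * d.x3 + (-1/4) * d.n0 + (1/4) * d.n1 + (-3/4) * d.n2 + (3/4) * d.n3

noncomputable def kYYY (d : Dat) : ℝ :=
  (-1/2) * d.v0 + (1/12) * d.x0 + (3/8) * d.y0 + (1/4) * d.v1 + (-1/24) * d.y1 + (-1/2) * d.v2 + (-1/12) * d.x2 + (3/8) * d.y2 + (3/4) * d.v3 + (19/24) * d.y3 + (-1/12) * d.n0 + (-1/12) * d.n1 + (5/12) * d.n2 + (5/12) * d.n3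

noncomputable def p0 (d : Dat) : ℝ :=
  (-1/2) * d.x0 + (-3/2) * d.x1 + (-1/2) * d.x2 + (-3/2) * d.x3 + (1) * d.n0 + (-1) * d.n1 + (-1) * d.n2 + (1) * d.n3

noncomputable def pX (d : Dat) : ℝ :=
  (-1) * d.v0 + (5/6) * d.x0 + (1) * d.v1 + (-1/6) * d.y1 + (-1) * d.v2 + (-5/6) * d.x2 + (1) * d.v3 + (1/6) * d.y3 + (-1/3) * d.n0 + (-1/3) * d.n1 + (-1/3) * d.n2 + (-1/3) * d.n3

noncomputable def pY (d : Dat) : ℝ :=
  (-1/2) * d.y0 + (-3/2) * d.x1 + (1/2) * d.y2 + (3/2) * d.x3 + (1) * d.n0 + (-1) * d.n1 + (1) * d.n2 + (-1) * d.n3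

noncomputable def q0 (d : Dat) : ℝ :=
  (-3/2) * d.y0 + (-1/2) * d.y1 + (-3/2) * d.y2 + (-1/2) * d.y3 + (1) * d.n0 + (1) * d.n1 + (-1) * d.n2 + (-1) * d.n3

noncomputable def qX (d : Dat) : ℝ :=
  (-3/2) * d.y0 + (-1/2) * d.x1 + (3/2) * d.y2 + (1/2) * d.x3 + (1) * d.n0 + (-1) * d.n1 + (1) * d.n2 + (-1) * d.n3

noncomputable def qY (d : Dat) : ℝ :=
  (1) * d.v0 + (-1/6) * d.x0 + (-1) * d.v1 + (5/6) * d.y1 + (1) * d.v2 + (1/6) * d.x2 + (-1) * d.v3 + (-5/6) * d.y3 + (-1/3) * d.n0 + (-1/3) * d.n1 + (-1/3) * d.n2 + (-1/3) * d.n3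

/-- the spline on the diamond -/
noncomputable def F (d : Dat) (X Y : ℝ) : ℝ :=
  d.k1 + d.kX * X + d.kY * Y + d.kXX * X ^ 2 + d.kXY * (X * Y) + d.kYY * Y ^ 2
    + d.kXXX * X ^ 3 + d.kXXY * (X ^ 2 * Y) + d.kXYY * (X * Y ^ 2) + d.kYYY * Y ^ 3
    + (max X 0) ^ 2 * (d.p0 + d.pX * X + d.pY * Y)
    + (max Y 0) ^ 2 * (d.q0 + d.qX * X + d.qY * Y)

/-- partial derivative in `X` -/
noncomputable def Fx (d : Dat) (X Y : ℝ) : ℝ :=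
  d.kX + 2 * d.kXX * X + d.kXY * Y
    + 3 * d.kXXX * X ^ 2 + 2 * d.kXXY * (X * Y) + d.kXYY * Y ^ 2
    + 2 * (max X 0) * (d.p0 + d.pX * X + d.pY * Y) + (max X 0) ^ 2 * d.pX
    + (max Y 0) ^ 2 * d.qX

/-- partial derivative in `Y` -/
noncomputable def Fy (d : Dat) (X Y : ℝ) : ℝ :=
  d.kY + d.kXY * X + 2 * d.kYY * Y
    + d.kXXY * X ^ 2 + 2 * d.kXYY * (X * Y) + 3 * d.kYYY * Y ^ 2
    + (max X 0) ^ 2 * d.pY
    + 2 * (max Y 0) * (d.q0 + d.qX * X + d.qY * Y) + (max Y 0) ^ 2 * d.qY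


/-- agreement along the `NE` edge -/
theorem edge1 (d e : Dat) (h1 : e.v2 = d.v1) (h2 : e.x2 = d.x1) (h3 : e.y2 = d.y1)
    (h4 : e.v3 = d.v0) (h5 : e.x3 = d.x0) (h6 : e.y3 = d.y0) (h7 : e.n2 = - d.n0)
    (X Y : ℝ) (hXY : X + Y = 1) (hX : 0 ≤ X) (hY : 0 ≤ Y) :
    F d X Y = F e (X - 1) (Y - 1) ∧ Fx d X Y = Fx e (X - 1) (Y - 1) ∧
      Fy d X Y = Fy e (X - 1) (Y - 1) := by
  have a1 : max X 0 = X := max_eq_left hX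
  have a2 : max Y 0 = Y := max_eq_left hY
  have a3 : max (X - 1) 0 = 0 := max_eq_right (by linarith)
  have a4 : max (Y - 1) 0 = 0 := max_eq_right (by linarith)
  have hY' : Y = 1 - X := by linarith
  refine ⟨?_, ?_, ?_⟩
  · simp only [F, a1, a2, a3, a4]
    simp only [k1, kX, kY, kXX, kXY, kYY, kXXX, kXXY, kXYY, kYYY, p0, pX, pY, q0, qX, qY, h1, h2, h3, h4, h5, h6, h7]
    subst hY'
    ring
  · simp only [Fx, a1, a2, a3, a4]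
    simp only [k1, kX, kY, kXX, kXY, kYY, kXXX, kXXY, kXYY, kYYY, p0, pX, pY, q0, qX, qY, h1, h2, h3, h4, h5, h6, h7]
    subst hY'
    ring
  · simp only [Fy, a1, a2, a3, a4]
    simp only [k1, kX, kY, kXX, kXY, kYY, kXXX, kXXY, kXYY, kYYY, p0, pX, pY, q0, qX, qY, h1, h2, h3, h4, h5, h6, h7]
    subst hY'
    ring

/-- agreement along the `SE` edge -/
theorem edge2 (d e : Dat) (h1 : e.v1 = d.v0) (h2 : e.x1 = d.x0) (h3 : e.y1 = d.y0)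
    (h4 : e.v2 = d.v3) (h5 : e.x2 = d.x3) (h6 : e.y2 = d.y3) (h7 : e.n1 = - d.n3)
    (X Y : ℝ) (hXY : X - Y = 1) (hX : 0 ≤ X) (hY : Y ≤ 0) :
    F d X Y = F e (X - 1) (Y + 1) ∧ Fx d X Y = Fx e (X - 1) (Y + 1) ∧
      Fy d X Y = Fy e (X - 1) (Y + 1) := by
  have a1 : max X 0 = X := max_eq_left hX
  have a2 : max Y 0 = 0 := max_eq_right hY
  have a3 : max (X - 1) 0 = 0 := max_eq_right (by linarith)
  have a4 : max (Y + 1) 0 = Y + 1 := max_eq_left (by linarith)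
  have hY' : Y = X - 1 := by linarith
  refine ⟨?_, ?_, ?_⟩
  · simp only [F, a1, a2, a3, a4]
    simp only [k1, kX, kY, kXX, kXY, kYY, kXXX, kXXY, kXYY, kYYY, p0, pX, pY, q0, qX, qY, h1, h2, h3, h4, h5, h6, h7]
    subst hY'
    ring
  · simp only [Fx, a1, a2, a3, a4]
    simp only [k1, kX, kY, kXX, kXY, kYY, kXXX, kXXY, kXYY, kYYY, p0, pX, pY, q0, qX, qY, h1, h2, h3, h4, h5, h6, h7]
    subst hY'
    ring
  · simp only [Fy, a1, a2, a3, a4]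
    simp only [k1, kX, kY, kXX, kXY, kYY, kXXX, kXXY, kXYY, kYYY, p0, pX, pY, q0, qX, qY, h1, h2, h3, h4, h5, h6, h7]
    subst hY'
    ring

end Dat

end Helper4.Spline
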