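import Pool.Agent.Helper4.SplineElem

set_option linter.unusedSimpArgs false

namespace Helper4.Spline

open Dat

theorem hasDerivAt_posSq (x : ℝ) :
    HasDerivAt (fun x : ℝ => (max x 0) ^ 2) (2 * max x 0) x := by
  rcases lt_trichotomy x 0 with h | h | h
  · have h1 : (fun x : ℝ => (max x 0) ^ 2) =ᶠ[nhds x] fun _ => 0 := by
      filter_upwards [Iio_mem_nhds h] with y hy
      have hy' : y ≤ 0 := le_of_lt (Set.mem_Iio.1 hy)
      simp [max_eq_right hy']
    rw [max_eq_right h.le, mul_zero]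
    exact (hasDerivAt_const x 0).congr_of_eventuallyEq h1
  · subst h
    have h1 : HasDerivWithinAt (fun x : ℝ => (max x 0) ^ 2) 0 (Set.Iic 0) 0 := by
      refine (hasDerivWithinAt_const (0:ℝ) (Set.Iic 0) (0:ℝ)).congr (fun y hy => ?_) (by simp)
      have hy' : y ≤ 0 := Set.mem_Iic.1 hy
      simp [max_eq_right hy']
    have h2 : HasDerivWithinAt (fun x : ℝ => (max x 0) ^ 2) 0 (Set.Ici 0) 0 := by
      have h3 : HasDerivWithinAt (fun x : ℝ => x ^ 2) 0 (Set.Ici 0) 0 := by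
        have := (hasDerivAt_pow 2 (0:ℝ)).hasDerivWithinAt (s := Set.Ici 0)
        simpa using this
      refine h3.congr (fun y hy => ?_) (by simp)
      simp [max_eq_left (Set.mem_Ici.1 hy)]
    have h4 := h1.union h2
    rw [Set.Iic_union_Ici] at h4
    simpa using h4.hasDerivAt Filter.univ_mem
  · have h1 : (fun x : ℝ => (max x 0) ^ 2) =ᶠ[nhds x] fun y => y ^ 2 := by
      filter_upwards [Ioi_mem_nhds h] with y hy
      have hy' : 0 ≤ y := le_of_lt (Set.mem_Ioi.1 hy)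
      simp [max_eq_left hy']
    rw [max_eq_left h.le]
    have h2 := hasDerivAt_pow 2 x
    refine (h2.congr_of_eventuallyEq h1).congr_deriv ?_
    simp

theorem hasFDerivAt_F (d : Dat) (z : ℝ × ℝ) :
    HasFDerivAt (fun z : ℝ × ℝ => F d z.1 z.2)
      (Fx d z.1 z.2 • ContinuousLinearMap.fst ℝ ℝ ℝ + Fy d z.1 z.2 • ContinuousLinearMap.snd ℝ ℝ ℝ)
      z := by
  have hX : HasFDerivAt (fun z : ℝ × ℝ => z.1) (ContinuousLinearMap.fst ℝ ℝ ℝ) z := hasFDerivAt_fst
  have hY : HasFDerivAt (fun z : ℝ × ℝ => z.2) (ContinuousLinearMap.snd ℝ ℝ ℝ) z := hasFDerivAt_snd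
  have hPX : HasFDerivAt (fun z : ℝ × ℝ => (max z.1 0) ^ 2)
      ((2 * max z.1 0) • ContinuousLinearMap.fst ℝ ℝ ℝ) z :=
    (hasDerivAt_posSq z.1).comp_hasFDerivAt z hX
  have hPY : HasFDerivAt (fun z : ℝ × ℝ => (max z.2 0) ^ 2)
      ((2 * max z.2 0) • ContinuousLinearMap.snd ℝ ℝ ℝ) z :=
    (hasDerivAt_posSq z.2).comp_hasFDerivAt z hY
  have h := ((((((((((hasFDerivAt_const d.k1 z).fun_add (hX.const_mul d.kX)).fun_add
    (hY.const_mul d.kY)).fun_add ((hX.pow 2).const_mul d.kXX)).fun_add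
    ((hX.fun_mul hY).const_mul d.kXY)).fun_add ((hY.pow 2).const_mul d.kYY)).fun_add
    ((hX.pow 3).const_mul d.kXXX)).fun_add (((hX.pow 2).fun_mul hY).const_mul d.kXXY)).fun_add
    ((hX.fun_mul (hY.pow 2)).const_mul d.kXYY)).fun_add ((hY.pow 3).const_mul d.kYYY)).fun_add
    (hPX.fun_mul (((hasFDerivAt_const d.p0 z).fun_add (hX.const_mul d.pX)).fun_add
      (hY.const_mul d.pY)))
  have h' := h.fun_add
    (hPY.fun_mul (((hasFDerivAt_const d.q0 z).fun_add (hX.const_mul d.qX)).fun_add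
      (hY.const_mul d.qY)))
  refine HasFDerivAt.congr_fderiv (f := fun z : ℝ × ℝ => F d z.1 z.2) (by simpa only [F] using h') ?_
  ext
  · simp [Fx, Fy]
    ring
  · simp [Fx, Fy]
    ring

theorem continuous_Fx (d : Dat) : Continuous (fun z : ℝ × ℝ => Fx d z.1 z.2) := by
  unfold Fx
  fun_prop

theorem continuous_Fy (d : Dat) : Continuous (fun z : ℝ × ℝ => Fy d z.1 z.2) := by
  unfold Fy
  fun_prop

end Helper4.Spline
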