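import Pool.Agent.Helper4.SplineElem2

set_option linter.unusedSimpArgs false

namespace Helper4.Spline

open Dat

/-- five point central difference quotient in direction `w` at the point `(x,y)` -/
noncomputable def D (g : ℝ → ℝ → ℝ) (w1 w2 x y : ℝ) : ℝ :=
  (8 * (g (x + w1) (y + w2) - g (x - w1) (y - w2))
    - (g (x + 2 * w1) (y + 2 * w2) - g (x - 2 * w1) (y - 2 * w2))) / 12

/-- the data attached to `g` on the diamond centred at `(c1,c2)` -/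
noncomputable def dat (g : ℝ → ℝ → ℝ) (c1 c2 : ℝ) : Dat where
  v0 := g (c1 + 1) c2
  x0 := D g 1 0 (c1 + 1) c2
  y0 := D g 0 1 (c1 + 1) c2
  v1 := g c1 (c2 + 1)
  x1 := D g 1 0 c1 (c2 + 1)
  y1 := D g 0 1 c1 (c2 + 1)
  v2 := g (c1 - 1) c2
  x2 := D g 1 0 (c1 - 1) c2
  y2 := D g 0 1 (c1 - 1) c2
  v3 := g c1 (c2 - 1)
  x3 := D g 1 0 c1 (c2 - 1)
  y3 := D g 0 1 c1 (c2 - 1)
  n0 := D g 1 1 (c1 + 1 / 2) (c2 + 1 / 2)
  n1 := D g (-1) 1 (c1 - 1 / 2) (c2 + 1 / 2)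
  n2 := D g (-1) (-1) (c1 - 1 / 2) (c2 - 1 / 2)
  n3 := D g 1 (-1) (c1 + 1 / 2) (c2 - 1 / 2)

/-- bivariate cubic polynomials by their ten coefficients -/
structure Cub where
  a00 : ℝ
  a10 : ℝ
  a01 : ℝ
  a20 : ℝ
  a11 : ℝ
  a02 : ℝ
  a30 : ℝ
  a21 : ℝ
  a12 : ℝ
  a03 : ℝ

namespace Cub

noncomputable def ev (p : Cub) (X Y : ℝ) : ℝ :=
  p.a00 + p.a10 * X + p.a01 * Y + p.a20 * X ^ 2 + p.a11 * (X * Y) + p.a02 * Y ^ 2
    + p.a30 * X ^ 3 + p.a21 * (X ^ 2 * Y) + p.a12 * (X * Y ^ 2) + p.a03 * Y ^ 3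

noncomputable def evx (p : Cub) (X Y : ℝ) : ℝ :=
  p.a10 + 2 * p.a20 * X + p.a11 * Y + 3 * p.a30 * X ^ 2 + 2 * p.a21 * (X * Y) + p.a12 * Y ^ 2

noncomputable def evy (p : Cub) (X Y : ℝ) : ℝ :=
  p.a01 + p.a11 * X + 2 * p.a02 * Y + p.a21 * X ^ 2 + 2 * p.a12 * (X * Y) + 3 * p.a03 * Y ^ 2

end Cub

open Cub

theorem D_cub (p : Cub) (c1 c2 w1 w2 x y : ℝ) :
    D (fun x y => p.ev (x - c1) (y - c2)) w1 w2 x y
      = w1 * p.evx (x - c1) (y - c2) + w2 * p.evy (x - c1) (y - c2) := by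
  simp only [D, ev, evx, evy]
  ring

theorem repro (p : Cub) (c1 c2 X Y : ℝ) :
    F (dat (fun x y => p.ev (x - c1) (y - c2)) c1 c2) X Y = p.ev X Y := by
  simp only [F, k1, kX, kY, kXX, kXY, kYY, kXXX, kXXY, kXYY, kYYY, p0, pX, pY, q0, qX, qY, dat,
    D_cub]
  have e1 : c1 + 1 - c1 = 1 := by ring
  have e2 : c1 - 1 - c1 = -1 := by ring
  have e3 : c2 + 1 - c2 = 1 := by ring
  have e4 : c2 - 1 - c2 = -1 := by ring
  have e5 : c1 + 1 / 2 - c1 = 1 / 2 := by ring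
  have e6 : c1 - 1 / 2 - c1 = -(1 / 2) := by ring
  have e7 : c2 + 1 / 2 - c2 = 1 / 2 := by ring
  have e8 : c2 - 1 / 2 - c2 = -(1 / 2) := by ring
  simp only [e1, e2, e3, e4, e5, e6, e7, e8, sub_self]
  simp only [ev, evx, evy]
  ring

/-- bound of one product -/
theorem abs_mul_le_of {a m B : ℝ} (ha : |a| ≤ B) (hm : |m| ≤ 1) : |a * m| ≤ B := by
  rw [abs_mul]
  calc |a| * |m| ≤ |a| * 1 := by gcongr
    _ = |a| := mul_one _
    _ ≤ B := ha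

structure Bdd (d : Dat) (B : ℝ) : Prop where
  v0 : |d.v0| ≤ B
  x0 : |d.x0| ≤ B
  y0 : |d.y0| ≤ B
  v1 : |d.v1| ≤ B
  x1 : |d.x1| ≤ B
  y1 : |d.y1| ≤ B
  v2 : |d.v2| ≤ B
  x2 : |d.x2| ≤ B
  y2 : |d.y2| ≤ B
  v3 : |d.v3| ≤ B
  x3 : |d.x3| ≤ B
  y3 : |d.y3| ≤ B
  n0 : |d.n0| ≤ B
  n1 : |d.n1| ≤ B
  n2 : |d.n2| ≤ B
  n3 : |d.n3| ≤ B

theorem F_bound (d : Dat) (B : ℝ) (hB : Bdd d B) (X Y : ℝ) (hX : |X| ≤ 1) (hY : |Y| ≤ 1) :
    |F d X Y| ≤ 160 * B := by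
  obtain ⟨b1, b2, b3, b4, b5, b6, b7, b8, b9, b10, b11, b12, b13, b14, b15, b16⟩ := hB
  have hB0 : 0 ≤ B := (abs_nonneg _).trans b1
  rw [abs_le] at b1 b2 b3 b4 b5 b6 b7 b8 b9 b10 b11 b12 b13 b14 b15 b16
  have c1 : |d.k1| ≤ 10 * B := by
    rw [abs_le]; simp only [k1]; constructor <;> linarith
  have c2 : |d.kX| ≤ 10 * B := by
    rw [abs_le]; simp only [kX]; constructor <;> linarith
  have c3 : |d.kY| ≤ 10 * B := by
    rw [abs_le]; simp only [kY]; constructor <;> linarith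
  have c4 : |d.kXX| ≤ 10 * B := by
    rw [abs_le]; simp only [kXX]; constructor <;> linarith
  have c5 : |d.kXY| ≤ 10 * B := by
    rw [abs_le]; simp only [kXY]; constructor <;> linarith
  have c6 : |d.kYY| ≤ 10 * B := by
    rw [abs_le]; simp only [kYY]; constructor <;> linarith
  have c7 : |d.kXXX| ≤ 10 * B := by
    rw [abs_le]; simp only [kXXX]; constructor <;> linarith
  have c8 : |d.kXXY| ≤ 10 * B := by
    rw [abs_le]; simp only [kXXY]; constructor <;> linarith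
  have c9 : |d.kXYY| ≤ 10 * B := by
    rw [abs_le]; simp only [kXYY]; constructor <;> linarith
  have c10 : |d.kYYY| ≤ 10 * B := by
    rw [abs_le]; simp only [kYYY]; constructor <;> linarith
  have c11 : |d.p0| ≤ 10 * B := by
    rw [abs_le]; simp only [p0]; constructor <;> linarith
  have c12 : |d.pX| ≤ 10 * B := by
    rw [abs_le]; simp only [pX]; constructor <;> linarith
  have c13 : |d.pY| ≤ 10 * B := by
    rw [abs_le]; simp only [pY]; constructor <;> linarith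
  have c14 : |d.q0| ≤ 10 * B := by
    rw [abs_le]; simp only [q0]; constructor <;> linarith
  have c15 : |d.qX| ≤ 10 * B := by
    rw [abs_le]; simp only [qX]; constructor <;> linarith
  have c16 : |d.qY| ≤ 10 * B := by
    rw [abs_le]; simp only [qY]; constructor <;> linarith
  have mul1 : ∀ a b : ℝ, |a| ≤ 1 → |b| ≤ 1 → |a * b| ≤ 1 := fun a b ha hb => abs_mul_le_of ha hb
  have pw : ∀ (a : ℝ) (n : ℕ), |a| ≤ 1 → |a ^ n| ≤ 1 := fun a n ha => by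
    rw [abs_pow]; exact pow_le_one₀ (abs_nonneg _) ha
  have hX' : |max X 0| ≤ 1 := by
    rw [abs_le] at hX ⊢
    exact ⟨(by norm_num : (-1:ℝ) ≤ 0).trans (le_max_right _ _), max_le hX.2 (by norm_num)⟩
  have hY' : |max Y 0| ≤ 1 := by
    rw [abs_le] at hY ⊢
    exact ⟨(by norm_num : (-1:ℝ) ≤ 0).trans (le_max_right _ _), max_le hY.2 (by norm_num)⟩
  have t2 := abs_mul_le_of c2 hX
  have t3 := abs_mul_le_of c3 hY
  have t4 := abs_mul_le_of c4 (pw X 2 hX)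
  have t5 := abs_mul_le_of c5 (mul1 X Y hX hY)
  have t6 := abs_mul_le_of c6 (pw Y 2 hY)
  have t7 := abs_mul_le_of c7 (pw X 3 hX)
  have t8 := abs_mul_le_of c8 (mul1 _ _ (pw X 2 hX) hY)
  have t9 := abs_mul_le_of c9 (mul1 _ _ hX (pw Y 2 hY))
  have t10 := abs_mul_le_of c10 (pw Y 3 hY)
  have t11 := abs_mul_le_of c11 (pw _ 2 hX')
  have t12 := abs_mul_le_of c12 (mul1 _ _ hX (pw _ 2 hX'))
  have t13 := abs_mul_le_of c13 (mul1 _ _ hY (pw _ 2 hX'))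
  have t14 := abs_mul_le_of c14 (pw _ 2 hY')
  have t15 := abs_mul_le_of c15 (mul1 _ _ hX (pw _ 2 hY'))
  have t16 := abs_mul_le_of c16 (mul1 _ _ hY (pw _ 2 hY'))
  have key : F d X Y = d.k1 + d.kX * X + d.kY * Y + d.kXX * X ^ 2 + d.kXY * (X * Y)
      + d.kYY * Y ^ 2
      + d.kXXX * X ^ 3 + d.kXXY * (X ^ 2 * Y) + d.kXYY * (X * Y ^ 2) + d.kYYY * Y ^ 3
      + d.p0 * (max X 0) ^ 2 + d.pX * (X * (max X 0) ^ 2) + d.pY * (Y * (max X 0) ^ 2)
      + d.q0 * (max Y 0) ^ 2 + d.qX * (X * (max Y 0) ^ 2) + d.qY * (Y * (max Y 0) ^ 2) := by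
    simp only [F]; ring
  rw [key]
  rw [abs_le] at c1 t2 t3 t4 t5 t6 t7 t8 t9 t10 t11 t12 t13 t14 t15 t16 ⊢
  constructor <;> linarith

/-- difference of data -/
noncomputable def sub (d e : Dat) : Dat where
  v0 := d.v0 - e.v0
  x0 := d.x0 - e.x0
  y0 := d.y0 - e.y0
  v1 := d.v1 - e.v1
  x1 := d.x1 - e.x1
  y1 := d.y1 - e.y1
  v2 := d.v2 - e.v2
  x2 := d.x2 - e.x2
  y2 := d.y2 - e.y2
  v3 := d.v3 - e.v3
  x3 := d.x3 - e.x3
  y3 := d.y3 - e.y3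
  n0 := d.n0 - e.n0
  n1 := d.n1 - e.n1
  n2 := d.n2 - e.n2
  n3 := d.n3 - e.n3

theorem F_sub (d e : Dat) (X Y : ℝ) : F (sub d e) X Y = F d X Y - F e X Y := by
  simp only [F, k1, kX, kY, kXX, kXY, kYY, kXXX, kXXY, kXYY, kYYY, p0, pX, pY, q0, qX, qY, sub]
  ring

/-- the difference quotients of a small function are small -/
theorem D_diff_bound (g p : ℝ → ℝ → ℝ) (c1 c2 E : ℝ)
    (h : ∀ x y, |x - c1| ≤ 3 → |y - c2| ≤ 3 → |g x y - p x y| ≤ E) (w1 w2 x y : ℝ)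
    (hx : |x - c1| + 2 * |w1| ≤ 3) (hy : |y - c2| + 2 * |w2| ≤ 3) :
    |D g w1 w2 x y - D p w1 w2 x y| ≤ 2 * E := by
  have hw1 := abs_nonneg w1
  have hw2 := abs_nonneg w2
  have hE : 0 ≤ E := (abs_nonneg _).trans
    (h x y (by linarith) (by linarith))
  have gen : ∀ s : ℝ, |s| ≤ 2 → |g (x + s * w1) (y + s * w2) - p (x + s * w1) (y + s * w2)| ≤ E := by
    intro s hs
    apply h
    · calc |x + s * w1 - c1| = |(x - c1) + s * w1| := by ring_nf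
        _ ≤ |x - c1| + |s * w1| := abs_add_le _ _
        _ = |x - c1| + |s| * |w1| := by rw [abs_mul]
        _ ≤ |x - c1| + 2 * |w1| := by gcongr
        _ ≤ 3 := hx
    · calc |y + s * w2 - c2| = |(y - c2) + s * w2| := by ring_nf
        _ ≤ |y - c2| + |s * w2| := abs_add_le _ _
        _ = |y - c2| + |s| * |w2| := by rw [abs_mul]
        _ ≤ |y - c2| + 2 * |w2| := by gcongr
        _ ≤ 3 := hy
  have a1 := gen 1 (by norm_num)
  have a2 := gen (-1) (by norm_num)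
  have a3 := gen 2 (by norm_num)
  have a4 := gen (-2) (by norm_num)
  have e1 : x + 1 * w1 = x + w1 := by ring
  have e2 : y + 1 * w2 = y + w2 := by ring
  have e3 : x + -1 * w1 = x - w1 := by ring
  have e4 : y + -1 * w2 = y - w2 := by ring
  have e5 : x + -2 * w1 = x - 2 * w1 := by ring
  have e6 : y + -2 * w2 = y - 2 * w2 := by ring
  rw [e1, e2] at a1
  rw [e3, e4] at a2
  rw [e5, e6] at a4
  rw [abs_le] at a1 a2 a3 a4 ⊢
  simp only [D]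
  constructor <;> linarith

theorem dat_sub_bdd (g p : ℝ → ℝ → ℝ) (c1 c2 E : ℝ)
    (h : ∀ x y, |x - c1| ≤ 3 → |y - c2| ≤ 3 → |g x y - p x y| ≤ E) :
    Bdd (sub (dat g c1 c2) (dat p c1 c2)) (2 * E) := by
  have hE : 0 ≤ E := (abs_nonneg _).trans
    (h c1 c2 (by simp) (by simp))
  have e1 : c1 + 1 - c1 = 1 := by ring
  have e2 : c1 - 1 - c1 = -1 := by ring
  have e3 : c2 + 1 - c2 = 1 := by ring
  have e4 : c2 - 1 - c2 = -1 := by ring
  have e5 : c1 + 1 / 2 - c1 = 1 / 2 := by ring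
  have e6 : c1 - 1 / 2 - c1 = -(1 / 2) := by ring
  have e7 : c2 + 1 / 2 - c2 = 1 / 2 := by ring
  have e8 : c2 - 1 / 2 - c2 = -(1 / 2) := by ring
  have hv : ∀ x y, |x - c1| ≤ 3 → |y - c2| ≤ 3 → |g x y - p x y| ≤ 2 * E := fun x y hx hy =>
    (h x y hx hy).trans (by linarith)
  constructor <;> simp only [sub, dat]
  all_goals first
    | (apply hv <;> simp only [e1, e2, e3, e4, sub_self] <;> norm_num)
    | (apply D_diff_bound g p c1 c2 E h <;>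
        simp only [e1, e2, e3, e4, e5, e6, e7, e8, sub_self] <;> norm_num [abs_of_pos])

/-- local error estimate -/
theorem local_error (g : ℝ → ℝ → ℝ) (q : Cub) (c1 c2 E : ℝ)
    (h : ∀ x y, |x - c1| ≤ 3 → |y - c2| ≤ 3 → |g x y - q.ev (x - c1) (y - c2)| ≤ E)
    (x y : ℝ) (hx : |x - c1| ≤ 1) (hy : |y - c2| ≤ 1) :
    |g x y - F (dat g c1 c2) (x - c1) (y - c2)| ≤ 321 * E := by
  have h1 := dat_sub_bdd g (fun x y => q.ev (x - c1) (y - c2)) c1 c2 E h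
  have h2 := F_bound _ _ h1 (x - c1) (y - c2) hx hy
  rw [F_sub, repro] at h2
  have h3 := h x y (hx.trans (by norm_num)) (hy.trans (by norm_num))
  rw [abs_le] at h2 h3 ⊢
  constructor <;> linarith

end Helper4.Spline
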