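import Pool.Agent.Helper4.SplineTaylor

set_option linter.unusedSimpArgs false

namespace Helper4.Spline

open Set Dat Topology

theorem glue {ι : Type*} {D : ι → Set E} (hlf : LocallyFinite D) (hcl : ∀ i, IsClosed (D i))
    (hcov : ∀ z, ∃ i, z ∈ D i) (G : ι → E → ℝ) (G' : ι → E → (E →L[ℝ] ℝ))
    (hG : ∀ i z, HasFDerivAt (G i) (G' i z) z) (hG' : ∀ i, Continuous (G' i))
    (s : E → ℝ) (s' : E → (E →L[ℝ] ℝ)) (hs : ∀ i z, z ∈ D i → s z = G i z)
    (hs' : ∀ i z, z ∈ D i → s' z = G' i z) : ContDiff ℝ 1 s := by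
  have key : ∀ z, HasFDerivAt s (s' z) z := by
    intro z
    obtain ⟨U, hU, hfin⟩ := hlf z
    have h1 : ∀ i, HasFDerivWithinAt s (s' z) (D i) z := by
      intro i
      by_cases hz : z ∈ D i
      · rw [hs' i z hz]
        exact (hG i z).hasFDerivWithinAt.congr (fun y hy => hs i y hy) (hs i z hz)
      · apply HasFDerivWithinAt.of_notMem_closure
        rwa [(hcl i).closure_eq]
    have h2 : ∀ t : Set ι, t.Finite → HasFDerivWithinAt s (s' z) (⋃ i ∈ t, D i) z := by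
      intro t ht
      induction t, ht using Set.Finite.induction_on with
      | empty =>
        simp only [mem_empty_iff_false, iUnion_of_empty, iUnion_empty]
        apply HasFDerivWithinAt.of_notMem_closure
        simp
      | insert _ _ ih =>
        rw [biUnion_insert]
        exact (h1 _).union ih
    refine (h2 _ hfin).hasFDerivAt ?_
    filter_upwards [hU] with y hy
    obtain ⟨i, hi⟩ := hcov y
    exact mem_biUnion (show i ∈ {i | (D i ∩ U).Nonempty} from ⟨y, hi, hy⟩) hi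
  rw [contDiff_one_iff_fderiv]
  refine ⟨fun z => (key z).differentiableAt, ?_⟩
  have h3 : fderiv ℝ s = s' := by
    funext z
    exact (key z).fderiv
  rw [h3]
  refine hlf.continuous (iUnion_eq_univ_iff.2 hcov) hcl (fun i => ?_)
  exact (hG' i).continuousOn.congr (fun z hz => hs' i z hz)

/-- the closed diamonds -/
def Q (i : ℤ × ℤ) : Set E :=
  {z | 2 * (i.1 : ℝ) ≤ z.1 + z.2 ∧ z.1 + z.2 ≤ 2 * i.1 + 2 ∧ 2 * (i.2 : ℝ) ≤ z.1 - z.2 ∧
    z.1 - z.2 ≤ 2 * i.2 + 2}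

theorem Q_closed (i : ℤ × ℤ) : IsClosed (Q i) := by
  have h1 : IsClosed {z : E | 2 * (i.1 : ℝ) ≤ z.1 + z.2} := isClosed_le (by fun_prop) (by fun_prop)
  have h2 : IsClosed {z : E | z.1 + z.2 ≤ 2 * i.1 + 2} := isClosed_le (by fun_prop) (by fun_prop)
  have h3 : IsClosed {z : E | 2 * (i.2 : ℝ) ≤ z.1 - z.2} := isClosed_le (by fun_prop) (by fun_prop)
  have h4 : IsClosed {z : E | z.1 - z.2 ≤ 2 * i.2 + 2} := isClosed_le (by fun_prop) (by fun_prop)
  exact h1.inter (h2.inter (h3.inter h4))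

theorem Q_lf : LocallyFinite Q := by
  intro z
  refine ⟨{w | |(w.1 + w.2) - (z.1 + z.2)| < 1 ∧ |(w.1 - w.2) - (z.1 - z.2)| < 1}, ?_, ?_⟩
  · apply IsOpen.mem_nhds
    · have h1 : IsOpen {w : E | |(w.1 + w.2) - (z.1 + z.2)| < 1} :=
        isOpen_lt (by fun_prop) (by fun_prop)
      have h2 : IsOpen {w : E | |(w.1 - w.2) - (z.1 - z.2)| < 1} :=
        isOpen_lt (by fun_prop) (by fun_prop)
      exact h1.inter h2
    · simp
  · refine ((finite_Icc ⌊((z.1 + z.2) - 3) / 2⌋ ⌈((z.1 + z.2) + 1) / 2⌉).prod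
      (finite_Icc ⌊((z.1 - z.2) - 3) / 2⌋ ⌈((z.1 - z.2) + 1) / 2⌉)).subset ?_
    rintro ⟨a, b⟩ ⟨w, ⟨h1, h2, h3, h4⟩, h5, h6⟩
    simp only [abs_lt] at h5 h6
    simp only at h1 h2 h3 h4
    refine ⟨⟨?_, ?_⟩, ⟨?_, ?_⟩⟩
    · have := Int.floor_le (((z.1 + z.2) - 3) / 2)
      have h7 : ((⌊((z.1 + z.2) - 3) / 2⌋ : ℤ) : ℝ) ≤ a := by linarith
      exact_mod_cast h7
    · have := Int.le_ceil (((z.1 + z.2) + 1) / 2)
      have h7 : (a : ℝ) ≤ ⌈((z.1 + z.2) + 1) / 2⌉ := by linarith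
      exact_mod_cast h7
    · have := Int.floor_le (((z.1 - z.2) - 3) / 2)
      have h7 : ((⌊((z.1 - z.2) - 3) / 2⌋ : ℤ) : ℝ) ≤ b := by linarith
      exact_mod_cast h7
    · have := Int.le_ceil (((z.1 - z.2) + 1) / 2)
      have h7 : (b : ℝ) ≤ ⌈((z.1 - z.2) + 1) / 2⌉ := by linarith
      exact_mod_cast h7

/-- index of a diamond containing `z` -/
noncomputable def idx (z : E) : ℤ × ℤ := (⌊(z.1 + z.2) / 2⌋, ⌊(z.1 - z.2) / 2⌋)

theorem mem_idx (z : E) : z ∈ Q (idx z) := by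
  have h1 := Int.floor_le ((z.1 + z.2) / 2)
  have h2 := Int.lt_floor_add_one ((z.1 + z.2) / 2)
  have h3 := Int.floor_le ((z.1 - z.2) / 2)
  have h4 := Int.lt_floor_add_one ((z.1 - z.2) / 2)
  refine ⟨?_, ?_, ?_, ?_⟩ <;> simp only [idx] <;> linarith

/-- centre coordinates -/
noncomputable def ca (i : ℤ × ℤ) : ℝ := i.1 + i.2 + 1
noncomputable def cb (i : ℤ × ℤ) : ℝ := i.1 - i.2

/-- local spline, and its derivative -/
noncomputable def G (g : ℝ → ℝ → ℝ) (i : ℤ × ℤ) (z : E) : ℝ :=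
  F (dat g (ca i) (cb i)) (z.1 - ca i) (z.2 - cb i)

noncomputable def Gx (g : ℝ → ℝ → ℝ) (i : ℤ × ℤ) (z : E) : ℝ :=
  Fx (dat g (ca i) (cb i)) (z.1 - ca i) (z.2 - cb i)

noncomputable def Gy (g : ℝ → ℝ → ℝ) (i : ℤ × ℤ) (z : E) : ℝ :=
  Fy (dat g (ca i) (cb i)) (z.1 - ca i) (z.2 - cb i)

noncomputable def G' (g : ℝ → ℝ → ℝ) (i : ℤ × ℤ) (z : E) : E →L[ℝ] ℝ :=
  Gx g i z • ContinuousLinearMap.fst ℝ ℝ ℝ + Gy g i z • ContinuousLinearMap.snd ℝ ℝ ℝ

theorem hasFDerivAt_G (g : ℝ → ℝ → ℝ) (i : ℤ × ℤ) (z : E) :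
    HasFDerivAt (G g i) (G' g i z) z := by
  have h := hasFDerivAt_F (dat g (ca i) (cb i)) (z - ((ca i, cb i) : E))
  have h2 := h.comp z ((hasFDerivAt_id z).sub_const ((ca i, cb i) : E))
  rw [ContinuousLinearMap.comp_id] at h2
  exact h2

theorem continuous_G' (g : ℝ → ℝ → ℝ) (i : ℤ × ℤ) : Continuous (G' g i) := by
  have hsub : Continuous (fun z : E => z - ((ca i, cb i) : E)) := by fun_prop
  have h1 : Continuous (Gx g i) := (continuous_Fx (dat g (ca i) (cb i))).comp hsub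
  have h2 : Continuous (Gy g i) := (continuous_Fy (dat g (ca i) (cb i))).comp hsub
  unfold G'
  fun_prop

theorem D_neg (g : ℝ → ℝ → ℝ) (w1 w2 x y : ℝ) : D g (-w1) (-w2) x y = - D g w1 w2 x y := by
  have e1 : x + -w1 = x - w1 := by ring
  have e2 : y + -w2 = y - w2 := by ring
  have e3 : x - -w1 = x + w1 := by ring
  have e4 : y - -w2 = y + w2 := by ring
  have e5 : x + 2 * -w1 = x - 2 * w1 := by ring
  have e6 : y + 2 * -w2 = y - 2 * w2 := by ring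
  have e7 : x - 2 * -w1 = x + 2 * w1 := by ring
  have e8 : y - 2 * -w2 = y + 2 * w2 := by ring
  simp only [D, e1, e2, e3, e4, e5, e6, e7, e8]
  ring

theorem step1 (g : ℝ → ℝ → ℝ) (a b : ℤ) (z : E) (h : z ∈ Q (a, b)) (h' : z ∈ Q (a + 1, b)) :
    G g (a, b) z = G g (a + 1, b) z ∧ Gx g (a, b) z = Gx g (a + 1, b) z ∧
      Gy g (a, b) z = Gy g (a + 1, b) z := by
  obtain ⟨h1, h2, h3, h4⟩ := h
  obtain ⟨h1', h2', h3', h4'⟩ := h'
  simp only at h1 h2 h3 h4 h1' h2' h3' h4'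
  push_cast at h1 h2 h3 h4 h1' h2' h3' h4'
  have e1 : z.1 - ca (a + 1, b) = (z.1 - ca (a, b)) - 1 := by simp only [ca]; push_cast; ring
  have e2 : z.2 - cb (a + 1, b) = (z.2 - cb (a, b)) - 1 := by simp only [cb]; push_cast; ring
  have f1 : ca (a + 1, b) = ca (a, b) + 1 := by simp only [ca]; push_cast; ring
  have f2 : cb (a + 1, b) = cb (a, b) + 1 := by simp only [cb]; push_cast; ring
  simp only [G, Gx, Gy]
  rw [e1, e2, f1, f2]
  have hc : ca (a, b) = a + b + 1 := rfl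
  have hd : cb (a, b) = a - b := rfl
  set c := ca (a, b)
  set d := cb (a, b)
  apply edge1
  · simp only [dat, add_sub_cancel_right]
  · simp only [dat, add_sub_cancel_right]
  · simp only [dat, add_sub_cancel_right]
  · simp only [dat, add_sub_cancel_right]
  · simp only [dat, add_sub_cancel_right]
  · simp only [dat, add_sub_cancel_right]
  · simp only [dat]
    rw [D_neg]
    congr 2 <;> ring
  · rw [hc, hd]; linarith
  · rw [hc]; linarith
  · rw [hd]; linarith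

theorem step2 (g : ℝ → ℝ → ℝ) (a b : ℤ) (z : E) (h : z ∈ Q (a, b)) (h' : z ∈ Q (a, b + 1)) :
    G g (a, b) z = G g (a, b + 1) z ∧ Gx g (a, b) z = Gx g (a, b + 1) z ∧
      Gy g (a, b) z = Gy g (a, b + 1) z := by
  obtain ⟨h1, h2, h3, h4⟩ := h
  obtain ⟨h1', h2', h3', h4'⟩ := h'
  simp only at h1 h2 h3 h4 h1' h2' h3' h4'
  push_cast at h1 h2 h3 h4 h1' h2' h3' h4'
  have e1 : z.1 - ca (a, b + 1) = (z.1 - ca (a, b)) - 1 := by simp only [ca]; push_cast; ring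
  have e2 : z.2 - cb (a, b + 1) = (z.2 - cb (a, b)) + 1 := by simp only [cb]; push_cast; ring
  have f1 : ca (a, b + 1) = ca (a, b) + 1 := by simp only [ca]; push_cast; ring
  have f2 : cb (a, b + 1) = cb (a, b) - 1 := by simp only [cb]; push_cast; ring
  simp only [G, Gx, Gy]
  rw [e1, e2, f1, f2]
  have hc : ca (a, b) = a + b + 1 := rfl
  have hd : cb (a, b) = a - b := rfl
  set c := ca (a, b)
  set d := cb (a, b)
  apply edge2
  · simp only [dat, sub_add_cancel]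
  · simp only [dat, sub_add_cancel]
  · simp only [dat, sub_add_cancel]
  · simp only [dat, add_sub_cancel_right]
  · simp only [dat, add_sub_cancel_right]
  · simp only [dat, add_sub_cancel_right]
  · simp only [dat]
    rw [show (D g (-1) 1 (c + 1 - 1 / 2) (d - 1 + 1 / 2))
      = D g (-1) (-(-1)) (c + 1 - 1 / 2) (d - 1 + 1 / 2) by norm_num, D_neg]
    congr 2 <;> ring
  · rw [hc, hd]; linarith
  · rw [hc]; linarith
  · rw [hd]; linarith

theorem agree1 (g : ℝ → ℝ → ℝ) (a a' b : ℤ) (z : E) (h : z ∈ Q (a, b)) (h' : z ∈ Q (a', b)) :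
    G g (a, b) z = G g (a', b) z ∧ Gx g (a, b) z = Gx g (a', b) z ∧
      Gy g (a, b) z = Gy g (a', b) z := by
  have hh := h
  have hh' := h'
  obtain ⟨h1, h2, h3, h4⟩ := h
  obtain ⟨h1', h2', h3', h4'⟩ := h'
  simp only at h1 h2 h3 h4 h1' h2' h3' h4'
  have k1 : (a : ℝ) ≤ a' + 1 := by linarith
  have k2 : (a' : ℝ) ≤ a + 1 := by linarith
  have k1' : a ≤ a' + 1 := by exact_mod_cast k1
  have k2' : a' ≤ a + 1 := by exact_mod_cast k2
  have : a' = a ∨ a' = a + 1 ∨ a = a' + 1 := by omega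
  rcases this with h5 | h5 | h5
  · subst h5; exact ⟨rfl, rfl, rfl⟩
  · subst h5; exact step1 g a b z hh hh'
  · subst h5
    obtain ⟨r1, r2, r3⟩ := step1 g a' b z hh' hh
    exact ⟨r1.symm, r2.symm, r3.symm⟩

theorem agree2 (g : ℝ → ℝ → ℝ) (a b b' : ℤ) (z : E) (h : z ∈ Q (a, b)) (h' : z ∈ Q (a, b')) :
    G g (a, b) z = G g (a, b') z ∧ Gx g (a, b) z = Gx g (a, b') z ∧
      Gy g (a, b) z = Gy g (a, b') z := by
  have hh := h
  have hh' := h'
  obtain ⟨h1, h2, h3, h4⟩ := h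
  obtain ⟨h1', h2', h3', h4'⟩ := h'
  simp only at h1 h2 h3 h4 h1' h2' h3' h4'
  have k1 : (b : ℝ) ≤ b' + 1 := by linarith
  have k2 : (b' : ℝ) ≤ b + 1 := by linarith
  have k1' : b ≤ b' + 1 := by exact_mod_cast k1
  have k2' : b' ≤ b + 1 := by exact_mod_cast k2
  have : b' = b ∨ b' = b + 1 ∨ b = b' + 1 := by omega
  rcases this with h5 | h5 | h5
  · subst h5; exact ⟨rfl, rfl, rfl⟩
  · subst h5; exact step2 g a b z hh hh'
  · subst h5
    obtain ⟨r1, r2, r3⟩ := step2 g a b' z hh' hh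
    exact ⟨r1.symm, r2.symm, r3.symm⟩

theorem agree (g : ℝ → ℝ → ℝ) (i j : ℤ × ℤ) (z : E) (h : z ∈ Q i) (h' : z ∈ Q j) :
    G g i z = G g j z ∧ Gx g i z = Gx g j z ∧ Gy g i z = Gy g j z := by
  obtain ⟨a, b⟩ := i
  obtain ⟨a', b'⟩ := j
  have h'' : z ∈ Q (a', b) := ⟨h'.1, h'.2.1, h.2.2.1, h.2.2.2⟩
  obtain ⟨r1, r2, r3⟩ := agree1 g a a' b z h h''
  obtain ⟨q1, q2, q3⟩ := agree2 g a' b b' z h'' h'
  exact ⟨r1.trans q1, r2.trans q2, r3.trans q3⟩

/-- the global spline -/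
noncomputable def S (g : ℝ → ℝ → ℝ) (z : E) : ℝ := G g (idx z) z

theorem S_eq (g : ℝ → ℝ → ℝ) (i : ℤ × ℤ) (z : E) (h : z ∈ Q i) : S g z = G g i z :=
  (agree g (idx z) i z (mem_idx z) h).1

theorem S_C1 (g : ℝ → ℝ → ℝ) : ContDiff ℝ 1 (S g) := by
  refine glue Q_lf Q_closed (fun z => ⟨idx z, mem_idx z⟩) (G g) (G' g) (hasFDerivAt_G g)
    (continuous_G' g) (S g) (fun z => G' g (idx z) z) (fun i z h => S_eq g i z h) (fun i z h => ?_)
  obtain ⟨_, r2, r3⟩ := agree g (idx z) i z (mem_idx z) h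
  simp only [G', r2, r3]

end Helper4.Spline
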