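import Pool.Agent.Helper4.SplineGlue
import Pool.Agent.Helper4.SplineDefs

set_option linter.unusedSimpArgs false

namespace Helper4.Spline

open Set Dat Topology Helper4.MixedMesh
open scoped ENNReal NNReal

/-- checkerboard pattern -/
def chk : ℤ → ℤ → Bool := fun i j => decide (Even (i + j))

theorem F_pp (d : Dat) : ∃ q : Cub, ∀ X Y, 0 ≤ X → 0 ≤ Y → F d X Y = q.ev X Y := by
  refine ⟨⟨d.k1, d.kX, d.kY, d.kXX + d.p0, d.kXY, d.kYY + d.q0, d.kXXX + d.pX, d.kXXY + d.pY,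
    d.kXYY + d.qX, d.kYYY + d.qY⟩, fun X Y hX hY => ?_⟩
  simp only [F, Cub.ev, max_eq_left hX, max_eq_left hY]
  ring

theorem F_pm (d : Dat) : ∃ q : Cub, ∀ X Y, 0 ≤ X → Y ≤ 0 → F d X Y = q.ev X Y := by
  refine ⟨⟨d.k1, d.kX, d.kY, d.kXX + d.p0, d.kXY, d.kYY, d.kXXX + d.pX, d.kXXY + d.pY,
    d.kXYY, d.kYYY⟩, fun X Y hX hY => ?_⟩
  simp only [F, Cub.ev, max_eq_left hX, max_eq_right hY]
  ring

theorem F_mp (d : Dat) : ∃ q : Cub, ∀ X Y, X ≤ 0 → 0 ≤ Y → F d X Y = q.ev X Y := by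
  refine ⟨⟨d.k1, d.kX, d.kY, d.kXX, d.kXY, d.kYY + d.q0, d.kXXX, d.kXXY,
    d.kXYY + d.qX, d.kYYY + d.qY⟩, fun X Y hX hY => ?_⟩
  simp only [F, Cub.ev, max_eq_right hX, max_eq_left hY]
  ring

theorem F_mm (d : Dat) : ∃ q : Cub, ∀ X Y, X ≤ 0 → Y ≤ 0 → F d X Y = q.ev X Y := by
  refine ⟨⟨d.k1, d.kX, d.kY, d.kXX, d.kXY, d.kYY, d.kXXX, d.kXXY,
    d.kXYY, d.kYYY⟩, fun X Y hX hY => ?_⟩
  simp only [F, Cub.ev, max_eq_right hX, max_eq_right hY]
  ring

open MvPolynomial in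
theorem cub_poly (q : Cub) (h c1 c2 : ℝ) : ∃ p : MvPolynomial (Fin 2) ℝ, p.totalDegree ≤ 3 ∧
    ∀ z : ℝ × ℝ, MvPolynomial.eval ![z.1, z.2] p = q.ev (z.1 / h - c1) (z.2 / h - c2) := by
  set P : MvPolynomial (Fin 2) ℝ := C (1 / h) * X 0 - C c1 with hP
  set R : MvPolynomial (Fin 2) ℝ := C (1 / h) * X 1 - C c2 with hR
  have hPd : P.totalDegree ≤ 1 := by
    refine (totalDegree_sub _ _).trans (max_le ?_ (by simp))
    refine (totalDegree_mul _ _).trans ?_
    simp [totalDegree_X]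
  have hRd : R.totalDegree ≤ 1 := by
    refine (totalDegree_sub _ _).trans (max_le ?_ (by simp))
    refine (totalDegree_mul _ _).trans ?_
    simp [totalDegree_X]
  have hm : ∀ (a : ℝ) (i j : ℕ), i + j ≤ 3 → (C a * (P ^ i * R ^ j)).totalDegree ≤ 3 := by
    intro a i j hij
    calc (C a * (P ^ i * R ^ j)).totalDegree
        ≤ (C a : MvPolynomial (Fin 2) ℝ).totalDegree + (P ^ i * R ^ j).totalDegree :=
          totalDegree_mul _ _
      _ = (P ^ i * R ^ j).totalDegree := by simp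
      _ ≤ (P ^ i).totalDegree + (R ^ j).totalDegree := totalDegree_mul _ _
      _ ≤ i * P.totalDegree + j * R.totalDegree :=
          add_le_add (totalDegree_pow _ _) (totalDegree_pow _ _)
      _ ≤ i * 1 + j * 1 := by gcongr
      _ ≤ 3 := by omega
  refine ⟨C q.a00 * (P ^ 0 * R ^ 0) + C q.a10 * (P ^ 1 * R ^ 0) + C q.a01 * (P ^ 0 * R ^ 1)
    + C q.a20 * (P ^ 2 * R ^ 0) + C q.a11 * (P ^ 1 * R ^ 1) + C q.a02 * (P ^ 0 * R ^ 2)
    + C q.a30 * (P ^ 3 * R ^ 0) + C q.a21 * (P ^ 2 * R ^ 1) + C q.a12 * (P ^ 1 * R ^ 2)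
    + C q.a03 * (P ^ 0 * R ^ 3), ?_, fun z => ?_⟩
  · refine (totalDegree_add _ _).trans (max_le ?_ (hm _ _ _ (by norm_num)))
    refine (totalDegree_add _ _).trans (max_le ?_ (hm _ _ _ (by norm_num)))
    refine (totalDegree_add _ _).trans (max_le ?_ (hm _ _ _ (by norm_num)))
    refine (totalDegree_add _ _).trans (max_le ?_ (hm _ _ _ (by norm_num)))
    refine (totalDegree_add _ _).trans (max_le ?_ (hm _ _ _ (by norm_num)))
    refine (totalDegree_add _ _).trans (max_le ?_ (hm _ _ _ (by norm_num)))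
    refine (totalDegree_add _ _).trans (max_le ?_ (hm _ _ _ (by norm_num)))
    refine (totalDegree_add _ _).trans (max_le ?_ (hm _ _ _ (by norm_num)))
    exact (totalDegree_add _ _).trans (max_le (hm _ _ _ (by norm_num)) (hm _ _ _ (by norm_num)))
  · have h1 : eval ![z.1, z.2] P = z.1 / h - c1 := by
      simp [hP]; ring
    have h2 : eval ![z.1, z.2] R = z.2 / h - c2 := by
      simp [hR]; ring
    simp only [map_add, map_mul, map_pow, eval_C, h1, h2, Cub.ev]
    ring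

/-- the scaled spline is a cubic polynomial on a set contained in one quadrant of a diamond -/
theorem piece (g : ℝ → ℝ → ℝ) (h : ℝ) (i : ℤ × ℤ) (τ : Set (ℝ × ℝ))
    (hQ : ∀ z ∈ τ, ((z.1 / h, z.2 / h) : ℝ × ℝ) ∈ Q i) (q : Cub)
    (hq : ∀ z ∈ τ, F (dat g (ca i) (cb i)) (z.1 / h - ca i) (z.2 / h - cb i)
      = q.ev (z.1 / h - ca i) (z.2 / h - cb i)) :
    ∃ p : MvPolynomial (Fin 2) ℝ, p.totalDegree ≤ 3 ∧
      ∀ z ∈ τ, S g (z.1 / h, z.2 / h) = MvPolynomial.eval ![z.1, z.2] p := by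
  obtain ⟨p, hp, hp2⟩ := cub_poly q h (ca i) (cb i)
  refine ⟨p, hp, fun z hz => ?_⟩
  rw [hp2, ← hq z hz, S_eq g i _ (hQ z hz)]
  rfl

theorem mem_spline (g : ℝ → ℝ → ℝ) (h : ℝ) (hh : 0 < h) :
    (fun z : ℝ × ℝ => S g (z.1 / h, z.2 / h)) ∈ splineSpace chk h := by
  constructor
  · exact (S_C1 g).comp (by fun_prop)
  · rintro τ ⟨i, j, ⟨hσ, hτ⟩ | ⟨hσ, hτ⟩⟩
    · obtain ⟨k, hk⟩ : Even (i + j) := by simpa [chk] using hσ
      have hk' : (i : ℝ) + j = k + k := by exact_mod_cast hk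
      rcases hτ with hτ | hτ
      · obtain ⟨q, hq⟩ := F_mp (dat g (ca (k, k - j)) (cb (k, k - j)))
        have key : ∀ z ∈ τ, (i : ℝ) ≤ z.1 / h ∧ z.1 / h ≤ i + 1 ∧ (j : ℝ) ≤ z.2 / h ∧
            z.2 / h ≤ j + 1 ∧ z.2 / h - j ≤ z.1 / h - i := by
          intro z hz
          rw [hτ] at hz
          obtain ⟨⟨h1, h2, h3, h4⟩, h5⟩ := hz
          refine ⟨(le_div_iff₀ hh).2 h1, (div_le_iff₀ hh).2 h2, (le_div_iff₀ hh).2 h3,
            (div_le_iff₀ hh).2 h4, ?_⟩
          have e1 : z.2 / h - j = (z.2 - j * h) / h := by field_simp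
          have e2 : z.1 / h - i = (z.1 - i * h) / h := by field_simp
          rw [e1, e2]
          gcongr
        refine piece g h (k, k - j) τ (fun z hz => ?_) q (fun z hz => ?_)
        · obtain ⟨h1, h2, h3, h4, h5⟩ := key z hz
          refine ⟨?_, ?_, ?_, ?_⟩ <;> simp only <;> push_cast <;> linarith
        · obtain ⟨h1, h2, h3, h4, h5⟩ := key z hz
          apply hq
          · simp only [ca]; push_cast; linarith
          · simp only [cb]; push_cast; linarith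
      · obtain ⟨q, hq⟩ := F_pm (dat g (ca (k, k - j - 1)) (cb (k, k - j - 1)))
        have key : ∀ z ∈ τ, (i : ℝ) ≤ z.1 / h ∧ z.1 / h ≤ i + 1 ∧ (j : ℝ) ≤ z.2 / h ∧
            z.2 / h ≤ j + 1 ∧ z.1 / h - i ≤ z.2 / h - j := by
          intro z hz
          rw [hτ] at hz
          obtain ⟨⟨h1, h2, h3, h4⟩, h5⟩ := hz
          refine ⟨(le_div_iff₀ hh).2 h1, (div_le_iff₀ hh).2 h2, (le_div_iff₀ hh).2 h3,
            (div_le_iff₀ hh).2 h4, ?_⟩
          have e1 : z.2 / h - j = (z.2 - j * h) / h := by field_simp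
          have e2 : z.1 / h - i = (z.1 - i * h) / h := by field_simp
          rw [e1, e2]
          gcongr
        refine piece g h (k, k - j - 1) τ (fun z hz => ?_) q (fun z hz => ?_)
        · obtain ⟨h1, h2, h3, h4, h5⟩ := key z hz
          refine ⟨?_, ?_, ?_, ?_⟩ <;> simp only <;> push_cast <;> linarith
        · obtain ⟨h1, h2, h3, h4, h5⟩ := key z hz
          apply hq
          · simp only [ca]; push_cast; linarith
          · simp only [cb]; push_cast; linarith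
    · obtain ⟨k, hk⟩ : Odd (i + j) := by
        have : ¬ Even (i + j) := by simpa [chk] using hσ
        exact Int.not_even_iff_odd.1 this
      have hk' : (i : ℝ) + j = 2 * k + 1 := by exact_mod_cast hk
      rcases hτ with hτ | hτ
      · obtain ⟨q, hq⟩ := F_pp (dat g (ca (k, k - j)) (cb (k, k - j)))
        have key : ∀ z ∈ τ, (i : ℝ) ≤ z.1 / h ∧ z.1 / h ≤ i + 1 ∧ (j : ℝ) ≤ z.2 / h ∧
            z.2 / h ≤ j + 1 ∧ (z.1 / h - i) + (z.2 / h - j) ≤ 1 := by
          intro z hz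
          rw [hτ] at hz
          obtain ⟨⟨h1, h2, h3, h4⟩, h5⟩ := hz
          refine ⟨(le_div_iff₀ hh).2 h1, (div_le_iff₀ hh).2 h2, (le_div_iff₀ hh).2 h3,
            (div_le_iff₀ hh).2 h4, ?_⟩
          have e1 : (z.1 / h - i) + (z.2 / h - j) = ((z.1 - i * h) + (z.2 - j * h)) / h := by
            field_simp
          rw [e1, div_le_one hh]
          exact h5
        refine piece g h (k, k - j) τ (fun z hz => ?_) q (fun z hz => ?_)
        · obtain ⟨h1, h2, h3, h4, h5⟩ := key z hz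
          refine ⟨?_, ?_, ?_, ?_⟩ <;> simp only <;> push_cast <;> linarith
        · obtain ⟨h1, h2, h3, h4, h5⟩ := key z hz
          apply hq
          · simp only [ca]; push_cast; linarith
          · simp only [cb]; push_cast; linarith
      · obtain ⟨q, hq⟩ := F_mm (dat g (ca (k + 1, k - j)) (cb (k + 1, k - j)))
        have key : ∀ z ∈ τ, (i : ℝ) ≤ z.1 / h ∧ z.1 / h ≤ i + 1 ∧ (j : ℝ) ≤ z.2 / h ∧
            z.2 / h ≤ j + 1 ∧ 1 ≤ (z.1 / h - i) + (z.2 / h - j) := by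
          intro z hz
          rw [hτ] at hz
          obtain ⟨⟨h1, h2, h3, h4⟩, h5⟩ := hz
          refine ⟨(le_div_iff₀ hh).2 h1, (div_le_iff₀ hh).2 h2, (le_div_iff₀ hh).2 h3,
            (div_le_iff₀ hh).2 h4, ?_⟩
          have e1 : (z.1 / h - i) + (z.2 / h - j) = ((z.1 - i * h) + (z.2 - j * h)) / h := by
            field_simp
          rw [e1, one_le_div hh]
          exact h5
        refine piece g h (k + 1, k - j) τ (fun z hz => ?_) q (fun z hz => ?_)
        · obtain ⟨h1, h2, h3, h4, h5⟩ := key z hz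
          refine ⟨?_, ?_, ?_, ?_⟩ <;> simp only <;> push_cast <;> linarith
        · obtain ⟨h1, h2, h3, h4, h5⟩ := key z hz
          apply hq
          · simp only [ca]; push_cast; linarith
          · simp only [cb]; push_cast; linarith

theorem approx (f : E → ℝ) (hf : ContDiff ℝ 4 f) (M : ℝ) (hM : ∀ z, ‖iteratedFDeriv ℝ 4 f z‖ ≤ M)
    (h : ℝ) (hh : 0 < h) (z : ℝ × ℝ) :
    |f z - S (fun x y => f (h * x, h * y)) (z.1 / h, z.2 / h)| ≤ 1084 * M * h ^ 4 := by
  have hM0 : 0 ≤ M := (norm_nonneg _).trans (hM 0)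
  set g : ℝ → ℝ → ℝ := fun x y => f (h * x, h * y) with hg
  set w : ℝ × ℝ := (z.1 / h, z.2 / h) with hw
  set i := idx w with hi
  obtain ⟨p, hp⟩ := taylor2 f hf M hM (h * ca i, h * cb i)
  have hz : f z = g w.1 w.2 := by
    simp only [hg, hw]
    congr 1
    ext
    · simp only; field_simp
    · simp only; field_simp
  have hloc := local_error g ⟨p.a00, p.a10 * h, p.a01 * h, p.a20 * h ^ 2, p.a11 * h ^ 2,
    p.a02 * h ^ 2, p.a30 * h ^ 3, p.a21 * h ^ 3, p.a12 * h ^ 3, p.a03 * h ^ 3⟩ (ca i) (cb i)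
    (M * (h * 3) ^ 4 / 24) (fun x y hx hy => by
      have h1 := hp (h * (x - ca i)) (h * (y - cb i))
      have e1 : h * ca i + h * (x - ca i) = h * x := by ring
      have e2 : h * cb i + h * (y - cb i) = h * y := by ring
      have e3 : Cub.ev ⟨p.a00, p.a10 * h, p.a01 * h, p.a20 * h ^ 2, p.a11 * h ^ 2,
          p.a02 * h ^ 2, p.a30 * h ^ 3, p.a21 * h ^ 3, p.a12 * h ^ 3, p.a03 * h ^ 3⟩
          (x - ca i) (y - cb i) = p.ev (h * (x - ca i)) (h * (y - cb i)) := by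
        simp only [Cub.ev]; ring
      rw [e3]
      simp only [e1, e2] at h1
      refine h1.trans ?_
      have e4 : max |h * (x - ca i)| |h * (y - cb i)| ≤ h * 3 := by
        rw [abs_mul, abs_mul, abs_of_pos hh]
        exact max_le (by gcongr) (by gcongr)
      have e5 : 0 ≤ max |h * (x - ca i)| |h * (y - cb i)| := (abs_nonneg _).trans (le_max_left _ _)
      gcongr)
    w.1 w.2
  have hmem := mem_idx w
  rw [← hi] at hmem
  obtain ⟨h1, h2, h3, h4⟩ := hmem
  have b1 : |w.1 - ca i| ≤ 1 := by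
    rw [abs_le]; simp only [ca]; constructor <;> linarith
  have b2 : |w.2 - cb i| ≤ 1 := by
    rw [abs_le]; simp only [cb]; constructor <;> linarith
  have h5 := hloc b1 b2
  rw [hz]
  have h6 : S g w = F (dat g (ca i) (cb i)) (w.1 - ca i) (w.2 - cb i) := rfl
  rw [h6]
  refine h5.trans ?_
  have : 0 ≤ M * h ^ 4 := by positivity
  nlinarith

theorem order_four (n : WithTop ℕ∞) (hn : 4 ≤ n) : HasApproxOrder chk n 4 := by
  refine ⟨1084, 1, one_pos, fun h hh _ f hf => ?_⟩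
  have hf4 : ContDiff ℝ 4 f := hf.of_le hn
  have hpos : 0 < (√2 * h) ^ (4 : ℝ) := by positivity
  have hpow : (√2 * h) ^ (4 : ℝ) = 4 * h ^ 4 := by
    rw [show (4 : ℝ) = ((4 : ℕ) : ℝ) by norm_num, Real.rpow_natCast, mul_pow]
    have : (√2) ^ 4 = 4 := by
      rw [show (4 : ℕ) = 2 * 2 by norm_num, pow_mul, Real.sq_sqrt (by norm_num)]
      norm_num
    rw [this]
    norm_num
  by_cases htop : supNormD4 f = ⊤
  · rw [htop, ENNReal.mul_top (by norm_num), ENNReal.top_mul]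
    · exact le_top
    · exact (ENNReal.ofReal_pos.2 hpos).ne'
  · set M := (supNormD4 f).toReal with hMdef
    have hMe : supNormD4 f = ENNReal.ofReal M := (ENNReal.ofReal_toReal htop).symm
    have hM0 : 0 ≤ M := ENNReal.toReal_nonneg
    have hM : ∀ z, ‖iteratedFDeriv ℝ 4 f z‖ ≤ M := by
      intro z
      have h1 : ENNReal.ofReal ‖iteratedFDeriv ℝ 4 f z‖ ≤ ENNReal.ofReal M := by
        rw [← hMe]
        exact le_iSup (fun z => ENNReal.ofReal ‖iteratedFDeriv ℝ 4 f z‖) z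
      exact (ENNReal.ofReal_le_ofReal_iff hM0).1 h1
    have h2 : supDist f (splineSpace chk h) ≤ ENNReal.ofReal (1084 * M * h ^ 4) := by
      refine (iInf₂_le _ (mem_spline (fun x y => f (h * x, h * y)) h hh)).trans ?_
      refine iSup_le (fun z => ?_)
      exact ENNReal.ofReal_le_ofReal (approx f hf4 M hM h hh z)
    refine h2.trans ?_
    rw [hMe, show ((1084 : ℝ≥0) : ℝ≥0∞) = ENNReal.ofReal 1084 by norm_num,
      ← ENNReal.ofReal_mul (by norm_num), ← ENNReal.ofReal_mul (by positivity), hpow]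
    apply ENNReal.ofReal_le_ofReal
    have : 0 ≤ M * h ^ 4 := by positivity
    nlinarith

end Helper4.Spline
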