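import Pool.Agent.Helper4.SplineElem3

set_option linter.unusedSimpArgs false

namespace Helper4.Spline

open Set

abbrev E := ℝ × ℝ

theorem ml0 (A : ContinuousMultilinearMap ℝ (fun _ : Fin 0 => E) ℝ) :
    ∃ a : ℝ, ∀ X Y : ℝ, A (fun _ => (X, Y)) = a := by
  refine ⟨A (fun _ => 0), fun X Y => ?_⟩
  congr 1
  ext i
  exact i.elim0
  exact i.elim0

theorem ml_split {n : ℕ} (A : ContinuousMultilinearMap ℝ (fun _ : Fin (n + 1) => E) ℝ) (X Y : ℝ) :
    A (fun _ => (X, Y)) = X * (A.curryLeft (1, 0)) (fun _ => (X, Y))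
      + Y * (A.curryLeft (0, 1)) (fun _ => (X, Y)) := by
  have h : A (fun _ => (X, Y)) = A.curryLeft (X, Y) (fun _ => (X, Y)) := by
    rw [ContinuousMultilinearMap.curryLeft_apply]
    congr 1
    funext i
    refine Fin.cases ?_ (fun j => ?_) i <;> simp
  have h2 : ((X, Y) : E) = X • ((1, 0) : E) + Y • ((0, 1) : E) := by
    ext <;> simp
  rw [h]
  conv_lhs => rw [show A.curryLeft (X, Y) = A.curryLeft (X • ((1, 0) : E) + Y • ((0, 1) : E)) by
    rw [← h2]]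
  rw [map_add, map_smul, map_smul]
  simp

theorem ml1 (A : ContinuousMultilinearMap ℝ (fun _ : Fin 1 => E) ℝ) :
    ∃ a b : ℝ, ∀ X Y : ℝ, A (fun _ => (X, Y)) = a * X + b * Y := by
  obtain ⟨a, ha⟩ := ml0 (A.curryLeft (1, 0))
  obtain ⟨b, hb⟩ := ml0 (A.curryLeft (0, 1))
  refine ⟨a, b, fun X Y => ?_⟩
  rw [ml_split, ha, hb]
  ring

theorem ml2 (A : ContinuousMultilinearMap ℝ (fun _ : Fin 2 => E) ℝ) :
    ∃ a b c : ℝ, ∀ X Y : ℝ, A (fun _ => (X, Y)) = a * X ^ 2 + b * (X * Y) + c * Y ^ 2 := by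
  obtain ⟨a, b, hab⟩ := ml1 (A.curryLeft (1, 0))
  obtain ⟨c, d, hcd⟩ := ml1 (A.curryLeft (0, 1))
  refine ⟨a, b + c, d, fun X Y => ?_⟩
  rw [ml_split, hab, hcd]
  ring

theorem ml3 (A : ContinuousMultilinearMap ℝ (fun _ : Fin 3 => E) ℝ) :
    ∃ a b c d : ℝ, ∀ X Y : ℝ, A (fun _ => (X, Y)) =
      a * X ^ 3 + b * (X ^ 2 * Y) + c * (X * Y ^ 2) + d * Y ^ 3 := by
  obtain ⟨a, b, c, habc⟩ := ml2 (A.curryLeft (1, 0))
  obtain ⟨a', b', c', habc'⟩ := ml2 (A.curryLeft (0, 1))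
  refine ⟨a, b + a', c + b', c', fun X Y => ?_⟩
  rw [ml_split, habc, habc']
  ring

/-- derivatives along a line -/
theorem iteratedDeriv_line (f : E → ℝ) (hf : ContDiff ℝ 4 f) (a w : E) (k : ℕ) (hk : k ≤ 4)
    (t : ℝ) :
    iteratedDeriv k (fun t : ℝ => f (a + t • w)) t = iteratedFDeriv ℝ k f (a + t • w) (fun _ => w) := by
  have h1 : (fun t : ℝ => f (a + t • w))
      = (fun v => f (a + v)) ∘ (ContinuousLinearMap.toSpanSingleton ℝ w) := by
    funext t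
    simp
  have hf2 : ContDiff ℝ 4 (fun v => f (a + v)) := hf.comp (contDiff_const.add contDiff_id)
  rw [iteratedDeriv_eq_iteratedFDeriv, h1,
    ContinuousLinearMap.iteratedFDeriv_comp_right _ hf2 t (i := k) (by exact_mod_cast hk)]
  rw [iteratedFDeriv_comp_add_left]
  simp

theorem taylor2 (f : E → ℝ) (hf : ContDiff ℝ 4 f) (M : ℝ)
    (hM : ∀ z, ‖iteratedFDeriv ℝ 4 f z‖ ≤ M) (a : E) :
    ∃ p : Cub, ∀ X Y : ℝ, |f (a.1 + X, a.2 + Y) - p.ev X Y| ≤ M * (max |X| |Y|) ^ 4 / 24 := by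
  obtain ⟨b1, b2, hb⟩ := ml1 (iteratedFDeriv ℝ 1 f a)
  obtain ⟨c1, c2, c3, hc⟩ := ml2 (iteratedFDeriv ℝ 2 f a)
  obtain ⟨d1, d2, d3, d4, hd⟩ := ml3 (iteratedFDeriv ℝ 3 f a)
  refine ⟨⟨f a, b1, b2, c1 / 2, c2 / 2, c3 / 2, d1 / 6, d2 / 6, d3 / 6, d4 / 6⟩, fun X Y => ?_⟩
  set w : E := (X, Y) with hw
  set φ : ℝ → ℝ := fun t => f (a + t • w) with hφ
  have hφc : ContDiff ℝ 4 φ := by
    apply hf.comp
    exact contDiff_const.add (contDiff_id.smul contDiff_const)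
  obtain ⟨t, ht, h⟩ := taylor_mean_remainder_lagrange_iteratedDeriv (f := φ) (x := 1) (x₀ := 0)
    (n := 3) (by norm_num) (by exact_mod_cast hφc.contDiffOn)
  have hu : UniqueDiffOn ℝ (uIcc (0:ℝ) 1) := uniqueDiffOn_uIcc (by norm_num)
  have hD : ∀ k : ℕ, k ≤ 4 → iteratedDerivWithin k φ (uIcc (0:ℝ) 1) 0
      = iteratedFDeriv ℝ k f a (fun _ => w) := by
    intro k hk
    rw [iteratedDerivWithin_eq_iteratedFDerivWithin,
      iteratedFDerivWithin_eq_iteratedFDeriv hu _ (by simp), ← iteratedDeriv_eq_iteratedFDeriv,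
      iteratedDeriv_line f hf a w k hk 0]
    · simp
    · exact (hφc.of_le (by exact_mod_cast hk)).contDiffAt
  have h1 : f (a.1 + X, a.2 + Y) = φ 1 := by
    simp only [hφ, hw, one_smul]
    rfl
  have h4 : |iteratedDeriv (3 + 1) φ t| ≤ M * (max |X| |Y|) ^ 4 := by
    rw [show (3 + 1 : ℕ) = 4 from rfl, hφ, iteratedDeriv_line f hf a w 4 le_rfl t]
    calc |iteratedFDeriv ℝ 4 f (a + t • w) (fun _ => w)|
        ≤ ‖iteratedFDeriv ℝ 4 f (a + t • w)‖ * ∏ _i : Fin 4, ‖w‖ :=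
          by simpa only [Real.norm_eq_abs] using
            (iteratedFDeriv ℝ 4 f (a + t • w)).le_opNorm (fun _ => w)
      _ = ‖iteratedFDeriv ℝ 4 f (a + t • w)‖ * (max |X| |Y|) ^ 4 := by
          rw [Finset.prod_const, Finset.card_univ, Fintype.card_fin, hw, Prod.norm_mk,
            Real.norm_eq_abs, Real.norm_eq_abs]
      _ ≤ M * (max |X| |Y|) ^ 4 := by
          gcongr
          exact hM _
  have hp : (Cub.ev ⟨f a, b1, b2, c1 / 2, c2 / 2, c3 / 2, d1 / 6, d2 / 6, d3 / 6, d4 / 6⟩ X Y : ℝ)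
      = taylorWithinEval φ 3 (uIcc (0:ℝ) 1) 0 1 := by
    rw [taylorWithinEval_succ, taylorWithinEval_succ, taylorWithinEval_succ,
      taylor_within_zero_eval, hD 1 (by norm_num), hD 2 (by norm_num), hD 3 (by norm_num), hw, hb,
      hc, hd]
    simp only [hφ, Cub.ev]
    norm_num [Nat.factorial]
    ring
  rw [h1, hp, h]
  rw [abs_div, abs_mul]
  have : ((3 + 1).factorial : ℝ) = 24 := by norm_num [Nat.factorial]
  rw [this]
  norm_num
  linarith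

end Helper4.Spline
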