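import Pool.Agent.Helper4.SplineMain

set_option linter.unusedSimpArgs false

namespace Helper4.Spline

open Set Dat Topology Helper4.MixedMesh
open scoped ENNReal NNReal

/-- the fourth difference of a bivariate cubic along a horizontal line vanishes -/
theorem fourth_diff (p : MvPolynomial (Fin 2) ℝ) (hp : p.totalDegree ≤ 3) (t : ℝ) :
    MvPolynomial.eval ![0 * t, 0] p - 4 * MvPolynomial.eval ![1 * t, 0] p
      + 6 * MvPolynomial.eval ![2 * t, 0] p - 4 * MvPolynomial.eval ![3 * t, 0] p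
      + MvPolynomial.eval ![4 * t, 0] p = 0 := by
  have h1 : ∀ c : ℝ, MvPolynomial.eval ![c * t, 0] p
      = ∑ d ∈ p.support, p.coeff d * ((c * t) ^ d 0 * 0 ^ d 1) := by
    intro c
    rw [MvPolynomial.eval_eq']
    simp [Fin.prod_univ_two]
  rw [h1, h1, h1, h1, h1, Finset.mul_sum, Finset.mul_sum, Finset.mul_sum,
    ← Finset.sum_sub_distrib, ← Finset.sum_add_distrib, ← Finset.sum_sub_distrib,
    ← Finset.sum_add_distrib]
  apply Finset.sum_eq_zero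
  intro d hd
  have h2 : d 0 + d 1 ≤ 3 := by
    have := (MvPolynomial.le_totalDegree hd).trans hp
    rw [Finsupp.sum_fintype _ _ (by simp)] at this
    simpa [Fin.sum_univ_two] using this
  have h3 : d 0 ≤ 3 := by omega
  generalize d 0 = m at h3
  generalize (0 : ℝ) ^ d 1 = u
  generalize p.coeff d = a
  interval_cases m <;> ring

theorem lower_dist (h : ℝ) (hh : 0 < h) :
    ENNReal.ofReal (3 / 512 * h ^ 4) ≤ supDist (fun z => z.1 ^ 4) (splineSpace chk h) := by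
  refine le_iInf₂ (fun s hs => ?_)
  set R : ℝ≥0∞ := ⨆ z : ℝ × ℝ, ENNReal.ofReal |z.1 ^ 4 - s z| with hR
  by_cases htop : R = ⊤
  · rw [htop]; exact le_top
  · have hRe : R = ENNReal.ofReal R.toReal := (ENNReal.ofReal_toReal htop).symm
    have hb : ∀ z : ℝ × ℝ, |z.1 ^ 4 - s z| ≤ R.toReal := by
      intro z
      have h1 : ENNReal.ofReal |z.1 ^ 4 - s z| ≤ ENNReal.ofReal R.toReal := by
        rw [← hRe, hR]
        exact le_iSup (fun z : ℝ × ℝ => ENNReal.ofReal |z.1 ^ 4 - s z|) z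
      exact (ENNReal.ofReal_le_ofReal_iff ENNReal.toReal_nonneg).1 h1
    obtain ⟨_, hs2⟩ := hs
    obtain ⟨p, hp, hp2⟩ := hs2 {z | z ∈ square h 0 0 ∧ z.2 - (0:ℤ) * h ≤ z.1 - (0:ℤ) * h}
      ⟨0, 0, Or.inl ⟨by simp [chk], Or.inl rfl⟩⟩
    have hmem : ∀ c : ℝ, 0 ≤ c → c ≤ 4 → ((c * (h / 4), 0) : ℝ × ℝ) ∈
        {z : ℝ × ℝ | z ∈ square h 0 0 ∧ z.2 - (0:ℤ) * h ≤ z.1 - (0:ℤ) * h} := by
      intro c hc0 hc4
      have h1 : 0 ≤ c * (h / 4) := by positivity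
      have h2 : c * (h / 4) ≤ h := by nlinarith
      refine ⟨⟨?_, ?_, ?_, ?_⟩, ?_⟩ <;> simp <;> linarith
    have e := fourth_diff p hp (h / 4)
    have q0 := hp2 _ (hmem 0 (by norm_num) (by norm_num))
    have q1 := hp2 _ (hmem 1 (by norm_num) (by norm_num))
    have q2 := hp2 _ (hmem 2 (by norm_num) (by norm_num))
    have q3 := hp2 _ (hmem 3 (by norm_num) (by norm_num))
    have q4 := hp2 _ (hmem 4 (by norm_num) (by norm_num))
    simp only at q0 q1 q2 q3 q4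
    rw [← q0, ← q1, ← q2, ← q3, ← q4] at e
    have b0 := hb (0 * (h / 4), 0)
    have b1 := hb (1 * (h / 4), 0)
    have b2 := hb (2 * (h / 4), 0)
    have b3 := hb (3 * (h / 4), 0)
    have b4 := hb (4 * (h / 4), 0)
    simp only at b0 b1 b2 b3 b4
    rw [abs_le] at b0 b1 b2 b3 b4
    rw [hRe]
    apply ENNReal.ofReal_le_ofReal
    nlinarith

theorem normD4 : supNormD4 (fun z : ℝ × ℝ => z.1 ^ 4) ≤ ENNReal.ofReal 24 := by
  refine iSup_le (fun z => ENNReal.ofReal_le_ofReal ?_)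
  have h1 : (fun z : ℝ × ℝ => z.1 ^ 4) = (fun x : ℝ => x ^ 4) ∘ (ContinuousLinearMap.fst ℝ ℝ ℝ) := by
    funext z; rfl
  have hc : ContDiff ℝ 4 (fun x : ℝ => x ^ 4) := by fun_prop
  rw [h1, ContinuousLinearMap.iteratedFDeriv_comp_right _ hc z (i := 4) (by norm_num)]
  refine (ContinuousMultilinearMap.norm_compContinuousLinearMap_le _ _).trans ?_
  have h2 : ‖iteratedFDeriv ℝ 4 (fun x : ℝ => x ^ 4) ((ContinuousLinearMap.fst ℝ ℝ ℝ) z)‖ = 24 := by
    rw [norm_iteratedFDeriv_eq_norm_iteratedDeriv]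
    have : iteratedDeriv 4 (fun x : ℝ => x ^ 4) ((ContinuousLinearMap.fst ℝ ℝ ℝ) z) = 24 := by
      simp [iteratedDeriv_succ, iteratedDeriv_zero]
    rw [this]
    norm_num
  rw [h2]
  have h3 : ∏ _i : Fin 4, ‖ContinuousLinearMap.fst ℝ ℝ ℝ‖ ≤ 1 := by
    apply Finset.prod_le_one
    · intro i _; exact norm_nonneg _
    · intro i _; exact ContinuousLinearMap.norm_fst_le ℝ ℝ ℝ
  nlinarith

theorem order_le (n : WithTop ℕ∞) (ρ : ℝ) (H : HasApproxOrder chk n ρ) : ρ ≤ 4 := by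
  by_contra hρ
  push Not at hρ
  obtain ⟨C, h₀, hh₀, H⟩ := H
  set K : ℝ := (C : ℝ) * 24 * √2 ^ ρ with hK
  have hcont : ContinuousAt (fun h : ℝ => K * h ^ (ρ - 4)) 0 :=
    (Real.continuousAt_rpow_const 0 (ρ - 4) (Or.inr (by linarith))).const_mul K
  have hval : K * (0 : ℝ) ^ (ρ - 4) = 0 := by
    rw [Real.zero_rpow (by linarith), mul_zero]
  have hev : ∀ᶠ h in 𝓝 (0 : ℝ), K * h ^ (ρ - 4) < 3 / 512 := by
    have := hcont.tendsto
    simp only [hval] at this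
    exact this.eventually (gt_mem_nhds (by norm_num))
  have hev2 : ∀ᶠ h in 𝓝[>] (0 : ℝ), K * h ^ (ρ - 4) < 3 / 512 := hev.filter_mono nhdsWithin_le_nhds
  have hev3 : ∀ᶠ h in 𝓝[>] (0 : ℝ), h ∈ Ioo (0:ℝ) h₀ := Ioo_mem_nhdsGT hh₀
  obtain ⟨h, hlt, hh, hlt2⟩ := (hev2.and hev3).exists
  have h1 := H h hh hlt2 (fun z => z.1 ^ 4) (by fun_prop)
  have h2 : ENNReal.ofReal (3 / 512 * h ^ 4) ≤ ENNReal.ofReal (C * 24 * (√2 * h) ^ ρ) := by
    refine (lower_dist h hh).trans (h1.trans ?_)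
    rw [ENNReal.ofReal_mul (by positivity), ENNReal.ofReal_mul (by positivity),
      ENNReal.ofReal_coe_nnreal]
    gcongr
    exact normD4
  have h3 : 3 / 512 * h ^ 4 ≤ C * 24 * (√2 * h) ^ ρ :=
    (ENNReal.ofReal_le_ofReal_iff (by positivity)).1 h2
  have h4 : (√2 * h) ^ ρ = √2 ^ ρ * (h ^ (ρ - 4) * h ^ 4) := by
    rw [Real.mul_rpow (by positivity) hh.le]
    congr 1
    rw [← Real.rpow_natCast h 4, ← Real.rpow_add hh]
    norm_num
  rw [h4] at h3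
  have h5 : 3 / 512 * h ^ 4 ≤ (K * h ^ (ρ - 4)) * h ^ 4 := by
    rw [hK]
    calc 3 / 512 * h ^ 4 ≤ C * 24 * (√2 ^ ρ * (h ^ (ρ - 4) * h ^ 4)) := h3
      _ = _ := by ring
  have h6 : 0 < h ^ 4 := by positivity
  have h7 := le_of_mul_le_mul_right h5 h6
  linarith

end Helper4.Spline
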